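import Pool.Agent.R286.IA.Stm

/-!
# MP_4265c1_an: construction of the operator (piece BUILD)
-/

set_option autoImplicit false

open Filter Topology MeasureTheory

namespace Pool.Agent.R286.IA

theorem build {𝕜 : Type*} [RCLike 𝕜] {X : Type*} [NormedAddCommGroup X] [NormedSpace 𝕜 X]
    (hE : StEmb 𝕜 X) (hX : StExt 𝕜) (h1 : StSeq1 𝕜 X) : StBuild 𝕜 X := by
  classical
  intro hsep q x ε hL K hne hK hcl
  obtain ⟨j, hinj, h01, hcont⟩ := hE q x ε hL
  have hinjK : ∀ w ∈ K, ∀ w' ∈ K, j w = j w' → w = w' := fun w hw w' hw' h =>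
    hinj w w' (hK w hw).1 (hK w' hw').1 (hK w hw).2 (hK w' hw').2 h
  -- the compact set
  have hLc : IsCompact (j '' K) := by
    apply IsSeqCompact.isCompact
    intro y hy
    choose w hwK hwy using hy
    obtain ⟨w', φ, hφ, hw'⟩ := h1 hsep 2 w (fun n => (hK _ (hwK n)).2)
    have hw'K : w' ∈ K := hcl (fun n => w (φ n)) w' (fun n => hwK _) hw'
    refine ⟨j w', ⟨w', hw'K, rfl⟩, φ, hφ, ?_⟩
    have h2 := hcont (fun n => w (φ n)) w' (fun n => (hK _ (hwK _)).2) (hK _ hw'K).2 hw'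
    refine h2.congr fun n => ?_
    exact hwy (φ n)
  -- the preimages
  obtain ⟨kk, hkk⟩ : ∃ kk : ℝ → (X →L[𝕜] 𝕜), ∀ l ∈ j '' K, kk l ∈ K ∧ j (kk l) = l := by
    refine ⟨Function.invFunOn j K, fun l hl => ?_⟩
    exact Function.invFunOn_pos hl
  have hkj : ∀ k ∈ K, kk (j k) = k := by
    intro k hk
    obtain ⟨h2, h3⟩ := hkk (j k) ⟨k, hk, rfl⟩
    exact hinjK _ h2 _ hk h3
  have hkc : ∀ v : X, ContinuousOn (fun l => kk l v) (j '' K) := by
    intro v l0 hl0
    refine tendsto_of_subseq_tendsto fun ns hns => ?_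
    have h2 : ∀ᶠ n in atTop, ns n ∈ j '' K := hns.eventually self_mem_nhdsWithin
    obtain ⟨N, hN⟩ := eventually_atTop.1 h2
    have hmem : ∀ n, kk (ns (n + N)) ∈ K := fun n => (hkk _ (hN _ (Nat.le_add_left N n))).1
    obtain ⟨w', φ, hφ, hw'⟩ := h1 hsep 2 (fun n => kk (ns (n + N))) (fun n => (hK _ (hmem n)).2)
    have hw'K : w' ∈ K := hcl (fun n => kk (ns (φ n + N))) w' (fun n => hmem _) hw'
    have h3 := hcont (fun n => kk (ns (φ n + N))) w' (fun n => (hK _ (hmem _)).2)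
      (hK _ hw'K).2 hw'
    have h4 : Tendsto (fun n => ns (φ n + N)) atTop (𝓝 l0) := by
      have h5 : Tendsto ns atTop (𝓝 l0) := hns.mono_right nhdsWithin_le_nhds
      exact h5.comp ((tendsto_add_atTop_nat N).comp hφ.tendsto_atTop)
    have h5 : j w' = l0 := by
      refine tendsto_nhds_unique h3 (h4.congr fun n => ?_)
      exact (hkk _ (hN _ (Nat.le_add_left N _))).2.symm
    have h6 : w' = kk l0 := by
      obtain ⟨h7, h8⟩ := hkk l0 hl0
      exact hinjK _ hw'K _ h7 (h5.trans h8.symm)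
    refine ⟨fun n => φ n + N, ?_⟩
    have h7 := hw' v
    rw [h6] at h7
    exact h7
  obtain ⟨a, b, s, hab, hfix, hG, hshr⟩ := hX (j '' K) hLc (hne.image j)
  have hka : ∀ t, kk (a t) ∈ K := fun t => (hkk _ (hab t).1).1
  have hkb : ∀ t, kk (b t) ∈ K := fun t => (hkk _ (hab t).2.1).1
  -- the operator
  let T0 : X →ₗ[𝕜] C(unitInterval, 𝕜) :=
    { toFun := fun v => ⟨fun t => ((1 - s t : ℝ) : 𝕜) * kk (a t) v + ((s t : ℝ) : 𝕜) * kk (b t) v,
        (hG (fun l => kk l v) (hkc v)).comp continuous_subtype_val⟩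
      map_add' := fun v w => by
        ext t
        simp only [map_add, ContinuousMap.coe_mk, ContinuousMap.add_apply]
        ring
      map_smul' := fun c v => by
        ext t
        simp only [map_smul, ContinuousMap.coe_mk, ContinuousMap.smul_apply, smul_eq_mul,
          RingHom.id_apply]
        ring }
  have hT0 : ∀ v, ‖T0 v‖ ≤ 2 * ‖v‖ := by
    intro v
    rw [ContinuousMap.norm_le _ (by positivity)]
    intro t
    change ‖((1 - s t : ℝ) : 𝕜) * kk (a t) v + ((s t : ℝ) : 𝕜) * kk (b t) v‖ ≤ 2 * ‖v‖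
    have hs0 := (hab t).2.2.1
    have hs1 := (hab t).2.2.2
    have e1 : ‖kk (a t) v‖ ≤ 2 * ‖v‖ := (kk (a t)).le_of_opNorm_le (hK _ (hka t)).2 v
    have e2 : ‖kk (b t) v‖ ≤ 2 * ‖v‖ := (kk (b t)).le_of_opNorm_le (hK _ (hkb t)).2 v
    calc ‖((1 - s t : ℝ) : 𝕜) * kk (a t) v + ((s t : ℝ) : 𝕜) * kk (b t) v‖
        ≤ ‖((1 - s t : ℝ) : 𝕜) * kk (a t) v‖ + ‖((s t : ℝ) : 𝕜) * kk (b t) v‖ := norm_add_le _ _
      _ = (1 - s t) * ‖kk (a t) v‖ + s t * ‖kk (b t) v‖ := by
        rw [norm_mul, norm_mul, RCLike.norm_ofReal, RCLike.norm_ofReal, abs_of_nonneg hs0,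
          abs_of_nonneg (sub_nonneg.2 hs1)]
      _ ≤ (1 - s t) * (2 * ‖v‖) + s t * (2 * ‖v‖) :=
        add_le_add (mul_le_mul_of_nonneg_left e1 (sub_nonneg.2 hs1))
          (mul_le_mul_of_nonneg_left e2 hs0)
      _ = 2 * ‖v‖ := by ring
  have hιK : ∀ w ∈ K, ((Set.projIcc (0 : ℝ) 1 zero_le_one (j w) : unitInterval) : ℝ) = j w := by
    intro w hw
    have h2 := h01 w (hK w hw).2
    rw [Set.projIcc_of_mem zero_le_one ⟨h2.1.le, h2.2.le⟩]
  refine ⟨T0.mkContinuous 2 hT0, fun w => Set.projIcc (0 : ℝ) 1 zero_le_one (j w),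
    fun t => kk (a t), fun t => kk (b t), fun t => s t, ?_⟩
  refine ⟨fun t => hka t, fun t => hkb t, fun t => (hab t).2.2.1, fun t => (hab t).2.2.2,
    fun t v => rfl, ?_, ?_, ?_⟩
  · intro k hk v
    change ((1 - s (Set.projIcc (0 : ℝ) 1 zero_le_one (j k) : unitInterval) : ℝ) : 𝕜) *
      kk (a (Set.projIcc (0 : ℝ) 1 zero_le_one (j k) : unitInterval)) v +
      ((s (Set.projIcc (0 : ℝ) 1 zero_le_one (j k) : unitInterval) : ℝ) : 𝕜) *
      kk (b (Set.projIcc (0 : ℝ) 1 zero_le_one (j k) : unitInterval)) v = k v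
    obtain ⟨h2, h3⟩ := hfix (j k) ⟨k, hk, rfl⟩
    rw [hιK k hk, h2, h3, hkj k hk, ← add_mul, ← RCLike.ofReal_add, sub_add_cancel,
      RCLike.ofReal_one, one_mul]
  · intro k w hk hw hkw
    have h2 := hcont k w (fun n => (hK _ (hk n)).2) (hK _ hw).2 hkw
    exact (continuous_projIcc.tendsto _).comp h2
  · intro t t' k w hk ht hw hkw hne'
    have hkK : ∀ n, k n ∈ K := by
      intro n
      rcases hk n with h | h
      · rw [h]
        exact hka _
      · rw [h]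
        exact hkb _
    have h2 := hcont k w (fun n => (hK _ (hkK n)).2) (hK _ hw).2 hkw
    obtain ⟨N, hN⟩ := hshr (fun n => (t n : ℝ)) (fun n => j (k n)) (t' : ℝ) (j w) (by
      intro n
      rcases hk n with h | h
      · left
        rw [h]
        exact (hkk _ (hab _).1).2
      · right
        rw [h]
        exact (hkk _ (hab _).2.1).2) ((continuous_subtype_val.tendsto t').comp ht) h2 (by
      intro h
      apply hne'
      apply Subtype.ext
      rw [h, hιK w hw])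
    exact ⟨N, fun n hn => hinjK _ (hkK n) _ (hkK N) (hN n hn)⟩

end Pool.Agent.R286.IA
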