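import Pool.Agent.R286.IA.Stm

/-! CONTR: the final contradiction. -/

set_option autoImplicit false

open Filter Topology MeasureTheory

namespace Pool.Agent.R286.IA

namespace Contr

variable {𝕜 : Type*} [RCLike 𝕜] {X : Type*} [NormedAddCommGroup X] [NormedSpace 𝕜 X]

lemma isCyl_compl (x : ℕ → X) (ε : ℕ → ℝ) (E : Set (X →L[𝕜] 𝕜)) (N : ℕ) :
    IsCyl x ε N {w | w ∈ Om 𝕜 x ε ∧ ¬ ∃ e ∈ E, Agr x N e w} := by
  refine ⟨fun w hw => hw.1, fun w _ w' hw' hag hwH => ⟨hw', ?_⟩⟩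
  rintro ⟨e, he, hea⟩
  exact hwH.2 ⟨e, he, fun i hi => (hea i hi).trans (hag i hi).symm⟩

lemma stepA (h1 : StSeq1 𝕜 X) (h2 : StSeq2 𝕜 X) (hX : TopologicalSpace.SeparableSpace X)
    (δ : ℝ) (hδ0 : 0 < δ) (hδ1 : δ ≤ 1 / 64) (x : ℕ → X) (ε : ℕ → ℝ)
    (hL : LatData 𝕜 (δ / 16) x ε) (E : Set (X →L[𝕜] 𝕜))
    (hE2 : ∀ c ∈ Om 𝕜 x ε, (∀ N, ∃ e ∈ E, Agr x N e c) → c ∈ E)
    (hE3 : ∀ N H, IsCyl x ε N H → Good δ H → ∃ ω ∈ H, ω ∈ E) :
    ∃ ds : X →L[𝕜] 𝕜, ‖ds‖ ≤ (1 - δ) / 4 ∧ ∀ c ∈ Om 𝕜 x ε, ‖c - ds‖ ≤ δ / 8 → c ∈ E := by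
  have hng : ∀ N, ∃ d : X →L[𝕜] 𝕜, ‖d‖ ≤ 1 / 4 ∧
      ∀ w, w ∈ Om 𝕜 x ε → ‖w - d‖ ≤ δ → ∃ e ∈ E, Agr x N e w := by
    intro N
    have hnot : ¬ Good δ {w | w ∈ Om 𝕜 x ε ∧ ¬ ∃ e ∈ E, Agr x N e w} := by
      intro hg
      obtain ⟨ω, hω, hωE⟩ := hE3 N _ (isCyl_compl x ε E N) hg
      exact hω.2 ⟨ω, hωE, fun i _ => rfl⟩
    unfold Good at hnot
    push Not at hnot
    obtain ⟨d, hd, hd2⟩ := hnot
    refine ⟨d, hd, fun w hw hwd => ?_⟩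
    by_contra hcon
    exact absurd hwd (not_le.2 (hd2 w ⟨hw, fun e he ha => hcon ⟨e, he, ha⟩⟩))
  choose d hd1 hd2 using hng
  obtain ⟨d', φ, hφ, hlim⟩ := h1 hX (1 / 4) d hd1
  have hd' : ‖d'‖ ≤ 1 / 4 := h2 (1 / 4) _ d' (fun n => hd1 (φ n)) hlim
  have hnr : ∀ (a : ℝ) (w : X →L[𝕜] 𝕜), 0 ≤ a → ‖(a : 𝕜) • w‖ = a * ‖w‖ := by
    intro a w ha
    rw [norm_smul, RCLike.norm_ofReal, abs_of_nonneg ha]
  have hδ' : 0 ≤ 1 - δ := by linarith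
  refine ⟨((1 - δ : ℝ) : 𝕜) • d', ?_, ?_⟩
  · rw [hnr _ _ hδ']
    nlinarith
  intro c hc hcd
  refine hE2 c hc fun M => ?_
  obtain ⟨ρ, hρ, hq⟩ := hL.quant c hc.1 M (δ / 16) (by positivity)
  -- the approximating functionals
  have hev : ∀ᶠ j in atTop, ∀ i < M,
      |RCLike.re ((c + ((1 - δ : ℝ) : 𝕜) • (d (φ j) - d')) (x i)) - RCLike.re (c (x i))| < ρ := by
    have h3 : ∀ i ∈ Finset.range M, ∀ᶠ j in atTop,
        |RCLike.re ((c + ((1 - δ : ℝ) : 𝕜) • (d (φ j) - d')) (x i)) - RCLike.re (c (x i))| < ρ := by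
      intro i _
      have h4 : Tendsto (fun j => RCLike.re (d (φ j) (x i)) - RCLike.re (d' (x i))) atTop
          (𝓝 0) := by
        have h5 := (RCLike.continuous_re.tendsto _).comp (hlim (x i))
        have h6 := h5.sub_const (RCLike.re (d' (x i)))
        rw [sub_self] at h6
        exact h6
      have h7 : Tendsto (fun j => (1 - δ) * (RCLike.re (d (φ j) (x i)) - RCLike.re (d' (x i))))
          atTop (𝓝 0) := by
        have := h4.const_mul (1 - δ)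
        rwa [mul_zero] at this
      have h8 := (tendsto_order.1 h7.abs).2 ρ (by rw [abs_zero]; exact hρ)
      filter_upwards [h8] with j hj
      have h9 : ∀ a : ℝ, RCLike.re ((c + (a : 𝕜) • (d (φ j) - d')) (x i)) - RCLike.re (c (x i)) =
          a * (RCLike.re (d (φ j) (x i)) - RCLike.re (d' (x i))) := by
        intro a
        simp only [ContinuousLinearMap.add_apply, ContinuousLinearMap.smul_apply,
          ContinuousLinearMap.sub_apply, smul_eq_mul, map_add, RCLike.re_ofReal_mul, map_sub]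
        ring
      rw [h9]
      exact hj
    have h10 := (Finset.range M).eventually_all.2 h3
    filter_upwards [h10] with j hj i hi
    exact hj i (Finset.mem_range.2 hi)
  obtain ⟨j, hj1, hj2⟩ := (hev.and (hφ.tendsto_atTop.eventually_ge_atTop M)).exists
  obtain ⟨w', hw1, hw2, hw3⟩ := hq _ hj1
  have hpow : δ / 16 / 2 ^ M ≤ δ / 16 := by
    apply div_le_self (by positivity)
    exact one_le_pow₀ (by norm_num)
  have hw4 : ‖w' - (c + ((1 - δ : ℝ) : 𝕜) • (d (φ j) - d'))‖ ≤ δ / 8 := by linarith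
  have e1 : w' = (w' - (c + ((1 - δ : ℝ) : 𝕜) • (d (φ j) - d'))) +
      (c - ((1 - δ : ℝ) : 𝕜) • d') + ((1 - δ : ℝ) : 𝕜) • d (φ j) := by
    rw [smul_sub]; abel
  have e2 : w' - d (φ j) = (w' - (c + ((1 - δ : ℝ) : 𝕜) • (d (φ j) - d'))) +
      (c - ((1 - δ : ℝ) : 𝕜) • d') - (δ : 𝕜) • d (φ j) := by
    have : (((1 - δ : ℝ) : 𝕜)) • d (φ j) = d (φ j) - (δ : 𝕜) • d (φ j) := by
      ext v
      simp only [ContinuousLinearMap.smul_apply, ContinuousLinearMap.sub_apply, smul_eq_mul,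
        map_sub, map_one, sub_mul, one_mul]
    rw [smul_sub, this]; abel
  have hdj := hd1 (φ j)
  have hn1 : ‖w'‖ ≤ 1 / 4 := by
    rw [e1]
    have a1 := norm_add₃_le (a := w' - (c + ((1 - δ : ℝ) : 𝕜) • (d (φ j) - d')))
      (b := c - ((1 - δ : ℝ) : 𝕜) • d') (c := ((1 - δ : ℝ) : 𝕜) • d (φ j))
    have a2 := hnr (1 - δ) (d (φ j)) hδ'
    have a3 : (1 - δ) * ‖d (φ j)‖ ≤ (1 - δ) * (1 / 4) := mul_le_mul_of_nonneg_left hdj hδ'
    linarith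
  have hn2 : ‖w' - d (φ j)‖ ≤ δ := by
    rw [e2]
    have a1 := norm_sub_le ((w' - (c + ((1 - δ : ℝ) : 𝕜) • (d (φ j) - d'))) +
      (c - ((1 - δ : ℝ) : 𝕜) • d')) ((δ : 𝕜) • d (φ j))
    have a0 := norm_add_le (w' - (c + ((1 - δ : ℝ) : 𝕜) • (d (φ j) - d')))
      (c - ((1 - δ : ℝ) : 𝕜) • d')
    have a2 := hnr δ (d (φ j)) hδ0.le
    have a3 : δ * ‖d (φ j)‖ ≤ δ * (1 / 4) := mul_le_mul_of_nonneg_left hdj hδ0.le
    linarith
  obtain ⟨e, he, hea⟩ := hd2 (φ j) w' ⟨hw1, hn1⟩ hn2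
  exact ⟨e, he, fun i hi => (hea i (hi.trans_le hj2)).trans (hw2 i hi)⟩

end Contr

open Contr in
theorem contr {𝕜 : Type*} [RCLike 𝕜] {X : Type*} [NormedAddCommGroup X] [NormedSpace 𝕜 X]
    (h1 : StSeq1 𝕜 X) (h2 : StSeq2 𝕜 X) : StContr 𝕜 X := by
  intro hX hY δ hδ0 hδ1 x ε hL E hE hdisj
  have hA : ∀ s : ℝ, s ∈ Set.Ioc (0 : ℝ) (1 / 16) → ∃ ds : X →L[𝕜] 𝕜, ‖ds‖ ≤ (1 - δ) / 4 ∧
      ∀ c ∈ Om 𝕜 x ε, ‖c - ds‖ ≤ δ / 8 → c ∈ E s := by
    intro s hs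
    obtain ⟨-, hE2, hE3⟩ := hE s hs.1 hs.2
    exact stepA h1 h2 hX δ hδ0 hδ1 x ε hL (E s) hE2 hE3
  choose! ds hds1 hds2 using hA
  have hsep : ∀ s ∈ Set.Ioc (0 : ℝ) (1 / 16), ∀ s' ∈ Set.Ioc (0 : ℝ) (1 / 16), s ≠ s' →
      δ / 16 < ‖ds s - ds s'‖ := by
    intro s hs s' hs' hne
    by_contra hcon
    push Not at hcon
    obtain ⟨c, hc1, hc2⟩ := hL.quant0 (ds s)
    have hc3 : ‖c‖ ≤ 1 / 4 := by
      have e1 : c = (c - ds s) + ds s := by abel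
      rw [e1]
      have := norm_add_le (c - ds s) (ds s)
      have := hds1 s hs
      linarith
    have hcO : c ∈ Om 𝕜 x ε := ⟨hc1, hc3⟩
    have hc4 : c ∈ E s := hds2 s hs c hcO (by linarith)
    have hc5 : c ∈ E s' := by
      refine hds2 s' hs' c hcO ?_
      have e1 : c - ds s' = (c - ds s) + (ds s - ds s') := by abel
      rw [e1]
      have := norm_add_le (c - ds s) (ds s - ds s')
      linarith
    exact Set.disjoint_left.1 (hdisj s s' hs.1 hs.2 hs'.1 hs'.2 hne) hc4 hc5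
  have hcount : (Set.Ioc (0 : ℝ) (1 / 16)).Countable := by
    refine Set.PairwiseDisjoint.countable_of_isOpen (s := fun s => Metric.ball (ds s) (δ / 32))
      ?_ (fun s _ => Metric.isOpen_ball) (fun s _ => ⟨ds s, Metric.mem_ball_self (by positivity)⟩)
    intro s hs s' hs' hne
    apply Metric.ball_disjoint_ball
    rw [dist_eq_norm]
    have := hsep s hs s' hs' hne
    linarith
  have hzero := hcount.measure_zero (volume : Measure ℝ)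
  rw [Real.volume_Ioc, ENNReal.ofReal_eq_zero] at hzero
  norm_num at hzero

end Pool.Agent.R286.IA
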