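import Pool.Agent.R286.IA.Stm

/-!
# EMB (MP_4265c1_an): injective coding of bounded lattice functionals by real numbers
-/

set_option autoImplicit false

open Filter Topology

namespace Pool.Agent.R286.IA

namespace Emb961

/-- rapidly decreasing weights -/
noncomputable def lam (ε : ℕ → ℝ) : ℕ → ℝ
  | 0 => 1 / 16
  | i + 1 => lam ε i * ε i / 16

theorem lam_pos {ε : ℕ → ℝ} (h : ∀ i, 0 < ε i) : ∀ i, 0 < lam ε i
  | 0 => by norm_num [lam]
  | i + 1 => by
    have h1 := lam_pos h i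
    have h2 := h i
    show 0 < lam ε i * ε i / 16
    positivity

theorem lam_step {ε : ℕ → ℝ} (h : ∀ i, 0 < ε i) (h' : ∀ i, ε i ≤ 1) (i : ℕ) :
    lam ε (i + 1) ≤ lam ε i / 16 := by
  have h1 := lam_pos h i
  have h2 := h' i
  show lam ε i * ε i / 16 ≤ lam ε i / 16
  have h3 : lam ε i * ε i ≤ lam ε i * 1 := mul_le_mul_of_nonneg_left h2 h1.le
  linarith

theorem lam_tail {ε : ℕ → ℝ} (h : ∀ i, 0 < ε i) (h' : ∀ i, ε i ≤ 1) (i : ℕ) :
    ∀ k : ℕ, lam ε (k + i) ≤ lam ε i * (1 / 16) ^ k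
  | 0 => by simp
  | k + 1 => by
    have h1 := lam_tail h h' i k
    have h2 := lam_step h h' (k + i)
    have e : k + 1 + i = k + i + 1 := by omega
    rw [e, pow_succ]
    linarith

theorem lam_le {ε : ℕ → ℝ} (h : ∀ i, 0 < ε i) (h' : ∀ i, ε i ≤ 1) (k : ℕ) :
    lam ε k ≤ 1 / 16 * (1 / 16) ^ k := by
  have h1 := lam_tail h h' 0 k
  have e : lam ε 0 = 1 / 16 := rfl
  rw [e, Nat.add_zero] at h1
  exact h1

variable {𝕜 : Type*} [RCLike 𝕜] {X : Type*} [NormedAddCommGroup X] [NormedSpace 𝕜 X]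

theorem re_bound {x : ℕ → X} (hx : ∀ i, ‖x i‖ ≤ 1) {w : X →L[𝕜] 𝕜} {C : ℝ} (hw : ‖w‖ ≤ C)
    (i : ℕ) : |RCLike.re (w (x i))| ≤ C := by
  have h1 : |RCLike.re (w (x i))| ≤ ‖w (x i)‖ := RCLike.abs_re_le_norm _
  have h2 : ‖w (x i)‖ ≤ ‖w‖ * ‖x i‖ := w.le_opNorm _
  have h3 : ‖w‖ * ‖x i‖ ≤ ‖w‖ * 1 := mul_le_mul_of_nonneg_left (hx i) (norm_nonneg _)
  linarith

/-- the bound of the terms -/
noncomputable def bd (k : ℕ) : ℝ := 1 / 8 * (1 / 16) ^ k

theorem summable_bd : Summable bd :=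
  (summable_geometric_of_lt_one (by norm_num) (by norm_num)).mul_left _

theorem tsum_bd : ∑' k, bd k = 2 / 15 := by
  unfold bd
  rw [tsum_mul_left, tsum_geometric_of_lt_one (by norm_num) (by norm_num)]
  norm_num

theorem term_bound {x : ℕ → X} {ε : ℕ → ℝ} (h : ∀ i, 0 < ε i) (h' : ∀ i, ε i ≤ 1)
    (hx : ∀ i, ‖x i‖ ≤ 1) {w : X →L[𝕜] 𝕜} (hw : ‖w‖ ≤ 2) (k : ℕ) :
    ‖lam ε k * RCLike.re (w (x k))‖ ≤ bd k := by
  rw [norm_mul, Real.norm_eq_abs, Real.norm_eq_abs, abs_of_pos (lam_pos h k)]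
  have h1 := re_bound hx hw k
  have h2 := lam_le h h' k
  have h3 : lam ε k * |RCLike.re (w (x k))| ≤ (1 / 16 * (1 / 16) ^ k) * 2 :=
    mul_le_mul h2 h1 (abs_nonneg _) (by positivity)
  unfold bd
  linarith

theorem zero_of_re {q : ℝ} {x : ℕ → X} {ε : ℕ → ℝ} (hL : LatData 𝕜 q x ε) {d : X →L[𝕜] 𝕜}
    (hd : ∀ i, RCLike.re (d (x i)) = 0) : d = 0 := by
  have hre : ∀ v, RCLike.re (d v) = 0 := by
    intro v
    have h1 : |RCLike.re (d v)| ≤ 0 := by
      apply le_of_forall_pos_le_add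
      intro η hη
      have hpos : 0 < η / (‖d‖ + 1) := div_pos hη (by positivity)
      obtain ⟨n, c, hc⟩ := hL.dense v _ hpos
      have h2 : RCLike.re (d (∑ i ∈ Finset.range n, (c i : 𝕜) • x i)) = 0 := by
        rw [map_sum, map_sum]
        refine Finset.sum_eq_zero fun i _ => ?_
        rw [map_smul, smul_eq_mul, RCLike.re_ofReal_mul, hd, mul_zero]
      have h3 : RCLike.re (d v) =
          RCLike.re (d (v - ∑ i ∈ Finset.range n, (c i : 𝕜) • x i)) := by
        rw [map_sub, map_sub, h2, sub_zero]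
      rw [h3]
      have h4 : |RCLike.re (d (v - ∑ i ∈ Finset.range n, (c i : 𝕜) • x i))| ≤
          ‖d (v - ∑ i ∈ Finset.range n, (c i : 𝕜) • x i)‖ := RCLike.abs_re_le_norm _
      have h5 := d.le_opNorm (v - ∑ i ∈ Finset.range n, (c i : 𝕜) • x i)
      have h6 : ‖d‖ * ‖v - ∑ i ∈ Finset.range n, (c i : 𝕜) • x i‖ ≤
          (‖d‖ + 1) * (η / (‖d‖ + 1)) :=
        mul_le_mul (by linarith) hc.le (norm_nonneg _) (by positivity)
      have h7 : (‖d‖ + 1) * (η / (‖d‖ + 1)) = η := by
        field_simp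
      linarith
    exact abs_eq_zero.1 (le_antisymm h1 (abs_nonneg _))
  ext v
  have h1 := hre ((starRingEnd 𝕜 (d v)) • v)
  rw [map_smul, smul_eq_mul, RCLike.conj_mul] at h1
  have h2 : RCLike.re (((‖d v‖ : ℝ) : 𝕜) ^ 2) = ‖d v‖ ^ 2 := by
    rw [← RCLike.ofReal_pow, RCLike.ofReal_re]
  rw [h2] at h1
  have h3 := pow_eq_zero_iff two_ne_zero |>.1 h1
  rw [norm_eq_zero.1 h3]
  simp

end Emb961

open Emb961 in
theorem emb {𝕜 : Type*} [RCLike 𝕜] {X : Type*} [NormedAddCommGroup X] [NormedSpace 𝕜 X] :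
    StEmb 𝕜 X := by
  intro q x ε hL
  have hp := hL.pos
  have h1 := hL.le_one
  have hx := hL.norm_le
  refine ⟨fun w => 1 / 2 + ∑' k, lam ε k * RCLike.re (w (x k)), ?_, ?_, ?_⟩
  · intro w w' hw hw' hn hn' hj
    by_contra hne
    have hj' : ∑' k, lam ε k * RCLike.re (w (x k)) = ∑' k, lam ε k * RCLike.re (w' (x k)) := by
      have hj2 : 1 / 2 + ∑' k, lam ε k * RCLike.re (w (x k)) =
        1 / 2 + ∑' k, lam ε k * RCLike.re (w' (x k)) := hj
      linarith
    have hs : Summable (fun k => lam ε k * RCLike.re (w (x k))) :=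
      Summable.of_norm_bounded summable_bd (term_bound hp h1 hx hn)
    have hs' : Summable (fun k => lam ε k * RCLike.re (w' (x k))) :=
      Summable.of_norm_bounded summable_bd (term_bound hp h1 hx hn')
    obtain ⟨D, hD⟩ : ∃ D : ℕ → ℝ, D = fun k => RCLike.re (w (x k)) - RCLike.re (w' (x k)) :=
      ⟨_, rfl⟩
    have hDe : ∀ k, lam ε k * D k =
        lam ε k * RCLike.re (w (x k)) - lam ε k * RCLike.re (w' (x k)) := by
      intro k
      rw [hD]
      ring
    have hsD : Summable (fun k => lam ε k * D k) := by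
      have : (fun k => lam ε k * D k) = fun k => lam ε k * RCLike.re (w (x k)) -
          lam ε k * RCLike.re (w' (x k)) := funext hDe
      rw [this]
      exact hs.sub hs'
    have hsum0 : ∑' k, lam ε k * D k = 0 := by
      have : (fun k => lam ε k * D k) = fun k => lam ε k * RCLike.re (w (x k)) -
          lam ε k * RCLike.re (w' (x k)) := funext hDe
      rw [this, hs.tsum_sub hs', hj', sub_self]
    have hex : ∃ k, D k ≠ 0 := by
      by_contra hcon
      push Not at hcon
      apply hne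
      have h2 : w - w' = 0 := by
        apply zero_of_re hL
        intro i
        have h3 := hcon i
        rw [hD] at h3
        simpa using h3
      exact sub_eq_zero.1 h2
    classical
    obtain ⟨i, hi, hmin⟩ : ∃ i, D i ≠ 0 ∧ ∀ k < i, D k = 0 :=
      ⟨Nat.find hex, Nat.find_spec hex, fun k hk => not_not.1 (Nat.find_min hex hk)⟩
    have hDi : ε i ≤ |D i| := by
      obtain ⟨m, hm⟩ := hw i
      obtain ⟨m', hm'⟩ := hw' i
      have h2 : D i = ((m - m' : ℤ) : ℝ) * ε i := by
        rw [hD]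
        show RCLike.re (w (x i)) - RCLike.re (w' (x i)) = _
        rw [hm, hm']
        push_cast
        ring
      have h3 : m - m' ≠ 0 := by
        intro h4
        rw [h4] at h2
        apply hi
        rw [h2]
        simp
      have h4 : (1 : ℝ) ≤ |((m - m' : ℤ) : ℝ)| := by
        have := Int.one_le_abs h3
        exact_mod_cast this
      rw [h2, abs_mul, abs_of_pos (hp i)]
      have h5 := mul_le_mul_of_nonneg_right h4 (hp i).le
      linarith
    have hDb : ∀ k, |D k| ≤ 4 := by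
      intro k
      have h2 := re_bound hx hn k
      have h3 := re_bound hx hn' k
      rw [hD]
      show |RCLike.re (w (x k)) - RCLike.re (w' (x k))| ≤ 4
      have h4 := abs_sub (RCLike.re (w (x k))) (RCLike.re (w' (x k)))
      linarith
    have hsplit := hsD.sum_add_tsum_nat_add (i + 1)
    rw [hsum0, Finset.sum_range_succ, Finset.sum_eq_zero (fun k hk => by
      rw [hmin k (Finset.mem_range.1 hk), mul_zero]), zero_add] at hsplit
    have htail : ‖∑' k, lam ε (k + (i + 1)) * D (k + (i + 1))‖ ≤ lam ε i * ε i * (4 / 15) := by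
      have hg : HasSum (fun k : ℕ => (lam ε i * ε i / 4) * (1 / 16 : ℝ) ^ k)
          ((lam ε i * ε i / 4) * (1 - 1 / 16)⁻¹) :=
        (hasSum_geometric_of_lt_one (by norm_num) (by norm_num)).mul_left _
      have hb : ∀ k, ‖lam ε (k + (i + 1)) * D (k + (i + 1))‖ ≤
          (lam ε i * ε i / 4) * (1 / 16 : ℝ) ^ k := by
        intro k
        rw [norm_mul, Real.norm_eq_abs, Real.norm_eq_abs, abs_of_pos (lam_pos hp _)]
        have h2 := lam_tail hp h1 (i + 1) k
        have h3 := hDb (k + (i + 1))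
        have h4 : lam ε (i + 1) = lam ε i * ε i / 16 := rfl
        rw [h4] at h2
        have h5 : lam ε (k + (i + 1)) * |D (k + (i + 1))| ≤
            (lam ε i * ε i / 16 * (1 / 16) ^ k) * 4 := by
          refine mul_le_mul h2 h3 (abs_nonneg _) ?_
          have := lam_pos hp i
          have := hp i
          positivity
        linarith
      refine le_trans (tsum_of_norm_bounded hg hb) ?_
      apply le_of_eq
      ring
    have h2 := lam_pos hp i
    have h3 := hp i
    have h4 : lam ε i * ε i ≤ |lam ε i * D i| := by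
      rw [abs_mul, abs_of_pos h2]
      exact mul_le_mul_of_nonneg_left hDi h2.le
    have h5 : |lam ε i * D i| = ‖∑' k, lam ε (k + (i + 1)) * D (k + (i + 1))‖ := by
      have h6 : lam ε i * D i = -∑' k, lam ε (k + (i + 1)) * D (k + (i + 1)) := by linarith
      rw [h6, abs_neg, Real.norm_eq_abs]
    have h6 : 0 < lam ε i * ε i := mul_pos h2 h3
    linarith
  · intro w hw
    have h2 : ‖∑' k, lam ε k * RCLike.re (w (x k))‖ ≤ 2 / 15 := by
      have h3 : HasSum bd (2 / 15) := by
        rw [← tsum_bd]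
        exact summable_bd.hasSum
      exact tsum_of_norm_bounded h3 (term_bound hp h1 hx hw)
    rw [Real.norm_eq_abs, abs_le] at h2
    show 0 < 1 / 2 + ∑' k, lam ε k * RCLike.re (w (x k)) ∧
      1 / 2 + ∑' k, lam ε k * RCLike.re (w (x k)) < 1
    constructor <;> linarith [h2.1, h2.2]
  · intro w w' hw hw' hT
    refine Tendsto.const_add _ ?_
    refine tendsto_tsum_of_dominated_convergence summable_bd ?_ ?_
    · intro k
      exact ((RCLike.continuous_re.tendsto _).comp (hT (x k))).const_mul _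
    · exact Eventually.of_forall fun n k => term_bound hp h1 hx (hw n) k

end Pool.Agent.R286.IA
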