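import Pool.Agent.R286.IA.Stm

/-! MP_4265c1_an, piece ENUM (helper92): enumeration of the good cylinder sets. -/

set_option autoImplicit false

open Filter Topology MeasureTheory

namespace Pool.Agent.R286.IA

namespace EnumAux

variable {𝕜 : Type*} [RCLike 𝕜] {X : Type*} [NormedAddCommGroup X] [NormedSpace 𝕜 X]

/-- pattern of level `N` -/
noncomputable def pat (x : ℕ → X) (N : ℕ) (w : X →L[𝕜] 𝕜) : Fin N → ℝ :=
  fun i => RCLike.re (w (x i))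

lemma agr_of_pat {x : ℕ → X} {N : ℕ} {w w' : X →L[𝕜] 𝕜} (h : pat x N w = pat x N w') :
    Agr x N w w' := by
  intro i hi
  exact congrFun h ⟨i, hi⟩

lemma fin_vals (e : ℝ) (he : 0 < e) : {r : ℝ | (∃ m : ℤ, r = m * e) ∧ |r| ≤ 1 / 4}.Finite := by
  have h : {r : ℝ | (∃ m : ℤ, r = m * e) ∧ |r| ≤ 1 / 4} ⊆
      (fun m : ℤ => (m : ℝ) * e) '' Set.Icc (-⌈1 / (4 * e)⌉) ⌈1 / (4 * e)⌉ := by
    rintro r ⟨⟨m, rfl⟩, hr⟩
    refine ⟨m, ?_, rfl⟩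
    rw [abs_mul, abs_of_pos he] at hr
    have h1 : |(m : ℝ)| ≤ 1 / (4 * e) := by
      rw [le_div_iff₀ (by positivity)]
      linarith
    have h2 : |(m : ℝ)| ≤ ⌈1 / (4 * e)⌉ := h1.trans (Int.le_ceil _)
    have h3 : |m| ≤ ⌈1 / (4 * e)⌉ := by exact_mod_cast h2
    exact abs_le.mp h3
  exact ((Set.finite_Icc _ _).image _).subset h

lemma pat_finite {x : ℕ → X} {ε : ℕ → ℝ} (hx : ∀ i, ‖x i‖ ≤ 1) (hε : ∀ i, 0 < ε i) (N : ℕ) :
    (pat x N '' (Om 𝕜 x ε)).Finite := by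
  have h : pat x N '' (Om 𝕜 x ε) ⊆
      Set.pi Set.univ (fun i : Fin N => {r : ℝ | (∃ m : ℤ, r = m * ε i) ∧ |r| ≤ 1 / 4}) := by
    rintro p ⟨w, hw, rfl⟩ i _
    refine ⟨hw.1 i, ?_⟩
    calc |RCLike.re (w (x i))| ≤ ‖w (x i)‖ := RCLike.abs_re_le_norm _
      _ ≤ ‖w‖ * ‖x i‖ := w.le_opNorm _
      _ ≤ 1 / 4 * 1 := mul_le_mul hw.2 (hx i) (norm_nonneg _) (by norm_num)
      _ = 1 / 4 := by norm_num
  exact (Set.Finite.pi' fun i : Fin N => fin_vals (ε i) (hε i)).subset (fun p hp i => h hp i trivial)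

lemma cyl_finite {x : ℕ → X} {ε : ℕ → ℝ} (hx : ∀ i, ‖x i‖ ≤ 1) (hε : ∀ i, 0 < ε i) (N : ℕ) :
    {H : Set (X →L[𝕜] 𝕜) | IsCyl x ε N H}.Finite := by
  apply Set.Finite.of_finite_image (f := fun H => pat x N '' H)
  · refine ((pat_finite (𝕜 := 𝕜) hx hε N).finite_subsets).subset ?_
    rintro P ⟨H, hH, rfl⟩
    exact Set.image_mono hH.1
  · intro H hH H' hH' heq
    have aux : ∀ H H' : Set (X →L[𝕜] 𝕜), IsCyl x ε N H → IsCyl x ε N H' →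
        pat x N '' H = pat x N '' H' → H ⊆ H' := by
      intro H H' hH hH' heq w hw
      have h1 : pat x N w ∈ pat x N '' H' := by rw [← heq]; exact ⟨w, hw, rfl⟩
      obtain ⟨w', hw', he⟩ := h1
      exact hH'.2 w' (hH'.1 hw') w (hH.1 hw) (agr_of_pat he) hw'
    exact Set.Subset.antisymm (aux H H' hH hH' heq) (aux H' H hH' hH heq.symm)

end EnumAux

open EnumAux

theorem enum {𝕜 : Type*} [RCLike 𝕜] {X : Type*} [NormedAddCommGroup X] [NormedSpace 𝕜 X] :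
    StEnum 𝕜 X := by
  intro δ hδ hδ1 x ε hL
  have hgood : Good δ (Om 𝕜 x ε) := by
    intro d hd
    have hq0 : 0 ≤ 1 - 4 * (δ / 16) := by linarith
    obtain ⟨w, hw, hwd⟩ := hL.quant0 (((1 - 4 * (δ / 16) : ℝ) : 𝕜) • d)
    have hn : ‖((1 - 4 * (δ / 16) : ℝ) : 𝕜) • d‖ = (1 - 4 * (δ / 16)) * ‖d‖ := by
      rw [norm_smul, RCLike.norm_ofReal, abs_of_nonneg hq0]
    have hd0 := norm_nonneg d
    refine ⟨w, ⟨hw, ?_⟩, ?_⟩
    · have h1 : ‖w‖ ≤ ‖w - ((1 - 4 * (δ / 16) : ℝ) : 𝕜) • d‖ + ‖((1 - 4 * (δ / 16) : ℝ) : 𝕜) • d‖ := by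
        have := norm_add_le (w - ((1 - 4 * (δ / 16) : ℝ) : 𝕜) • d) (((1 - 4 * (δ / 16) : ℝ) : 𝕜) • d)
        rwa [sub_add_cancel] at this
      rw [hn] at h1
      nlinarith
    · have e : ((1 - 4 * (δ / 16) : ℝ) : 𝕜) • d - d = -(((4 * (δ / 16) : ℝ) : 𝕜) • d) := by
        apply ContinuousLinearMap.ext
        intro v
        simp only [sub_apply, ContinuousLinearMap.smul_apply, ContinuousLinearMap.neg_apply,
          smul_eq_mul]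
        push_cast
        ring
      have h2 : ‖((1 - 4 * (δ / 16) : ℝ) : 𝕜) • d - d‖ = 4 * (δ / 16) * ‖d‖ := by
        rw [e, norm_neg, norm_smul, RCLike.norm_ofReal, abs_of_nonneg (by positivity)]
      have h1 : ‖w - d‖ ≤ ‖w - ((1 - 4 * (δ / 16) : ℝ) : 𝕜) • d‖ +
          ‖((1 - 4 * (δ / 16) : ℝ) : 𝕜) • d - d‖ := norm_sub_le_norm_sub_add_norm_sub _ _ _
      rw [h2] at h1
      nlinarith
  have hcyl : IsCyl x ε 0 (Om 𝕜 x ε) := ⟨fun _ h => h, fun _ _ w' hw' _ _ => hw'⟩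
  have hcount : {H : Set (X →L[𝕜] 𝕜) | (∃ N, IsCyl x ε N H) ∧ Good δ H}.Countable := by
    have h1 : (⋃ N : ℕ, {H : Set (X →L[𝕜] 𝕜) | IsCyl x ε N H}).Countable :=
      Set.countable_iUnion fun N => (cyl_finite hL.norm_le hL.pos N).countable
    refine h1.mono ?_
    rintro H ⟨⟨N, hN⟩, _⟩
    exact Set.mem_iUnion.mpr ⟨N, hN⟩
  obtain ⟨e, he⟩ := hcount.exists_eq_range ⟨Om 𝕜 x ε, ⟨0, hcyl⟩, hgood⟩
  refine ⟨fun n => e (Nat.unpair n).1, ?_, ?_⟩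
  · intro n
    have : e (Nat.unpair n).1 ∈ {H : Set (X →L[𝕜] 𝕜) | (∃ N, IsCyl x ε N H) ∧ Good δ H} := by
      rw [he]; exact ⟨_, rfl⟩
    exact this
  · intro N H hH hg m
    have : H ∈ {H : Set (X →L[𝕜] 𝕜) | (∃ N, IsCyl x ε N H) ∧ Good δ H} := ⟨⟨N, hH⟩, hg⟩
    rw [he] at this
    obtain ⟨k, hk⟩ := this
    refine ⟨Nat.pair k m, Nat.right_le_pair k m, ?_⟩
    simp only [Nat.unpair_pair]
    exact hk

end Pool.Agent.R286.IA
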