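import Pool.Agent.R286.IA.Stm

/-! # EXT: linear interpolation over the gaps of a compact subset of the line -/

set_option autoImplicit false

open Filter Topology MeasureTheory

namespace Pool.Agent.R286.IA

namespace ExtAux

/-- the last point of `L` before `x` -/
noncomputable def A (L : Set ℝ) (x : ℝ) : ℝ := sSup (L ∩ Set.Iic x)

/-- the first point of `L` after `x` -/
noncomputable def B (L : Set ℝ) (x : ℝ) : ℝ := sInf (L ∩ Set.Ici x)

/-- the position between them -/
noncomputable def S (L : Set ℝ) (x : ℝ) : ℝ := (x - A L x) / (B L x - A L x)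

variable {L : Set ℝ} (hL : IsCompact L)

include hL

theorem A_spec {x l₀ : ℝ} (hl₀ : l₀ ∈ L) (h : l₀ ≤ x) :
    A L x ∈ L ∧ A L x ≤ x ∧ ∀ l ∈ L, l ≤ x → l ≤ A L x := by
  have h1 := (hL.inter_right isClosed_Iic).isGreatest_sSup (s := L ∩ Set.Iic x) ⟨l₀, hl₀, h⟩
  exact ⟨h1.1.1, h1.1.2, fun l hl hlx => h1.2 ⟨hl, hlx⟩⟩

theorem B_spec {x l₀ : ℝ} (hl₀ : l₀ ∈ L) (h : x ≤ l₀) :
    B L x ∈ L ∧ x ≤ B L x ∧ ∀ l ∈ L, x ≤ l → B L x ≤ l := by
  have h1 := (hL.inter_right isClosed_Ici).isLeast_sInf (s := L ∩ Set.Ici x) ⟨l₀, hl₀, h⟩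
  exact ⟨h1.1.1, h1.1.2, fun l hl hlx => h1.2 ⟨hl, hlx⟩⟩

theorem A_self {x : ℝ} (hx : x ∈ L) : A L x = x := by
  obtain ⟨h1, h2, h3⟩ := A_spec hL hx le_rfl
  exact le_antisymm h2 (h3 x hx le_rfl)

theorem B_self {x : ℝ} (hx : x ∈ L) : B L x = x := by
  obtain ⟨h1, h2, h3⟩ := B_spec hL hx le_rfl
  exact le_antisymm (h3 x hx le_rfl) h2

omit hL in
theorem S_bounds {x : ℝ} (h1 : A L x ≤ x) (h2 : x ≤ B L x) : 0 ≤ S L x ∧ S L x ≤ 1 := by
  unfold S
  refine ⟨div_nonneg (by linarith) (by linarith), div_le_one_of_le₀ (by linarith) (by linarith)⟩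

variable {𝕜 : Type*} [RCLike 𝕜]

omit hL in
/-- the interpolated function -/
noncomputable def H (L : Set ℝ) (g : ℝ → 𝕜) (x : ℝ) : 𝕜 :=
  ((1 - S L x : ℝ) : 𝕜) * g (A L x) + ((S L x : ℝ) : 𝕜) * g (B L x)

theorem cont_off {m M x₀ : ℝ} (hm : m ∈ L) (hM : M ∈ L) (h1 : m ≤ x₀) (h2 : x₀ ≤ M)
    (hx₀ : x₀ ∉ L) (g : ℝ → 𝕜) : ContinuousAt (H L g) x₀ := by
  obtain ⟨a1, a2, a3⟩ := A_spec hL hm h1
  obtain ⟨b1, b2, b3⟩ := B_spec hL hM h2
  have ha : A L x₀ < x₀ := lt_of_le_of_ne a2 fun h => hx₀ (h ▸ a1)
  have hb : x₀ < B L x₀ := lt_of_le_of_ne b2 fun h => hx₀ (h ▸ b1)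
  have hc : ContinuousAt (fun x : ℝ =>
      ((1 - (x - A L x₀) / (B L x₀ - A L x₀) : ℝ) : 𝕜) * g (A L x₀) +
        (((x - A L x₀) / (B L x₀ - A L x₀) : ℝ) : 𝕜) * g (B L x₀)) x₀ := by
    apply Continuous.continuousAt
    fun_prop
  refine hc.congr ?_
  filter_upwards [Ioo_mem_nhds ha hb] with x hx
  obtain ⟨c1, c2, c3⟩ := A_spec hL a1 hx.1.le
  obtain ⟨d1, d2, d3⟩ := B_spec hL b1 hx.2.le
  have eA : A L x = A L x₀ := by
    refine le_antisymm ?_ (c3 _ a1 hx.1.le)
    by_contra hcon
    push Not at hcon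
    have h3 : x₀ < A L x := by
      by_contra h4
      push Not at h4
      exact absurd (a3 _ c1 h4) (not_le.mpr hcon)
    have := b3 _ c1 h3.le
    linarith [hx.2]
  have eB : B L x = B L x₀ := by
    refine le_antisymm (d3 _ b1 hx.2.le) ?_
    by_contra hcon
    push Not at hcon
    have h3 : B L x < x₀ := by
      by_contra h4
      push Not at h4
      exact absurd (b3 _ d1 h4) (not_le.mpr hcon)
    have := a3 _ d1 h3.le
    linarith [hx.1]
  unfold H S
  rw [eA, eB]

theorem cont_on {m M x₀ : ℝ} (hm : m ∈ L) (hM : M ∈ L)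
    (hx₀ : x₀ ∈ L) (g : ℝ → 𝕜) (hg : ContinuousOn g L) :
    ContinuousWithinAt (H L g) (Set.Icc m M) x₀ := by
  obtain ⟨Bd, hBd⟩ := hL.exists_bound_of_continuousOn hg
  have hBd0 : 0 ≤ Bd := (norm_nonneg _).trans (hBd x₀ hx₀)
  have hH0 : H L g x₀ = g x₀ := by
    unfold H
    rw [A_self hL hx₀, B_self hL hx₀]
    push_cast
    ring
  rw [Metric.continuousWithinAt_iff]
  intro ε hε
  obtain ⟨d, hd, hdg⟩ := (Metric.continuousWithinAt_iff.mp (hg x₀ hx₀)) (ε / 4) (by linarith)
  set e : ℝ := min (d / 2) (ε * d / (16 * (Bd + 1))) with he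
  have he0 : 0 < e := by
    rw [he]
    refine lt_min (by linarith) (by positivity)
  have he1 : e ≤ d / 2 := min_le_left _ _
  have he2 : e * (16 * (Bd + 1)) ≤ ε * d := by
    have := min_le_right (d / 2) (ε * d / (16 * (Bd + 1)))
    rw [← he, le_div_iff₀ (by positivity)] at this
    exact this
  have hg4 : ∀ l ∈ L, |l - x₀| < d → ‖g l - g x₀‖ < ε / 4 := by
    intro l hl hd'
    have := hdg hl (by rw [Real.dist_eq]; exact hd')
    rwa [dist_eq_norm] at this
  have hg2 : ∀ l ∈ L, ‖g l - g x₀‖ ≤ 2 * Bd := fun l hl =>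
    (norm_sub_le _ _).trans (by linarith [hBd l hl, hBd x₀ hx₀])
  refine ⟨e, he0, ?_⟩
  intro x hx hxe
  rw [Real.dist_eq, abs_lt] at hxe
  rw [dist_eq_norm, hH0]
  obtain ⟨a1, a2, a3⟩ := A_spec hL hm hx.1
  obtain ⟨b1, b2, b3⟩ := B_spec hL hM hx.2
  obtain ⟨s0, s1⟩ := S_bounds a2 b2
  -- the side of `B`
  have hBside : S L x * ‖g (B L x) - g x₀‖ ≤ ε / 4 := by
    by_cases hc : B L x < x₀ + d
    · have h1 : ‖g (B L x) - g x₀‖ < ε / 4 := by
        apply hg4 _ b1
        rw [abs_lt]
        constructor <;> linarith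
      nlinarith [norm_nonneg (g (B L x) - g x₀)]
    · push Not at hc
      have hxx : x₀ ≤ x := by
        by_contra h
        push Not at h
        have := b3 _ hx₀ h.le
        linarith
      have hA := a3 _ hx₀ hxx
      have hden : 0 < B L x - A L x := by linarith
      have hS : S L x * (B L x - A L x) = x - A L x := by
        unfold S
        exact div_mul_cancel₀ _ hden.ne'
      have h2 : S L x * (d / 2) ≤ e := by nlinarith
      have h3 := hg2 _ b1
      have h4 : S L x * ‖g (B L x) - g x₀‖ ≤ S L x * (2 * Bd) :=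
        mul_le_mul_of_nonneg_left h3 s0
      have h5 : S L x * (2 * Bd) * d ≤ ε / 4 * d := by
        have h6 : S L x * d ≤ 2 * e := by linarith
        have h7 : S L x * d * (2 * Bd) ≤ 2 * e * (2 * Bd) :=
          mul_le_mul_of_nonneg_right h6 (by linarith)
        nlinarith
      exact h4.trans (le_of_mul_le_mul_right h5 hd)
  have hAside : (1 - S L x) * ‖g (A L x) - g x₀‖ ≤ ε / 4 := by
    by_cases hc : x₀ - d < A L x
    · have h1 : ‖g (A L x) - g x₀‖ < ε / 4 := by
        apply hg4 _ a1
        rw [abs_lt]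
        constructor <;> linarith
      nlinarith [norm_nonneg (g (A L x) - g x₀)]
    · push Not at hc
      have hxx : x ≤ x₀ := by
        by_contra h
        push Not at h
        have := a3 _ hx₀ h.le
        linarith
      have hB := b3 _ hx₀ hxx
      have hden : 0 < B L x - A L x := by linarith
      have hS : S L x * (B L x - A L x) = x - A L x := by
        unfold S
        exact div_mul_cancel₀ _ hden.ne'
      have h2 : (1 - S L x) * (d / 2) ≤ e := by nlinarith
      have h3 := hg2 _ a1
      have h4 : (1 - S L x) * ‖g (A L x) - g x₀‖ ≤ (1 - S L x) * (2 * Bd) :=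
        mul_le_mul_of_nonneg_left h3 (by linarith)
      have h5 : (1 - S L x) * (2 * Bd) * d ≤ ε / 4 * d := by
        have h6 : (1 - S L x) * d ≤ 2 * e := by linarith
        have h7 : (1 - S L x) * d * (2 * Bd) ≤ 2 * e * (2 * Bd) :=
          mul_le_mul_of_nonneg_right h6 (by linarith)
        nlinarith
      exact h4.trans (le_of_mul_le_mul_right h5 hd)
  have e1 : H L g x - g x₀ = ((1 - S L x : ℝ) : 𝕜) * (g (A L x) - g x₀) +
      ((S L x : ℝ) : 𝕜) * (g (B L x) - g x₀) := by
    unfold H
    push_cast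
    ring
  rw [e1]
  refine lt_of_le_of_lt (norm_add_le _ _) ?_
  rw [norm_mul, norm_mul, RCLike.norm_ofReal, RCLike.norm_ofReal, abs_of_nonneg s0,
    abs_of_nonneg (by linarith : 0 ≤ 1 - S L x)]
  linarith

theorem cont {m M : ℝ} (hm : m ∈ L) (hM : M ∈ L) (g : ℝ → 𝕜) (hg : ContinuousOn g L) :
    ContinuousOn (H L g) (Set.Icc m M) := by
  intro x hx
  by_cases h : x ∈ L
  · exact cont_on hL hm hM h g hg
  · exact (cont_off hL hm hM hx.1 hx.2 h g).continuousWithinAt

end ExtAux

open ExtAux in
theorem ext {𝕜 : Type*} [RCLike 𝕜] : StExt 𝕜 := by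
  intro L hL hne
  obtain ⟨m, hm, hm'⟩ := hL.exists_isLeast hne
  obtain ⟨M, hM, hM'⟩ := hL.exists_isGreatest hne
  have hmM : m ≤ M := hm' hM
  set c : ℝ → ℝ := fun t => max m (min t M) with hc
  have hcc : Continuous c := continuous_const.max (continuous_id.min continuous_const)
  have hcm : ∀ t, m ≤ c t := fun t => le_max_left _ _
  have hcM : ∀ t, c t ≤ M := fun t => max_le hmM (min_le_right _ _)
  have hA := fun t => A_spec hL hm (hcm t)
  have hB := fun t => B_spec hL hM (hcM t)
  have hcL : ∀ t ∈ L, c t = t := by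
    intro t ht
    simp only [hc]
    rw [min_eq_left (hM' ht), max_eq_right (hm' ht)]
  refine ⟨fun t => A L (c t), fun t => B L (c t), fun t => S L (c t), ?_, ?_, ?_, ?_⟩
  · intro t
    exact ⟨(hA t).1, (hB t).1, S_bounds (hA t).2.1 (hB t).2.1⟩
  · intro t ht
    simp only [hcL t ht]
    exact ⟨A_self hL ht, B_self hL ht⟩
  · intro g hg
    exact (cont hL hm hM g hg).comp_continuous hcc fun t => ⟨hcm t, hcM t⟩
  · intro t k t' k' hk ht hkt hne'
    have hkL : ∀ n, k n ∈ L := by
      intro n
      rcases hk n with h | h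
      · rw [h]; exact (hA (t n)).1
      · rw [h]; exact (hB (t n)).1
    have hct : Tendsto (fun n => c (t n)) atTop (𝓝 (c t')) := (hcc.tendsto t').comp ht
    rcases lt_trichotomy k' (c t') with h | h | h
    · -- eventually `k n < mid < c (t n)`
      have e1 := hkt.eventually (gt_mem_nhds (show k' < (k' + c t') / 2 by linarith))
      have e2 := hct.eventually (lt_mem_nhds (show (k' + c t') / 2 < c t' by linarith))
      obtain ⟨N, hN⟩ := eventually_atTop.mp (e1.and e2)
      have key : ∀ n ≥ N, ∀ n' ≥ N, k n' ≤ k n := by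
        intro n hn n' hn'
        have h1 := hN n hn
        have h2 := hN n' hn'
        have e : k n = A L (c (t n)) := by
          rcases hk n with h3 | h3
          · exact h3
          · exfalso
            have h4 := (hB (t n)).2.1
            have h3' : k n = B L (c (t n)) := h3
            linarith [h1.1, h1.2]
        rw [e]
        exact (hA (t n)).2.2 _ (hkL n') (by linarith [h2.1, h1.2])
      exact ⟨N, fun n hn => le_antisymm (key N le_rfl n hn) (key n hn N le_rfl)⟩
    · -- `t'` is outside of the convex hull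
      have hct' : c t' ≠ t' := fun h2 => hne' (by rw [h, h2])
      have hout : t' < m ∨ M < t' := by
        by_contra hcon
        push Not at hcon
        apply hct'
        simp only [hc]
        rw [min_eq_left hcon.2, max_eq_right hcon.1]
      rcases hout with ho | ho
      · obtain ⟨N, hN⟩ := eventually_atTop.mp (ht.eventually (gt_mem_nhds ho))
        have key : ∀ n ≥ N, k n = m := by
          intro n hn
          have h1 : c (t n) = m := by
            simp only [hc]
            rw [min_eq_left (by linarith [hN n hn]), max_eq_left (by linarith [hN n hn])]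
          rcases hk n with h2 | h2
          · rw [h2]
            change A L (c (t n)) = m
            rw [h1, A_self hL hm]
          · rw [h2]
            change B L (c (t n)) = m
            rw [h1, B_self hL hm]
        exact ⟨N, fun n hn => by rw [key n hn, key N le_rfl]⟩
      · obtain ⟨N, hN⟩ := eventually_atTop.mp (ht.eventually (lt_mem_nhds ho))
        have key : ∀ n ≥ N, k n = M := by
          intro n hn
          have h1 : c (t n) = M := by
            simp only [hc]
            rw [min_eq_right (by linarith [hN n hn]), max_eq_right hmM]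
          rcases hk n with h2 | h2
          · rw [h2]
            change A L (c (t n)) = M
            rw [h1, A_self hL hM]
          · rw [h2]
            change B L (c (t n)) = M
            rw [h1, B_self hL hM]
        exact ⟨N, fun n hn => by rw [key n hn, key N le_rfl]⟩
    · have e1 := hkt.eventually (lt_mem_nhds (show (k' + c t') / 2 < k' by linarith))
      have e2 := hct.eventually (gt_mem_nhds (show c t' < (k' + c t') / 2 by linarith))
      obtain ⟨N, hN⟩ := eventually_atTop.mp (e1.and e2)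
      have key : ∀ n ≥ N, ∀ n' ≥ N, k n ≤ k n' := by
        intro n hn n' hn'
        have h1 := hN n hn
        have h2 := hN n' hn'
        have e : k n = B L (c (t n)) := by
          rcases hk n with h3 | h3
          · exfalso
            have h4 := (hA (t n)).2.1
            have h3' : k n = A L (c (t n)) := h3
            linarith [h1.1, h1.2]
          · exact h3
        rw [e]
        exact (hB (t n)).2.2 _ (hkL n') (by linarith [h2.1, h1.2])
      exact ⟨N, fun n hn => le_antisymm (key n hn N le_rfl) (key N le_rfl n hn)⟩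

end Pool.Agent.R286.IA
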