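import Pool.Agent.R286.IA.Stm

/-! # FN: existence of the separated lattice functionals -/

set_option autoImplicit false

open Filter Topology MeasureTheory

namespace Pool.Agent.R286.IA

namespace FnAux

variable {𝕜 : Type*} [RCLike 𝕜] {X : Type*} [NormedAddCommGroup X] [NormedSpace 𝕜 X]

/-- a norm one functional vanishing on a finite set -/
theorem exists_van (hfd : ¬ FiniteDimensional 𝕜 X) (s : Set X) (hs : s.Finite) :
    ∃ g : X →L[𝕜] 𝕜, ‖g‖ = 1 ∧ ∀ v ∈ s, g v = 0 := by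
  set S : Submodule 𝕜 X := Submodule.span 𝕜 s with hS
  have : FiniteDimensional 𝕜 S := FiniteDimensional.span_of_finite 𝕜 hs
  have hcl : IsClosed (S : Set X) := Submodule.closed_of_finiteDimensional S
  have hne : S ≠ ⊤ := by
    intro h
    apply hfd
    rw [h] at this
    exact Module.Finite.equiv (Submodule.topEquiv (R := 𝕜) (M := X))
  obtain ⟨v, -, hv⟩ := SetLike.exists_of_lt (lt_top_iff_ne_top.2 hne)
  have hv0 : (Submodule.Quotient.mk v : X ⧸ S) ≠ 0 := by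
    intro h
    exact hv ((Submodule.Quotient.mk_eq_zero S).1 h)
  obtain ⟨φ, hφ, hφv⟩ := exists_dual_vector 𝕜 (Submodule.Quotient.mk v : X ⧸ S)
    (norm_ne_zero_iff.2 hv0)
  set g' : X →L[𝕜] 𝕜 := φ.comp S.mkQL with hg'
  have hgv : g' v ≠ 0 := by
    have : g' v = φ (Submodule.Quotient.mk v) := rfl
    rw [this, hφv]
    have := norm_ne_zero_iff.2 hv0
    exact_mod_cast this
  have hg0 : g' ≠ 0 := by
    intro h
    rw [h] at hgv
    exact hgv rfl
  have hn : ‖g'‖ ≠ 0 := norm_ne_zero_iff.2 hg0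
  refine ⟨((‖g'‖⁻¹ : ℝ) : 𝕜) • g', ?_, ?_⟩
  · rw [norm_smul, RCLike.norm_ofReal, abs_of_nonneg (inv_nonneg.2 (norm_nonneg _)),
      inv_mul_cancel₀ hn]
  · intro w hw
    have h1 : g' w = 0 := by
      have h2 : (Submodule.Quotient.mk w : X ⧸ S) = 0 :=
        (Submodule.Quotient.mk_eq_zero S).2 (Submodule.subset_span hw)
      have : g' w = φ (Submodule.Quotient.mk w) := rfl
      rw [this, h2, map_zero]
    rw [smul_apply, h1, smul_zero]

theorem step (hfd : ¬ FiniteDimensional 𝕜 X) (δ : ℝ) (hδ : 0 < δ) (hδ1 : δ ≤ 1 / 64)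
    (x : ℕ → X) (ε : ℕ → ℝ) (hL : LatData 𝕜 (δ / 16) x ε) (n : ℕ) (Z : Finset X) :
    ∃ (f : X →L[𝕜] 𝕜) (z : X), InLat x ε f ∧ ‖z‖ ≤ 1 ∧ 1 - δ ≤ ‖f‖ ∧ ‖f‖ ≤ 1 + δ ∧
      (∀ i < n, RCLike.re (f (x i)) = 0) ∧ (∀ z' ∈ Z, ‖z'‖ ≤ 1 → ‖f z'‖ ≤ δ / 8) ∧
      1 - δ / 8 - 1 / 50 ≤ ‖f z‖ := by
  classical
  obtain ⟨g, hg1, hg⟩ := exists_van hfd ((fun i => x i) '' (Set.Iio n) ∪ (Z : Set X))
    (((Set.finite_Iio n).image _).union Z.finite_toSet)
  have hlat0 : InLat x ε (0 : X →L[𝕜] 𝕜) := fun i => ⟨0, by simp⟩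
  obtain ⟨ρ, hρ, hq⟩ := hL.quant 0 hlat0 n (δ / 16) (by linarith)
  obtain ⟨f, hf1, hf2, hf3⟩ := hq g (fun i hi => by
    have : g (x i) = 0 := hg _ (Or.inl ⟨i, hi, rfl⟩)
    rw [this]
    simpa using hρ)
  have hq1 : δ / 16 / 2 ^ n ≤ δ / 16 := div_le_self (by linarith) (one_le_pow₀ (by norm_num))
  have hfg : ‖f - g‖ ≤ δ / 8 := by linarith
  have hlo : 1 - δ / 8 ≤ ‖f‖ := by
    have h1 := norm_sub_norm_le g f
    rw [norm_sub_rev] at h1
    linarith
  have hhi : ‖f‖ ≤ 1 + δ / 8 := by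
    have h1 := norm_sub_norm_le f g
    linarith
  obtain ⟨z, hz1, hz2⟩ := ContinuousLinearMap.exists_lt_apply_of_lt_opNorm f
    (r := ‖f‖ - 1 / 50) (by linarith)
  refine ⟨f, z, hf1, hz1.le, by linarith, by linarith, ?_, ?_, by linarith⟩
  · intro i hi
    have := hf2 i hi
    simpa using this
  · intro z' hz' hn
    have h1 : g z' = 0 := hg _ (Or.inr hz')
    have h2 : f z' = (f - g) z' := by
      rw [sub_apply, h1, sub_zero]
    rw [h2]
    have h3 := (f - g).le_opNorm z'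
    have h4 : ‖f - g‖ * ‖z'‖ ≤ δ / 8 * 1 := mul_le_mul hfg hn (norm_nonneg _) (by linarith)
    linarith

/-- the set of the vectors used before step `n` -/
noncomputable def AA (zf : ℕ → Finset X → X) : ℕ → Finset X
  | 0 => ∅
  | n + 1 => by
    classical
    exact insert (zf n (AA zf n)) (AA zf n)

theorem mem_AA (zf : ℕ → Finset X → X) (m n : ℕ) (h : m < n) : zf m (AA zf m) ∈ AA zf n := by
  classical
  induction n with
  | zero => omega
  | succ n ih =>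
    rcases Nat.lt_succ_iff_lt_or_eq.1 h with h1 | h1
    · exact Finset.mem_insert_of_mem (ih h1)
    · subst h1
      exact Finset.mem_insert_self _ _

end FnAux

open FnAux

theorem fn {𝕜 : Type*} [RCLike 𝕜] {X : Type*} [NormedAddCommGroup X] [NormedSpace 𝕜 X] :
    StFn 𝕜 X := by
  intro hfd δ hδ hδ1 x ε hL
  choose F zf h1 h2 h3 h4 h5 h6 h7 using step hfd δ hδ hδ1 x ε hL
  have key : ∀ a b : ℕ, a < b → ‖F b (AA zf b) (zf a (AA zf a))‖ ≤ δ / 8 :=
    fun a b hab => h6 b (AA zf b) _ (mem_AA zf a b hab) (h2 a _)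
  refine ⟨fun n => F n (AA zf n), fun n => h1 n _, fun n => h3 n _, fun n => h4 n _,
    fun n i hi => h5 n _ i hi, ?_⟩
  intro n m hnm θ hθ
  rcases lt_or_gt_of_ne hnm with h | h
  · have a1 := key n m h
    have a2 := h7 n (AA zf n)
    have a3 := (F n (AA zf n) - θ • F m (AA zf m)).le_opNorm (zf n (AA zf n))
    rw [sub_apply, smul_apply] at a3
    have a4 := norm_sub_norm_le (F n (AA zf n) (zf n (AA zf n)))
      (θ • F m (AA zf m) (zf n (AA zf n)))
    rw [norm_smul, hθ, one_mul] at a4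
    have a5 : ‖F n (AA zf n) - θ • F m (AA zf m)‖ * ‖zf n (AA zf n)‖ ≤
        ‖F n (AA zf n) - θ • F m (AA zf m)‖ * 1 :=
      mul_le_mul_of_nonneg_left (h2 n _) (norm_nonneg _)
    linarith
  · have a1 := key m n h
    have a2 := h7 m (AA zf m)
    have a3 := (F n (AA zf n) - θ • F m (AA zf m)).le_opNorm (zf m (AA zf m))
    rw [sub_apply, smul_apply, norm_sub_rev] at a3
    have a4 := norm_sub_norm_le (θ • F m (AA zf m) (zf m (AA zf m)))
      (F n (AA zf n) (zf m (AA zf m)))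
    rw [norm_smul, hθ, one_mul] at a4
    have a5 : ‖F n (AA zf n) - θ • F m (AA zf m)‖ * ‖zf m (AA zf m)‖ ≤
        ‖F n (AA zf n) - θ • F m (AA zf m)‖ * 1 :=
      mul_le_mul_of_nonneg_left (h2 m _) (norm_nonneg _)
    linarith

end Pool.Agent.R286.IA
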