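import Mathlib

/-!
# Isometric approximation property of B(X, C[0,1]) for uniformly smooth X (MP_4265c1_an)

Definitions and statements of the pieces. Proofs: see `notes.md` in this folder.

For `X` uniformly smooth: `B(X, C[0,1])` has the isometric approximation property iff `X` is
finite dimensional or not separable. In particular it fails for `X = L^p[0,1]`, `1 < p < ∞`.
-/

set_option autoImplicit false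

open Filter Topology MeasureTheory

namespace Pool.Agent.R286.IA

section defs

variable (𝕜 : Type*) [RCLike 𝕜] (X : Type*) [NormedAddCommGroup X] [NormedSpace 𝕜 X]

/-- `X` is uniformly smooth: `ρ_X(t)/t → 0` -/
def UnifSmooth : Prop := ∀ η : ℝ, 0 < η → ∃ t₀ : ℝ, 0 < t₀ ∧ ∀ t : ℝ, 0 < t → t ≤ t₀ →
  ∀ x y : X, ‖x‖ = 1 → ‖y‖ = 1 → (‖x + (t : 𝕜) • y‖ + ‖x - (t : 𝕜) • y‖) / 2 - 1 ≤ η * t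

variable {𝕜 X}

/-- `ε`-isometric operators `X → C[0,1]` -/
def EpsIsom (ε : ℝ) (T : X →L[𝕜] C(unitInterval, 𝕜)) : Prop :=
  ∀ x, (1 - ε) * ‖x‖ ≤ ‖T x‖ ∧ ‖T x‖ ≤ (1 + ε) * ‖x‖

variable (𝕜 X)

/-- isometric approximation property of `B(X, C[0,1])` -/
def IAP : Prop := ∃ δ : ℝ → ℝ, (∀ ε, 0 < ε → ε < 1 → 0 ≤ δ ε) ∧ Tendsto δ (𝓝[>] 0) (𝓝 0) ∧
  ∀ ε, 0 < ε → ε < 1 → ∀ T : X →L[𝕜] C(unitInterval, 𝕜), EpsIsom ε T →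
    ∃ V : X →L[𝕜] C(unitInterval, 𝕜), EpsIsom 0 V ∧ ‖T - V‖ ≤ δ ε

/-- quantitative uniqueness of almost norming functionals (dual uniform convexity) -/
def UC (η κ : ℝ) : Prop := ∀ (f g : X →L[𝕜] 𝕜) (x : X), ‖f‖ ≤ 1 → ‖g‖ ≤ 1 → ‖x‖ = 1 →
  1 - κ ≤ RCLike.re (f x) → 1 - κ ≤ RCLike.re (g x) → ‖f - g‖ ≤ η

variable {𝕜 X}

/-- lattice functionals -/
def InLat (x : ℕ → X) (ε : ℕ → ℝ) (w : X →L[𝕜] 𝕜) : Prop :=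
  ∀ i, ∃ m : ℤ, RCLike.re (w (x i)) = m * ε i

/-- agreement up to level `N` -/
def Agr (x : ℕ → X) (N : ℕ) (w w' : X →L[𝕜] 𝕜) : Prop :=
  ∀ i < N, RCLike.re (w (x i)) = RCLike.re (w' (x i))

/-- weak-star convergence of a sequence -/
def WTends (w : ℕ → X →L[𝕜] 𝕜) (w' : X →L[𝕜] 𝕜) : Prop :=
  ∀ v, Tendsto (fun n => w n v) atTop (𝓝 (w' v))

variable (𝕜)

/-- lattice data: `x i` in the unit ball of `X` with dense real span, mesh sizes `ε i` such that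
every functional is within `q` of a lattice functional, with localized version `quant` -/
structure LatData (q : ℝ) (x : ℕ → X) (ε : ℕ → ℝ) : Prop where
  norm_le : ∀ i, ‖x i‖ ≤ 1
  pos : ∀ i, 0 < ε i
  le_one : ∀ i, ε i ≤ 1
  dense : ∀ v : X, ∀ η : ℝ, 0 < η → ∃ n : ℕ, ∃ c : ℕ → ℝ,
    ‖v - ∑ i ∈ Finset.range n, (c i : 𝕜) • x i‖ < η
  quant0 : ∀ w : X →L[𝕜] 𝕜, ∃ w' : X →L[𝕜] 𝕜, InLat x ε w' ∧ ‖w' - w‖ ≤ q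
  quant : ∀ c : X →L[𝕜] 𝕜, InLat x ε c → ∀ N : ℕ, ∀ η : ℝ, 0 < η → ∃ ρ : ℝ, 0 < ρ ∧
    ∀ w : X →L[𝕜] 𝕜, (∀ i < N, |RCLike.re (w (x i)) - RCLike.re (c (x i))| < ρ) →
      ∃ w' : X →L[𝕜] 𝕜, InLat x ε w' ∧ Agr x N w' c ∧ ‖w' - w‖ ≤ η + q / 2 ^ N

variable {𝕜}

/-- the directions `f n` -/
structure FnData (δ : ℝ) (x : ℕ → X) (ε : ℕ → ℝ) (f : ℕ → X →L[𝕜] 𝕜) : Prop where
  lat : ∀ n, InLat x ε (f n)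
  lo : ∀ n, 1 - δ ≤ ‖f n‖
  hi : ∀ n, ‖f n‖ ≤ 1 + δ
  van : ∀ n, ∀ i < n, RCLike.re (f n (x i)) = 0
  sep : ∀ n m, n ≠ m → ∀ θ : 𝕜, ‖θ‖ = 1 → 4 / 5 ≤ ‖f n - θ • f m‖

variable (𝕜)

/-- lattice functionals of norm at most `1/4` -/
def Om (x : ℕ → X) (ε : ℕ → ℝ) : Set (X →L[𝕜] 𝕜) := {w | InLat x ε w ∧ ‖w‖ ≤ 1 / 4}

variable {𝕜}

/-- cylinder subsets of `Om` of level `N` -/
def IsCyl (x : ℕ → X) (ε : ℕ → ℝ) (N : ℕ) (H : Set (X →L[𝕜] 𝕜)) : Prop :=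
  H ⊆ Om 𝕜 x ε ∧ ∀ w ∈ Om 𝕜 x ε, ∀ w' ∈ Om 𝕜 x ε, Agr x N w w' → w ∈ H → w' ∈ H

/-- `H` is a `δ`-net of the ball of radius `1/4` -/
def Good (δ : ℝ) (H : Set (X →L[𝕜] 𝕜)) : Prop :=
  ∀ d : X →L[𝕜] 𝕜, ‖d‖ ≤ 1 / 4 → ∃ w ∈ H, ‖w - d‖ ≤ δ

/-- `G` enumerates the good cylinder sets, each infinitely often -/
def EnumData (δ : ℝ) (x : ℕ → X) (ε : ℕ → ℝ) (G : ℕ → Set (X →L[𝕜] 𝕜)) : Prop :=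
  (∀ n, (∃ N, IsCyl x ε N (G n)) ∧ Good δ (G n)) ∧
    ∀ N H, IsCyl x ε N H → Good δ H → ∀ m, ∃ n, m ≤ n ∧ G n = H

/-- the part `K_0` -/
def K0 (δ : ℝ) (x : ℕ → X) (ε : ℕ → ℝ) (f : ℕ → X →L[𝕜] 𝕜) : Set (X →L[𝕜] 𝕜) :=
  {z | InLat x ε z ∧ ‖z‖ ≤ 1 + δ ∧ ∀ N, ∃ z', InLat x ε z' ∧ ‖z'‖ ≤ 1 + δ ∧ Agr x N z z' ∧
    ∀ n, ∀ θ : 𝕜, ‖θ‖ = 1 → 1 / 4 - δ ≤ ‖z' - θ • f n‖}

/-- the part `K_n` -/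
def Kn (δ : ℝ) (f : ℕ → X →L[𝕜] 𝕜) (G : ℕ → Set (X →L[𝕜] 𝕜)) (n : ℕ) : Set (X →L[𝕜] 𝕜) :=
  {k | ∃ w ∈ G n, k = f n + w ∧ ‖k‖ ≤ 1 + δ}

/-- the weak-star compact set `K` of functionals -/
def KK (δ : ℝ) (x : ℕ → X) (ε : ℕ → ℝ) (f : ℕ → X →L[𝕜] 𝕜) (G : ℕ → Set (X →L[𝕜] 𝕜)) :
    Set (X →L[𝕜] 𝕜) := K0 δ x ε f ∪ Om 𝕜 x ε ∪ ⋃ n, Kn δ f G n

/-- sequentially weak-star closed sets -/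
def WClosed (K : Set (X →L[𝕜] 𝕜)) : Prop :=
  ∀ (k : ℕ → X →L[𝕜] 𝕜) (w : X →L[𝕜] 𝕜), (∀ n, k n ∈ K) → WTends k w → w ∈ K

/-- the operator `T` is given on a copy `ι(K)` of `K` in `[0,1]` by evaluation, and interpolated
linearly over the gaps -/
structure Coded (K : Set (X →L[𝕜] 𝕜)) (T : X →L[𝕜] C(unitInterval, 𝕜))
    (ι : (X →L[𝕜] 𝕜) → unitInterval) (k₁ k₂ : unitInterval → X →L[𝕜] 𝕜)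
    (s : unitInterval → ℝ) : Prop where
  mem1 : ∀ t, k₁ t ∈ K
  mem2 : ∀ t, k₂ t ∈ K
  s0 : ∀ t, 0 ≤ s t
  s1 : ∀ t, s t ≤ 1
  eq : ∀ t v, T v t = ((1 - s t : ℝ) : 𝕜) * k₁ t v + ((s t : ℝ) : 𝕜) * k₂ t v
  val : ∀ k ∈ K, ∀ v, T v (ι k) = k v
  cont : ∀ (k : ℕ → X →L[𝕜] 𝕜) (w : X →L[𝕜] 𝕜), (∀ n, k n ∈ K) → w ∈ K → WTends k w →
    Tendsto (fun n => ι (k n)) atTop (𝓝 (ι w))
  shrink : ∀ (t : ℕ → unitInterval) (t' : unitInterval) (k : ℕ → X →L[𝕜] 𝕜) (w : X →L[𝕜] 𝕜),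
    (∀ n, k n = k₁ (t n) ∨ k n = k₂ (t n)) → Tendsto t atTop (𝓝 t') → w ∈ K → WTends k w →
      t' ≠ ι w → ∃ N, ∀ n, N ≤ n → k n = k N

end defs

section statements

variable (𝕜 : Type*) [RCLike 𝕜] (X : Type*) [NormedAddCommGroup X] [NormedSpace 𝕜 X]

/-- UC -/
def StUC : Prop := UnifSmooth 𝕜 X → ∀ η : ℝ, 0 < η → ∃ κ : ℝ, 0 < κ ∧ κ ≤ 1 ∧ UC 𝕜 X η κ

/-- SEP -/
def StSep : Prop := (∀ η : ℝ, 0 < η → ∃ κ : ℝ, 0 < κ ∧ κ ≤ 1 ∧ UC 𝕜 X η κ) →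
  TopologicalSpace.SeparableSpace X → TopologicalSpace.SeparableSpace (X →L[𝕜] 𝕜)

/-- HITS -/
def StHits : Prop := (∀ η : ℝ, 0 < η → ∃ κ : ℝ, 0 < κ ∧ κ ≤ 1 ∧ UC 𝕜 X η κ) →
  ∀ V : X →L[𝕜] C(unitInterval, 𝕜), EpsIsom 0 V → ∀ y : X →L[𝕜] 𝕜, ‖y‖ = 1 →
    ∃ (t : unitInterval) (θ : 𝕜), ‖θ‖ = 1 ∧ ∀ v, V v t = θ * y v

/-- SEQ1: sequential Banach-Alaoglu -/
def StSeq1 : Prop := TopologicalSpace.SeparableSpace X →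
  ∀ (R : ℝ) (w : ℕ → X →L[𝕜] 𝕜), (∀ n, ‖w n‖ ≤ R) →
    ∃ (w' : X →L[𝕜] 𝕜) (φ : ℕ → ℕ), StrictMono φ ∧ WTends (fun n => w (φ n)) w'

/-- SEQ2: the norm is weak-star lower semicontinuous -/
def StSeq2 : Prop := ∀ (R : ℝ) (w : ℕ → X →L[𝕜] 𝕜) (w' : X →L[𝕜] 𝕜), (∀ n, ‖w n‖ ≤ R) →
  WTends w w' → ‖w'‖ ≤ R

/-- SEQ3: weak-star limits of lattice functionals -/
def StSeq3 : Prop := ∀ (q : ℝ) (x : ℕ → X) (ε : ℕ → ℝ), LatData 𝕜 q x ε →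
  ∀ (w : ℕ → X →L[𝕜] 𝕜) (w' : X →L[𝕜] 𝕜), (∀ n, InLat x ε (w n)) → WTends w w' →
    InLat x ε w' ∧ ∀ N, ∀ᶠ n in atTop, Agr x N (w n) w'

/-- SEQ4: agreement implies weak-star convergence for bounded sequences -/
def StSeq4 : Prop := ∀ (q : ℝ) (x : ℕ → X) (ε : ℕ → ℝ), LatData 𝕜 q x ε →
  ∀ (R : ℝ) (w : ℕ → X →L[𝕜] 𝕜) (w' : X →L[𝕜] 𝕜), (∀ n, ‖w n‖ ≤ R) →
    (∀ N, ∀ᶠ n in atTop, Agr x N (w n) w') → WTends w w'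

/-- LAT: existence of lattice data -/
def StLat : Prop := TopologicalSpace.SeparableSpace X → ¬ FiniteDimensional 𝕜 X →
  ∀ q : ℝ, 0 < q → ∃ (x : ℕ → X) (ε : ℕ → ℝ), LatData 𝕜 q x ε

/-- FN: existence of the directions -/
def StFn : Prop := ¬ FiniteDimensional 𝕜 X → ∀ δ : ℝ, 0 < δ → δ ≤ 1 / 64 →
  ∀ (x : ℕ → X) (ε : ℕ → ℝ), LatData 𝕜 (δ / 16) x ε → ∃ f : ℕ → X →L[𝕜] 𝕜, FnData δ x ε f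

/-- ENUM: enumeration of the good cylinder sets -/
def StEnum : Prop := ∀ δ : ℝ, 0 < δ → δ ≤ 1 / 64 → ∀ (x : ℕ → X) (ε : ℕ → ℝ),
  LatData 𝕜 (δ / 16) x ε → ∃ G : ℕ → Set (X →L[𝕜] 𝕜), EnumData δ x ε G

/-- EMB: coding of bounded lattice functionals by real numbers in `(0,1)` -/
def StEmb : Prop := ∀ (q : ℝ) (x : ℕ → X) (ε : ℕ → ℝ), LatData 𝕜 q x ε →
  ∃ j : (X →L[𝕜] 𝕜) → ℝ,
    (∀ w w', InLat x ε w → InLat x ε w' → ‖w‖ ≤ 2 → ‖w'‖ ≤ 2 → j w = j w' → w = w') ∧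
    (∀ w, ‖w‖ ≤ 2 → 0 < j w ∧ j w < 1) ∧
    ∀ (w : ℕ → X →L[𝕜] 𝕜) (w' : X →L[𝕜] 𝕜), (∀ n, ‖w n‖ ≤ 2) → ‖w'‖ ≤ 2 → WTends w w' →
      Tendsto (fun n => j (w n)) atTop (𝓝 (j w'))

/-- EXT: linear interpolation over the gaps of a compact subset of the line -/
def StExt : Prop := ∀ L : Set ℝ, IsCompact L → L.Nonempty → ∃ a b s : ℝ → ℝ,
  (∀ t, a t ∈ L ∧ b t ∈ L ∧ 0 ≤ s t ∧ s t ≤ 1) ∧ (∀ t ∈ L, a t = t ∧ b t = t) ∧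
  (∀ g : ℝ → 𝕜, ContinuousOn g L →
    Continuous (fun t => ((1 - s t : ℝ) : 𝕜) * g (a t) + ((s t : ℝ) : 𝕜) * g (b t))) ∧
  ∀ (t k : ℕ → ℝ) (t' k' : ℝ), (∀ n, k n = a (t n) ∨ k n = b (t n)) →
    Tendsto t atTop (𝓝 t') → Tendsto k atTop (𝓝 k') → t' ≠ k' → ∃ N, ∀ n, N ≤ n → k n = k N

/-- BUILD: the operator with prescribed values on a weak-star closed set -/
def StBuild : Prop := TopologicalSpace.SeparableSpace X →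
  ∀ (q : ℝ) (x : ℕ → X) (ε : ℕ → ℝ), LatData 𝕜 q x ε → ∀ K : Set (X →L[𝕜] 𝕜), K.Nonempty →
    (∀ k ∈ K, InLat x ε k ∧ ‖k‖ ≤ 2) → WClosed K → ∃ T ι k₁ k₂ s, Coded K T ι k₁ k₂ s

/-- KSET: `K` is weak-star closed and `δ`-norming -/
def StKset : Prop := ∀ δ : ℝ, 0 < δ → δ ≤ 1 / 64 → ∀ (x : ℕ → X) (ε : ℕ → ℝ),
  LatData 𝕜 (δ / 16) x ε → ∀ f : ℕ → X →L[𝕜] 𝕜, FnData δ x ε f → ∀ G, EnumData δ x ε G →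
    (0 : X →L[𝕜] 𝕜) ∈ KK δ x ε f G ∧ (∀ k ∈ KK δ x ε f G, InLat x ε k ∧ ‖k‖ ≤ 1 + δ) ∧
    WClosed (KK δ x ε f G) ∧
    ∀ y : X →L[𝕜] 𝕜, ‖y‖ = 1 → ∃ k ∈ KK δ x ε f G, ∃ θ : 𝕜, ‖θ‖ = 1 ∧ ‖k - θ • y‖ ≤ δ

/-- NEAR: elements of `K` near a target `u + β f_n` are in `K_n` -/
def StNear : Prop := ∀ κ : ℝ, 0 < κ → κ ≤ 1 → UC 𝕜 X (1 / 32) κ →
  ∀ δ : ℝ, 0 < δ → δ ≤ 1 / 64 → δ ≤ κ / 8 → ∀ (x : ℕ → X) (ε : ℕ → ℝ),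
  LatData 𝕜 (δ / 16) x ε → ∀ f : ℕ → X →L[𝕜] 𝕜, FnData δ x ε f → ∀ G, EnumData δ x ε G →
    ∀ k ∈ KK δ x ε f G, ∀ (n : ℕ) (u : X →L[𝕜] 𝕜) (β : ℝ) (θ : 𝕜) (v : X), ‖u‖ ≤ 1 / 16 →
      0 ≤ β → ‖u + (β : 𝕜) • f n‖ = 1 → ‖θ‖ = 1 → ‖v‖ = 1 →
        1 - κ / 4 ≤ RCLike.re (θ * (u v + (β : 𝕜) * f n v)) →
          1 - κ / 2 ≤ RCLike.re (k v) → k ∈ Kn δ f G n

/-- HITN: an isometric operator near `T` hits the targets in `K_n` -/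
def StHitn : Prop := ∀ κ : ℝ, 0 < κ → κ ≤ 1 → UC 𝕜 X (1 / 32) κ →
  ∀ δ : ℝ, 0 < δ → δ ≤ 1 / 64 → δ ≤ κ / 8 → ∀ (x : ℕ → X) (ε : ℕ → ℝ),
  LatData 𝕜 (δ / 16) x ε → ∀ f : ℕ → X →L[𝕜] 𝕜, FnData δ x ε f → ∀ G, EnumData δ x ε G →
    ∀ T ι k₁ k₂ s, Coded (KK δ x ε f G) T ι k₁ k₂ s →
      ∀ V : X →L[𝕜] C(unitInterval, 𝕜), EpsIsom 0 V → ‖T - V‖ ≤ κ / 8 →
        ∀ u : X →L[𝕜] 𝕜, ‖u‖ ≤ 1 / 16 → ∀ n : ℕ, ∃ (t : unitInterval) (θ : 𝕜) (β : ℝ)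
          (k : X →L[𝕜] 𝕜), ‖θ‖ = 1 ∧ 0 ≤ β ∧ β ≤ 2 ∧
            (∀ v, V v t = θ * (u v + (β : 𝕜) * f n v)) ∧ (k = k₁ t ∨ k = k₂ t) ∧ k ∈ Kn δ f G n

/-- LIM: passing to the limit -/
def StLim : Prop := TopologicalSpace.SeparableSpace X → ∀ δ : ℝ, 0 < δ → δ ≤ 1 / 64 →
  ∀ (x : ℕ → X) (ε : ℕ → ℝ), LatData 𝕜 (δ / 16) x ε → ∀ f : ℕ → X →L[𝕜] 𝕜, FnData δ x ε f →
    ∀ G, EnumData δ x ε G → ∀ T ι k₁ k₂ s, Coded (KK δ x ε f G) T ι k₁ k₂ s →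
      ∀ V : X →L[𝕜] C(unitInterval, 𝕜), ∀ u : X →L[𝕜] 𝕜,
        (∀ n : ℕ, ∃ (t : unitInterval) (θ : 𝕜) (β : ℝ) (k : X →L[𝕜] 𝕜), ‖θ‖ = 1 ∧ 0 ≤ β ∧
          β ≤ 2 ∧ (∀ v, V v t = θ * (u v + (β : 𝕜) * f n v)) ∧ (k = k₁ t ∨ k = k₂ t) ∧
            k ∈ Kn δ f G n) →
        ∀ N H, IsCyl x ε N H → Good δ H → ∃ ω ∈ H, ∃ θ : 𝕜, ‖θ‖ = 1 ∧
          ∀ v, V v (ι ω) = θ * u v

/-- CONTR: the final contradiction -/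
def StContr : Prop := TopologicalSpace.SeparableSpace X →
  TopologicalSpace.SeparableSpace (X →L[𝕜] 𝕜) → ∀ δ : ℝ, 0 < δ → δ ≤ 1 / 64 →
  ∀ (x : ℕ → X) (ε : ℕ → ℝ), LatData 𝕜 (δ / 16) x ε → ∀ E : ℝ → Set (X →L[𝕜] 𝕜),
    (∀ s, 0 < s → s ≤ 1 / 16 → E s ⊆ Om 𝕜 x ε ∧
      (∀ c ∈ Om 𝕜 x ε, (∀ N, ∃ e ∈ E s, Agr x N e c) → c ∈ E s) ∧
      ∀ N H, IsCyl x ε N H → Good δ H → ∃ ω ∈ H, ω ∈ E s) →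
    (∀ s s', 0 < s → s ≤ 1 / 16 → 0 < s' → s' ≤ 1 / 16 → s ≠ s' → Disjoint (E s) (E s')) → False

/-- NEG: the negative result -/
def StNeg : Prop := UnifSmooth 𝕜 X → TopologicalSpace.SeparableSpace X →
  ¬ FiniteDimensional 𝕜 X → ¬ IAP 𝕜 X

/-- PEANO: a continuous surjection of `[0,1]` onto the unit ball of the dual -/
def StPeano : Prop := FiniteDimensional 𝕜 X → ∃ g : unitInterval → X →L[𝕜] 𝕜, Continuous g ∧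
  (∀ t, ‖g t‖ ≤ 1) ∧ ∀ y : X →L[𝕜] 𝕜, ‖y‖ ≤ 1 → ∃ t, g t = y

/-- POS1: approximation in finite dimensions -/
def StPos1 : Prop := FiniteDimensional 𝕜 X → UnifSmooth 𝕜 X → ∀ η : ℝ, 0 < η →
  ∃ ε₀ : ℝ, 0 < ε₀ ∧ ∀ ε, 0 < ε → ε ≤ ε₀ → ∀ T : X →L[𝕜] C(unitInterval, 𝕜), EpsIsom ε T →
    ∃ V : X →L[𝕜] C(unitInterval, 𝕜), EpsIsom 0 V ∧ ‖T - V‖ ≤ η

/-- POS2 -/
def StPos2 : Prop := FiniteDimensional 𝕜 X → UnifSmooth 𝕜 X → IAP 𝕜 X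

/-- NONSEP -/
def StNonsep : Prop := ¬ TopologicalSpace.SeparableSpace X → IAP 𝕜 X

end statements

section lp

variable (𝕜 : Type*) [RCLike 𝕜]

/-- LP1: pointwise inequality -/
def StLp1 : Prop := ∀ p : ℝ, 1 < p → ∀ η : ℝ, 0 < η → ∃ t₀ : ℝ, 0 < t₀ ∧ ∀ t : ℝ, 0 < t →
  t ≤ t₀ → ∀ a b : 𝕜, ‖a + (t : 𝕜) * b‖ ^ p + ‖a - (t : 𝕜) * b‖ ^ p - 2 * ‖a‖ ^ p ≤
    η * t * (‖a‖ ^ p + ‖b‖ ^ p)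

/-- LP2: `L^p` is uniformly smooth -/
def StLp2 : Prop := ∀ (p : ENNReal) [Fact (1 ≤ p)], 1 < p → p < ⊤ →
  UnifSmooth 𝕜 (Lp 𝕜 p (volume : Measure unitInterval))

/-- LP3: `L^p[0,1]` is infinite dimensional and separable -/
def StLp3 : Prop := ∀ (p : ENNReal) [Fact (1 ≤ p)], 1 < p → p < ⊤ →
  ¬ FiniteDimensional 𝕜 (Lp 𝕜 p (volume : Measure unitInterval)) ∧
    TopologicalSpace.SeparableSpace (Lp 𝕜 p (volume : Measure unitInterval))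

end lp

end Pool.Agent.R286.IA
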