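import Mathlib
import Pool.Agent.R286.IA.Stm

/-! # Piece HITN: an isometric operator near the coded one hits the targets -/

set_option autoImplicit false

open Filter Topology MeasureTheory

namespace Pool.Agent.R286.IA

namespace HitnAux

variable {𝕜 : Type*} [RCLike 𝕜] {X : Type*} [NormedAddCommGroup X] [NormedSpace 𝕜 X]

theorem norming (g : X →L[𝕜] 𝕜) (hg : ‖g‖ = 1) {η : ℝ} (hη : 0 < η) :
    ∃ v : X, ‖v‖ = 1 ∧ 1 - η ≤ RCLike.re (g v) := by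
  have h1 : max (1 - η) 0 < ‖g‖ := by
    rw [hg]
    exact max_lt (by linarith) one_pos
  obtain ⟨v, hv1, hv⟩ := g.exists_lt_apply_of_lt_opNorm h1
  have hgv : 0 < ‖g v‖ := lt_of_le_of_lt (le_max_right _ _) hv
  have hgv' : 1 - η < ‖g v‖ := lt_of_le_of_lt (le_max_left _ _) hv
  have hv0 : v ≠ 0 := by
    intro h
    rw [h, map_zero, norm_zero] at hgv
    exact lt_irrefl _ hgv
  have hvn : 0 < ‖v‖ := norm_pos_iff.mpr hv0
  set c : 𝕜 := (starRingEnd 𝕜) (g v) * (((‖g v‖ * ‖v‖)⁻¹ : ℝ) : 𝕜) with hc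
  refine ⟨c • v, ?_, ?_⟩
  · rw [norm_smul, hc, norm_mul, RCLike.norm_conj, RCLike.norm_ofReal, abs_of_pos (by positivity)]
    field_simp
  · have h2 : g (c • v) = ((‖g v‖ / ‖v‖ : ℝ) : 𝕜) := by
      rw [map_smul, smul_eq_mul, hc]
      have h3 : (starRingEnd 𝕜) (g v) * (((‖g v‖ * ‖v‖)⁻¹ : ℝ) : 𝕜) * g v =
          ((starRingEnd 𝕜) (g v) * g v) * (((‖g v‖ * ‖v‖)⁻¹ : ℝ) : 𝕜) := by ring
      rw [h3, RCLike.conj_mul, ← RCLike.ofReal_pow, ← RCLike.ofReal_mul]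
      congr 1
      field_simp
    rw [h2, RCLike.ofReal_re]
    have h4 : ‖g v‖ ≤ ‖g v‖ / ‖v‖ := by
      rw [le_div_iff₀ hvn]
      nlinarith
    linarith

theorem exists_beta (u w : X →L[𝕜] 𝕜) (hu : ‖u‖ ≤ 1 / 16) (hw : 63 / 64 ≤ ‖w‖) :
    ∃ β : ℝ, 0 ≤ β ∧ β ≤ 2 ∧ ‖u + (β : 𝕜) • w‖ = 1 := by
  have hc : ContinuousOn (fun β : ℝ => ‖u + (β : 𝕜) • w‖) (Set.Icc 0 2) := by
    have : Continuous (fun β : ℝ => (β : 𝕜)) := RCLike.continuous_ofReal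
    fun_prop
  have h0 : ‖u + ((0 : ℝ) : 𝕜) • w‖ ≤ 1 := by
    have e : u + ((0 : ℝ) : 𝕜) • w = u := by
      ext v
      simp
    rw [e]
    linarith
  have h2 : 1 ≤ ‖u + ((2 : ℝ) : 𝕜) • w‖ := by
    have h3 : ‖((2 : ℝ) : 𝕜) • w‖ = 2 * ‖w‖ := by
      rw [norm_smul, RCLike.norm_ofReal, abs_two]
    have h4 : ‖((2 : ℝ) : 𝕜) • w‖ ≤ ‖u + ((2 : ℝ) : 𝕜) • w‖ + ‖u‖ := by
      have := norm_sub_le (u + ((2 : ℝ) : 𝕜) • w) u
      rwa [add_sub_cancel_left] at this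
    linarith
  obtain ⟨β, hβ, h⟩ := intermediate_value_Icc (by norm_num : (0 : ℝ) ≤ 2) hc ⟨h0, h2⟩
  exact ⟨β, hβ.1, hβ.2, h⟩

end HitnAux

open HitnAux in
theorem hitn {𝕜 : Type*} [RCLike 𝕜] {X : Type*} [NormedAddCommGroup X] [NormedSpace 𝕜 X]
    (hits : ∀ V : X →L[𝕜] C(unitInterval, 𝕜), EpsIsom 0 V → ∀ y : X →L[𝕜] 𝕜, ‖y‖ = 1 →
      ∃ (t : unitInterval) (θ : 𝕜), ‖θ‖ = 1 ∧ ∀ v, V v t = θ * y v)
    (near : StNear 𝕜 X) : StHitn 𝕜 X := by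
  intro κ hκ hκ1 hUC δ hδ hδ1 hδκ x ε hL f hf G hG T ι k₁ k₂ s hC V hV hTV u hu n
  have hfn : 63 / 64 ≤ ‖f n‖ := by
    have := hf.lo n
    linarith
  obtain ⟨β, hβ0, hβ2, hβ1⟩ := exists_beta u (f n) hu hfn
  obtain ⟨t, θ, hθ, hVt⟩ := hits V hV (u + (β : 𝕜) • f n) hβ1
  have hg : ‖θ • (u + (β : 𝕜) • f n)‖ = 1 := by rw [norm_smul, hθ, hβ1, one_mul]
  obtain ⟨v, hv1, hv⟩ := norming (θ • (u + (β : 𝕜) • f n)) hg (show 0 < κ / 8 by positivity)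
  have hval : (θ • (u + (β : 𝕜) • f n)) v = θ * (u v + (β : 𝕜) * f n v) := by
    simp [smul_eq_mul, mul_add]
  rw [hval] at hv
  have hVv : V v t = θ * (u v + (β : 𝕜) * f n v) := by
    rw [hVt]
    simp [smul_eq_mul]
  have hdiff : ‖T v t - V v t‖ ≤ κ / 8 := by
    have e1 : T v t - V v t = ((T - V) v) t := rfl
    rw [e1]
    refine (ContinuousMap.norm_coe_le_norm _ t).trans ?_
    refine ((T - V).le_opNorm v).trans ?_
    rw [hv1, mul_one]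
    exact hTV
  have hTre : 1 - κ / 4 ≤ RCLike.re (T v t) := by
    have e1 : RCLike.re (T v t) = RCLike.re (V v t) + RCLike.re (T v t - V v t) := by
      rw [← map_add]
      congr 1
      ring
    have e2 := (RCLike.abs_re_le_norm (T v t - V v t)).trans hdiff
    have e3 := (abs_le.mp e2).1
    have e4 : RCLike.re (V v t) = RCLike.re (θ * (u v + (β : 𝕜) * f n v)) := by rw [hVv]
    linarith
  have hTs : RCLike.re (T v t) = (1 - s t) * RCLike.re (k₁ t v) + s t * RCLike.re (k₂ t v) := by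
    rw [hC.eq, map_add, RCLike.re_ofReal_mul, RCLike.re_ofReal_mul]
  have hs0 := hC.s0 t
  have hs1 := hC.s1 t
  have hcase : 1 - κ / 4 ≤ RCLike.re (k₁ t v) ∨ 1 - κ / 4 ≤ RCLike.re (k₂ t v) := by
    by_contra hc
    push Not at hc
    obtain ⟨c1, c2⟩ := hc
    rw [hTs] at hTre
    rcases hs1.eq_or_lt with h | h
    · rw [h] at hTre
      linarith
    · have e1 : (1 - s t) * RCLike.re (k₁ t v) < (1 - s t) * (1 - κ / 4) :=
        mul_lt_mul_of_pos_left c1 (by linarith)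
      have e2 : s t * RCLike.re (k₂ t v) ≤ s t * (1 - κ / 4) :=
        mul_le_mul_of_nonneg_left c2.le hs0
      linarith
  rcases hcase with h | h
  · refine ⟨t, θ, β, k₁ t, hθ, hβ0, hβ2, ?_, Or.inl rfl, ?_⟩
    · intro w
      rw [hVt]
      simp [smul_eq_mul]
    · exact near κ hκ hκ1 hUC δ hδ hδ1 hδκ x ε hL f hf G hG (k₁ t) (hC.mem1 t) n u β θ v hu hβ0
        hβ1 hθ hv1 (by linarith) (by linarith)
  · refine ⟨t, θ, β, k₂ t, hθ, hβ0, hβ2, ?_, Or.inr rfl, ?_⟩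
    · intro w
      rw [hVt]
      simp [smul_eq_mul]
    · exact near κ hκ hκ1 hUC δ hδ hδ1 hδκ x ε hL f hf G hG (k₂ t) (hC.mem2 t) n u β θ v hu hβ0
        hβ1 hθ hv1 (by linarith) (by linarith)

end Pool.Agent.R286.IA
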