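import Pool.Agent.R286.IA.Stm

set_option autoImplicit false

open Filter Topology MeasureTheory

namespace Pool.Agent.R286.IA

namespace HitsAux

variable {𝕜 : Type*} [RCLike 𝕜] {X : Type*} [NormedAddCommGroup X] [NormedSpace 𝕜 X]

/-- almost norming unit vectors -/
theorem exists_unit (f : X →L[𝕜] 𝕜) (hf : ‖f‖ = 1) (r : ℝ) (hr0 : 0 ≤ r) (hr : r < 1) :
    ∃ x : X, ‖x‖ = 1 ∧ r < RCLike.re (f x) := by
  obtain ⟨x, hx1, hx2⟩ := f.exists_lt_apply_of_lt_opNorm (r := r) (by rw [hf]; exact hr)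
  have hfx : 0 < ‖f x‖ := lt_of_le_of_lt hr0 hx2
  have hx0 : x ≠ 0 := by
    rintro rfl
    rw [map_zero, norm_zero] at hfx
    exact lt_irrefl _ hfx
  have hxn : 0 < ‖x‖ := norm_pos_iff.2 hx0
  set c : 𝕜 := ((‖x‖⁻¹ * ‖f x‖⁻¹ : ℝ) : 𝕜) * (starRingEnd 𝕜) (f x) with hc
  have hcn : ‖c‖ = ‖x‖⁻¹ := by
    rw [hc, norm_mul, RCLike.norm_conj, RCLike.norm_ofReal, abs_of_pos (by positivity)]
    field_simp
  refine ⟨c • x, ?_, ?_⟩
  · rw [norm_smul, hcn, inv_mul_cancel₀ hxn.ne']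
  · have h1 : f (c • x) = ((‖x‖⁻¹ * ‖f x‖ : ℝ) : 𝕜) := by
      rw [map_smul, smul_eq_mul, hc, mul_assoc, RCLike.conj_mul]
      push_cast
      have : ((‖f x‖ : ℝ) : 𝕜) ≠ 0 := by exact_mod_cast hfx.ne'
      field_simp
    rw [h1, RCLike.ofReal_re]
    have h2 : 1 ≤ ‖x‖⁻¹ := (one_le_inv₀ hxn).2 hx1.le
    nlinarith

/-- the norm of a continuous function is attained -/
theorem exists_norm (F : C(unitInterval, 𝕜)) : ∃ t, ‖F t‖ = ‖F‖ := by
  obtain ⟨t, -, ht⟩ := isCompact_univ.exists_isMaxOn (Set.univ_nonempty (α := unitInterval))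
    (f := fun s => ‖F s‖) (by fun_prop)
  refine ⟨t, le_antisymm (F.norm_coe_le_norm t) ?_⟩
  rw [ContinuousMap.norm_le _ (norm_nonneg _)]
  intro s
  exact ht (Set.mem_univ s)

end HitsAux

theorem hits {𝕜 : Type*} [RCLike 𝕜] {X : Type*} [NormedAddCommGroup X] [NormedSpace 𝕜 X] :
    StHits 𝕜 X := by
  intro hUC V hV y hy
  have hVn : ∀ x, ‖V x‖ = ‖x‖ := by
    intro x
    obtain ⟨h1, h2⟩ := hV x
    apply le_antisymm
    · simpa using h2
    · simpa using h1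
  -- the norming vectors
  have hx : ∀ k : ℕ, ∃ x : X, ‖x‖ = 1 ∧ 1 - 1 / ((k : ℝ) + 1) < RCLike.re (y x) := by
    intro k
    have hk : (0 : ℝ) < (k : ℝ) + 1 := by positivity
    refine HitsAux.exists_unit y hy _ ?_ ?_
    · rw [sub_nonneg, div_le_one hk]
      linarith [(Nat.cast_nonneg k : (0 : ℝ) ≤ k)]
    · have : 0 < 1 / ((k : ℝ) + 1) := by positivity
      linarith
  choose x hx1 hx2 using hx
  have ht : ∀ k : ℕ, ∃ t, ‖V (x k) t‖ = 1 := by
    intro k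
    obtain ⟨t, ht⟩ := HitsAux.exists_norm (V (x k))
    exact ⟨t, by rw [ht, hVn, hx1]⟩
  choose t ht using ht
  -- the functionals
  let ψ : ℕ → X →L[𝕜] 𝕜 := fun k =>
    (starRingEnd 𝕜) (V (x k) (t k)) • (ContinuousMap.evalCLM 𝕜 (t k)).comp V
  have hψ : ∀ k v, ψ k v = (starRingEnd 𝕜) (V (x k) (t k)) * V v (t k) := fun k v => rfl
  have hψn : ∀ k, ‖ψ k‖ ≤ 1 := by
    intro k
    refine ContinuousLinearMap.opNorm_le_bound _ zero_le_one fun v => ?_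
    rw [hψ, norm_mul, RCLike.norm_conj, ht, one_mul, one_mul, ← hVn v]
    exact (V v).norm_coe_le_norm (t k)
  have hψx : ∀ k, ψ k (x k) = 1 := by
    intro k
    rw [hψ, RCLike.conj_mul, ht]
    simp
  have hψy : Tendsto ψ atTop (𝓝 y) := by
    rw [tendsto_iff_norm_sub_tendsto_zero, Metric.tendsto_atTop]
    intro η hη
    obtain ⟨κ, hκ0, hκ1, hκ⟩ := hUC (η / 2) (by positivity)
    obtain ⟨N, hN⟩ := exists_nat_gt (1 / κ)
    refine ⟨N, fun k hk => ?_⟩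
    have hkN : (N : ℝ) ≤ k := by exact_mod_cast hk
    have h1 : 1 / ((k : ℝ) + 1) ≤ κ := by
      have hk0 : (0 : ℝ) < (k : ℝ) + 1 := by positivity
      rw [div_le_iff₀ hk0]
      rw [div_lt_iff₀ hκ0] at hN
      nlinarith
    have h2 := hκ (ψ k) y (x k) (hψn k) hy.le (hx1 k) (by
      rw [hψx, RCLike.one_re]
      linarith) (by linarith [hx2 k])
    rw [Real.dist_eq, sub_zero, abs_of_nonneg (norm_nonneg _)]
    linarith
  -- compactness
  have hcomp : IsCompact ((Set.univ : Set unitInterval) ×ˢ (Metric.sphere (0 : 𝕜) 1)) :=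
    isCompact_univ.prod (isCompact_sphere 0 1)
  obtain ⟨⟨t', θ⟩, hmem, φ, hφ, hlim⟩ := hcomp.tendsto_subseq
    (x := fun k => (t k, V (x k) (t k)))
    (fun k => ⟨Set.mem_univ _, mem_sphere_zero_iff_norm.2 (ht k)⟩)
  have hθ : ‖θ‖ = 1 := mem_sphere_zero_iff_norm.1 hmem.2
  rw [nhds_prod_eq] at hlim
  have hl1 : Tendsto (fun k => t (φ k)) atTop (𝓝 t') := tendsto_fst.comp hlim
  have hl2 : Tendsto (fun k => V (x (φ k)) (t (φ k))) atTop (𝓝 θ) := tendsto_snd.comp hlim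
  refine ⟨t', θ, hθ, fun v => ?_⟩
  have h1 : Tendsto (fun k => V v (t (φ k))) atTop (𝓝 (V v t')) :=
    ((V v).continuous.tendsto t').comp hl1
  have h2 : Tendsto (fun k => ψ (φ k) v) atTop (𝓝 (y v)) := by
    have h3 : Continuous (fun f : X →L[𝕜] 𝕜 => f v) :=
      (ContinuousLinearMap.apply 𝕜 𝕜 v).continuous
    exact (h3.tendsto y).comp (hψy.comp hφ.tendsto_atTop)
  have h3 : Tendsto (fun k => V (x (φ k)) (t (φ k)) * ψ (φ k) v) atTop (𝓝 (θ * y v)) :=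
    hl2.mul h2
  have h4 : (fun k => V (x (φ k)) (t (φ k)) * ψ (φ k) v) = fun k => V v (t (φ k)) := by
    funext k
    rw [hψ, ← mul_assoc, RCLike.mul_conj, ht]
    simp
  rw [h4] at h3
  exact tendsto_nhds_unique h1 h3

end Pool.Agent.R286.IA
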