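import Pool.Agent.R286.IA.Stm

set_option autoImplicit false

open Filter Topology

namespace Pool.Agent.R286.IA

namespace Kset

variable {𝕜 : Type*} [RCLike 𝕜] {X : Type*} [NormedAddCommGroup X] [NormedSpace 𝕜 X]

lemma inLat_zero (x : ℕ → X) (ε : ℕ → ℝ) : InLat x ε (0 : X →L[𝕜] 𝕜) :=
  fun i => ⟨0, by simp⟩

lemma inLat_add {x : ℕ → X} {ε : ℕ → ℝ} {a b : X →L[𝕜] 𝕜} (ha : InLat x ε a)
    (hb : InLat x ε b) : InLat x ε (a + b) := by
  intro i
  obtain ⟨m, hm⟩ := ha i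
  obtain ⟨n, hn⟩ := hb i
  refine ⟨m + n, ?_⟩
  simp only [ContinuousLinearMap.add_apply, map_add, hm, hn]
  push_cast
  ring

end Kset

open Kset in
theorem kset {𝕜 : Type*} [RCLike 𝕜] {X : Type*} [NormedAddCommGroup X] [NormedSpace 𝕜 X]
    (h2 : StSeq2 𝕜 X) (h3 : StSeq3 𝕜 X) (h4 : StSeq4 𝕜 X) : StKset 𝕜 X := by
  intro δ hδ hδ1 x ε hL f hf G hG
  have hOm : ∀ n, ∀ w ∈ G n, w ∈ Om 𝕜 x ε := by
    intro n w hw
    obtain ⟨N, hN⟩ := (hG.1 n).1
    exact hN.1 hw
  have hmem : ∀ k ∈ KK δ x ε f G, InLat x ε k ∧ ‖k‖ ≤ 1 + δ := by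
    rintro k ((hk | hk) | hk)
    · exact ⟨hk.1, hk.2.1⟩
    · exact ⟨hk.1, hk.2.trans (by linarith)⟩
    · obtain ⟨n, w, hw, hkw, hn⟩ := Set.mem_iUnion.1 hk
      refine ⟨?_, hn⟩
      rw [hkw]
      exact inLat_add (hf.lat n) (hOm n w hw).1
  refine ⟨?_, hmem, ?_, ?_⟩
  · exact Or.inl (Or.inr ⟨inLat_zero x ε, by simp⟩)
  · intro k w hk hw
    obtain ⟨hwl, hag⟩ := h3 _ x ε hL k w (fun n => (hmem _ (hk n)).1) hw
    have hwn : ‖w‖ ≤ 1 + δ := h2 (1 + δ) k w (fun n => (hmem _ (hk n)).2) hw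
    by_cases c1 : ∃ᶠ n in atTop, k n ∈ K0 δ x ε f
    · left; left
      refine ⟨hwl, hwn, fun N => ?_⟩
      obtain ⟨n, hn1, hn2⟩ := (c1.and_eventually (hag N)).exists
      obtain ⟨z', a, b, c, d⟩ := hn1.2.2 N
      exact ⟨z', a, b, fun i hi => (hn2 i hi).symm.trans (c i hi), d⟩
    by_cases c2 : ∃ᶠ n in atTop, k n ∈ Om 𝕜 x ε
    · left; right
      refine ⟨hwl, ?_⟩
      obtain ⟨φ, hφ, h⟩ := extraction_of_frequently_atTop c2
      exact h2 (1 / 4) (fun n => k (φ n)) w (fun n => (h n).2)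
        (fun v => (hw v).comp hφ.tendsto_atTop)
    have hev : ∀ᶠ j in atTop, ∃ n, k j ∈ Kn δ f G n := by
      filter_upwards [not_frequently.1 c1, not_frequently.1 c2] with j h1 h2
      rcases hk j with (h | h) | h
      · exact absurd h h1
      · exact absurd h h2
      · exact Set.mem_iUnion.1 h
    by_cases c3 : ∃ n, ∃ᶠ j in atTop, k j ∈ Kn δ f G n
    · obtain ⟨n, hn⟩ := c3
      obtain ⟨φ, hφ, h⟩ := extraction_of_frequently_atTop hn
      choose u hu hku hnu using h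
      have hut : WTends u (w - f n) := by
        intro v
        have h1 : (fun j => u j v) = fun j => k (φ j) v - f n v := by
          funext j
          rw [hku j]
          simp
        rw [h1]
        simp only [ContinuousLinearMap.sub_apply]
        exact ((hw v).comp hφ.tendsto_atTop).sub_const _
      obtain ⟨M, hM⟩ := (hG.1 n).1
      obtain ⟨a, b⟩ := h3 _ x ε hL u (w - f n) (fun j => (hM.1 (hu j)).1) hut
      have hn4 : ‖w - f n‖ ≤ 1 / 4 := h2 (1 / 4) u _ (fun j => (hM.1 (hu j)).2) hut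
      obtain ⟨j, hj⟩ := (b M).exists
      have hmG : w - f n ∈ G n := hM.2 (u j) (hM.1 (hu j)) (w - f n) ⟨a, hn4⟩ hj (hu j)
      right
      exact Set.mem_iUnion.2 ⟨n, w - f n, hmG, by simp, hwn⟩
    · have c4 : ∀ n, ∀ᶠ j in atTop, k j ∉ Kn δ f G n := by
        intro n
        by_contra hc
        exact c3 ⟨n, by rwa [Filter.Frequently]⟩
      obtain ⟨J, hJ⟩ := eventually_atTop.1 hev
      choose nn u hu hku hnu using fun j => hJ (j + J) (Nat.le_add_left _ _)
      have hnn : ∀ N, ∀ᶠ j in atTop, N ≤ nn j := by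
        intro N
        have h1 : ∀ᶠ j in atTop, ∀ n ∈ Finset.range N, k j ∉ Kn δ f G n :=
          (Filter.eventually_all_finset _).2 (fun n _ => c4 n)
        have h5 := (tendsto_add_atTop_nat J).eventually h1
        filter_upwards [h5] with j hj
        by_contra hlt
        push Not at hlt
        exact hj (nn j) (Finset.mem_range.2 hlt) ⟨u j, hu j, hku j, hnu j⟩
      have hagu : ∀ N, ∀ᶠ j in atTop, Agr x N (u j) w := by
        intro N
        have h5 := (tendsto_add_atTop_nat J).eventually (hag N)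
        filter_upwards [h5, hnn N] with j hj hj2
        intro i hi
        have h6 := hj i hi
        have h7 := hf.van (nn j) i (lt_of_lt_of_le hi hj2)
        rw [hku j] at h6
        simp only [ContinuousLinearMap.add_apply, map_add, h7, zero_add] at h6
        exact h6
      have hut : WTends u w := h4 _ x ε hL (1 / 4) u w (fun j => (hOm _ _ (hu j)).2) hagu
      have hn4 : ‖w‖ ≤ 1 / 4 := h2 (1 / 4) u _ (fun j => (hOm _ _ (hu j)).2) hut
      exact Or.inl (Or.inr ⟨hwl, hn4⟩)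
  · intro y hy
    by_cases hc : ∀ n, ∀ θ : 𝕜, ‖θ‖ = 1 → 1 / 4 ≤ ‖y - θ • f n‖
    · obtain ⟨y', hy', hyy⟩ := hL.quant0 y
      have hy1 : ‖y'‖ ≤ 1 + δ := by
        have h5 : ‖y'‖ ≤ ‖y' - y‖ + ‖y‖ := by
          simpa using norm_add_le (y' - y) y
        linarith
      refine ⟨y', Or.inl (Or.inl ⟨hy', hy1, fun N => ⟨y', hy', hy1, fun i _ => rfl, ?_⟩⟩), 1,
        by simp, ?_⟩
      · intro n θ hθ
        have h5 := hc n θ hθ
        have h6 : ‖y - θ • f n‖ ≤ ‖y' - y‖ + ‖y' - θ • f n‖ := by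
          have h7 : y - θ • f n = (y' - θ • f n) - (y' - y) := by abel
          rw [h7]
          refine (norm_sub_le _ _).trans ?_
          linarith
        linarith
      · rw [one_smul]
        linarith
    · push Not at hc
      obtain ⟨n, θ, hθ, hlt⟩ := hc
      have hθ0 : θ ≠ 0 := by
        intro h0
        rw [h0, norm_zero] at hθ
        exact one_ne_zero hθ.symm
      have hθi : ‖θ⁻¹‖ = 1 := by rw [norm_inv, hθ, inv_one]
      have h5 : ‖θ⁻¹ • y - f n‖ ≤ 1 / 4 := by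
        have h6 : θ⁻¹ • y - f n = θ⁻¹ • (y - θ • f n) := by
          rw [smul_sub, smul_smul, inv_mul_cancel₀ hθ0, one_smul]
        rw [h6, norm_smul, hθi, one_mul]
        exact hlt.le
      obtain ⟨w', hw', hww⟩ := (hG.1 n).2 _ h5
      have h7 : ‖f n + w' - θ⁻¹ • y‖ ≤ δ := by
        have h8 : f n + w' - θ⁻¹ • y = w' - (θ⁻¹ • y - f n) := by abel
        rw [h8]
        exact hww
      refine ⟨f n + w', Or.inr (Set.mem_iUnion.2 ⟨n, w', hw', rfl, ?_⟩), θ⁻¹, hθi, h7⟩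
      have h9 : ‖θ⁻¹ • y‖ = 1 := by rw [norm_smul, hθi, hy, one_mul]
      have h10 : ‖f n + w'‖ ≤ ‖f n + w' - θ⁻¹ • y‖ + ‖θ⁻¹ • y‖ := by
        simpa using norm_add_le (f n + w' - θ⁻¹ • y) (θ⁻¹ • y)
      linarith

end Pool.Agent.R286.IA
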