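import Pool.Agent.R286.IA.Stm2

set_option autoImplicit false

open Filter Topology MeasureTheory

namespace Pool.Agent.R286.IA

namespace LatAAux

/-- the real version -/
theorem real {X : Type*} [NormedAddCommGroup X] [NormedSpace ℝ X]
    (hs : TopologicalSpace.SeparableSpace X) (hf : ¬ FiniteDimensional ℝ X) :
    ∃ x : ℕ → X, (∀ i, ‖x i‖ ≤ 1) ∧ LinearIndependent ℝ x ∧
      Dense (Submodule.span ℝ (Set.range x) : Set X) := by
  obtain ⟨v, hv⟩ := TopologicalSpace.exists_dense_seq X
  obtain ⟨b, hb1, hb2, hb3⟩ := exists_linearIndependent ℝ (Set.range v)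
  have hdense : Dense (Submodule.span ℝ b : Set X) := by
    rw [hb2]
    exact hv.mono Submodule.subset_span
  have hbc : b.Countable := (Set.countable_range v).mono hb1
  have hbi : b.Infinite := by
    intro hfin
    apply hf
    have hfd : FiniteDimensional ℝ (Submodule.span ℝ b) := FiniteDimensional.span_of_finite ℝ hfin
    have hcl : IsClosed (Submodule.span ℝ b : Set X) := Submodule.closed_of_finiteDimensional _
    have htop : Submodule.span ℝ b = ⊤ := by
      apply SetLike.coe_injective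
      rw [← hcl.closure_eq, hdense.closure_eq]
      rfl
    rw [htop] at hfd
    exact Module.Finite.equiv (Submodule.topEquiv (R := ℝ) (M := X))
  have : Countable b := hbc.to_subtype
  have : Infinite b := hbi.to_subtype
  obtain ⟨hden⟩ := nonempty_denumerable b
  let e : ℕ ≃ b := (Denumerable.eqv b).symm
  let y : ℕ → X := fun i => (e i : X)
  have hy : LinearIndependent ℝ y := hb3.comp e e.injective
  have hy0 : ∀ i, y i ≠ 0 := fun i => hy.ne_zero i
  have hyr : Set.range y = b := by
    ext z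
    constructor
    · rintro ⟨i, rfl⟩
      exact (e i).2
    · intro hz
      exact ⟨e.symm ⟨z, hz⟩, by simp [y]⟩
  let w : ℕ → ℝˣ := fun i => Units.mk0 (‖y i‖⁻¹) (inv_ne_zero (norm_ne_zero_iff.2 (hy0 i)))
  refine ⟨w • y, ?_, hy.units_smul w, ?_⟩
  · intro i
    have : (w • y) i = ‖y i‖⁻¹ • y i := rfl
    rw [this, norm_smul, norm_inv, norm_norm,
      inv_mul_cancel₀ (norm_ne_zero_iff.2 (hy0 i))]
  · have h1 : Submodule.span ℝ (Set.range (w • y)) = Submodule.span ℝ b := by
      rw [← hyr]
      apply le_antisymm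
      · rw [Submodule.span_le]
        rintro _ ⟨i, rfl⟩
        exact Submodule.smul_mem _ _ (Submodule.subset_span ⟨i, rfl⟩)
      · rw [Submodule.span_le]
        rintro _ ⟨i, rfl⟩
        have h2 : y i = ‖y i‖ • (w • y) i := by
          have : (w • y) i = ‖y i‖⁻¹ • y i := rfl
          rw [this, smul_smul, mul_inv_cancel₀ (norm_ne_zero_iff.2 (hy0 i)), one_smul]
        rw [h2]
        exact Submodule.smul_mem _ _ (Submodule.subset_span ⟨i, rfl⟩)
    rw [h1]
    exact hdense

/-- dual functionals -/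
theorem dual {X : Type*} [NormedAddCommGroup X] [NormedSpace ℝ X] (x : ℕ → X)
    (hx : LinearIndependent ℝ x) (N : ℕ) : ∃ g : ℕ → X →L[ℝ] ℝ, ∀ i < N, ∀ j < N,
      g i (x j) = if i = j then 1 else 0 := by
  let z : Fin N → X := fun i => x i
  have hz : LinearIndependent ℝ z := hx.comp _ Fin.val_injective
  let B := Module.Basis.span hz
  have hB : ∀ i, (B i : X) = z i := fun i => congrArg Subtype.val (Module.Basis.span_apply hz i)
  have hfd : FiniteDimensional ℝ (Submodule.span ℝ (Set.range z)) :=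
    FiniteDimensional.span_of_finite ℝ (Set.finite_range z)
  have hex : ∀ i : ℕ, ∃ g : X →L[ℝ] ℝ, ∀ hi : i < N, ∀ j : Fin N,
      g (z j) = if (⟨i, hi⟩ : Fin N) = j then 1 else 0 := by
    intro i
    by_cases hi : i < N
    · obtain ⟨g, hg, -⟩ := exists_extension_norm_eq (Submodule.span ℝ (Set.range z))
        (LinearMap.toContinuousLinearMap (B.coord ⟨i, hi⟩))
      refine ⟨g, fun _ j => ?_⟩
      rw [← hB j, hg]
      show B.coord ⟨i, hi⟩ (B j) = _
      rw [Module.Basis.coord_apply, Module.Basis.repr_self, Finsupp.single_apply]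
      simp only [eq_comm]
    · exact ⟨0, fun h => absurd h hi⟩
  choose g hg using hex
  refine ⟨g, fun i hi j hj => ?_⟩
  have := hg i hi ⟨j, hj⟩
  rw [show z ⟨j, hj⟩ = x j from rfl] at this
  rw [this]
  simp [Fin.ext_iff]

end LatAAux

theorem latA {𝕜 : Type*} [RCLike 𝕜] {X : Type*} [NormedAddCommGroup X] [NormedSpace 𝕜 X] :
    StLatA 𝕜 X := by
  intro hs hf
  letI : NormedSpace ℝ X := NormedSpace.restrictScalars ℝ 𝕜 X
  have hsm : ∀ (r : ℝ) (v : X), r • v = (r : 𝕜) • v := by
    intro r v
    have : r • v = (algebraMap ℝ 𝕜 r) • v := rfl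
    rw [this, RCLike.algebraMap_eq_ofReal]
  haveI : IsScalarTower ℝ 𝕜 X := ⟨fun r c v => by
    rw [hsm, smul_smul, RCLike.real_smul_eq_coe_mul]⟩
  have hf' : ¬ FiniteDimensional ℝ X := by
    intro h
    exact hf (Module.Finite.of_restrictScalars_finite ℝ 𝕜 X)
  obtain ⟨x, hx1, hx2, hx3⟩ := LatAAux.real hs hf'
  refine ⟨x, hx1, ?_, ?_⟩
  · intro v η hη
    obtain ⟨u, hu, hvu⟩ := Metric.mem_closure_iff.1 (hx3 v) η hη
    obtain ⟨c, rfl⟩ := Finsupp.mem_span_range_iff_exists_finsupp.1 hu
    obtain ⟨n, hn⟩ := c.support.bddAbove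
    refine ⟨n + 1, c, ?_⟩
    have h1 : ∑ i ∈ Finset.range (n + 1), ((c i : ℝ) : 𝕜) • x i = c.sum fun i a => a • x i := by
      rw [Finsupp.sum]
      symm
      rw [Finset.sum_subset (s₂ := Finset.range (n + 1))]
      · exact Finset.sum_congr rfl fun i _ => hsm _ _
      · intro i hi
        have := hn hi
        rw [Finset.mem_range]
        omega
      · intro i _ hi
        rw [Finsupp.notMem_support_iff.1 hi, zero_smul]
    rw [h1, ← dist_eq_norm]
    exact hvu
  · intro N
    obtain ⟨g, hg⟩ := LatAAux.dual x hx2 N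
    refine ⟨fun i => StrongDual.extendRCLike (g i), fun i hi j hj => ?_⟩
    rw [StrongDual.re_extendRCLike_apply]
    exact hg i hi j hj

end Pool.Agent.R286.IA
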