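import Pool.Agent.R286.IA.Stm2

/-! Project IA (helper286), piece LATB by helper506: quantization of functionals. -/

set_option autoImplicit false

open Filter Topology

namespace Pool.Agent.R286.IA

namespace LatBpf

variable {𝕜 : Type*} [RCLike 𝕜] {X : Type*} [NormedAddCommGroup X] [NormedSpace 𝕜 X]

lemma re_add_smul (w k : X →L[𝕜] 𝕜) (t : ℝ) (v : X) :
    RCLike.re ((w + (t : 𝕜) • k) v) = RCLike.re (w v) + t * RCLike.re (k v) := by
  rw [add_apply, smul_apply, map_add, smul_eq_mul, RCLike.re_ofReal_mul]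

/-- the amount of the correction -/
noncomputable def amt (x : ℕ → X) (ε : ℕ → ℝ) (i : ℕ) (w : X →L[𝕜] 𝕜) : ℝ :=
  ⌊RCLike.re (w (x i)) / ε i⌋ * ε i - RCLike.re (w (x i))

/-- the correction step -/
noncomputable def corr (x : ℕ → X) (ε : ℕ → ℝ) (κ : ℕ → X →L[𝕜] 𝕜) (i : ℕ) (w : X →L[𝕜] 𝕜) : X →L[𝕜] 𝕜 :=
  w + (amt x ε i w : 𝕜) • κ i

/-- the sequence of corrections from the level `N` -/
noncomputable def sq (x : ℕ → X) (ε : ℕ → ℝ) (κ : ℕ → X →L[𝕜] 𝕜) (N : ℕ) (w : X →L[𝕜] 𝕜) : ℕ → X →L[𝕜] 𝕜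
  | 0 => w
  | n + 1 => corr x ε κ (N + n) (sq x ε κ N w n)

lemma abs_amt {x : ℕ → X} {ε : ℕ → ℝ} (i : ℕ) (hε : 0 < ε i) (w : X →L[𝕜] 𝕜) : |amt x ε i w| ≤ ε i := by
  unfold amt
  have h1 := Int.floor_le (RCLike.re (w (x i)) / ε i)
  have h2 := Int.lt_floor_add_one (RCLike.re (w (x i)) / ε i)
  rw [le_div_iff₀ hε] at h1
  rw [div_lt_iff₀ hε] at h2
  rw [abs_le]
  constructor <;> nlinarith

lemma step4 {x : ℕ → X} {ε : ℕ → ℝ} {κ : ℕ → X →L[𝕜] 𝕜} {q : ℝ} (hε : ∀ i, 0 < ε i)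
    (h0 : ∀ i, ∀ j < i, RCLike.re (κ i (x j)) = 0) (h1 : ∀ i, RCLike.re (κ i (x i)) = 1)
    (hq : ∀ i, ε i * ‖κ i‖ ≤ q / 2 ^ (i + 1)) (N : ℕ) (w : X →L[𝕜] 𝕜)
    (hw : ∀ i < N, ∃ m : ℤ, RCLike.re (w (x i)) = m * ε i) :
    ∃ w' : X →L[𝕜] 𝕜, InLat x ε w' ∧ Agr x N w' w ∧ ‖w' - w‖ ≤ q / 2 ^ N := by
  set v : ℕ → X →L[𝕜] 𝕜 := sq x ε κ N w with hv
  have hv0 : v 0 = w := rfl
  have hvs : ∀ n, v (n + 1) = v n + (amt x ε (N + n) (v n) : 𝕜) • κ (N + n) := fun n => rfl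
  have hkeep : ∀ n j, j < N + n → RCLike.re (v (n + 1) (x j)) = RCLike.re (v n (x j)) := by
    intro n j hj
    rw [hvs, re_add_smul, h0 _ j hj, mul_zero, add_zero]
  have hfix : ∀ n, ∃ m : ℤ, RCLike.re (v (n + 1) (x (N + n))) = m * ε (N + n) := by
    intro n
    refine ⟨⌊RCLike.re (v n (x (N + n))) / ε (N + n)⌋, ?_⟩
    rw [hvs, re_add_smul, h1, mul_one, amt]
    ring
  have hstay : ∀ n j, j < N + n → ∀ k, RCLike.re (v (n + k) (x j)) = RCLike.re (v n (x j)) := by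
    intro n j hj k
    induction k with
    | zero => rfl
    | succ k ih => rw [← add_assoc, hkeep (n + k) j (by omega), ih]
  have hdist : ∀ n, dist (v n) (v (n + 1)) ≤ q / 2 ^ N / 2 / 2 ^ n := by
    intro n
    rw [dist_eq_norm, hvs]
    have e : v n - (v n + (amt x ε (N + n) (v n) : 𝕜) • κ (N + n)) = -((amt x ε (N + n) (v n) : 𝕜) • κ (N + n)) := by
      abel
    rw [e, norm_neg, norm_smul, RCLike.norm_ofReal]
    calc |amt x ε (N + n) (v n)| * ‖κ (N + n)‖ ≤ ε (N + n) * ‖κ (N + n)‖ :=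
          mul_le_mul_of_nonneg_right (abs_amt _ (hε _) _) (norm_nonneg _)
      _ ≤ q / 2 ^ (N + n + 1) := hq _
      _ = q / 2 ^ N / 2 / 2 ^ n := by
          rw [pow_add, pow_add, pow_one]
          field_simp
  have hc : CauchySeq v := cauchySeq_of_le_geometric_two hdist
  obtain ⟨w', hw'⟩ := cauchySeq_tendsto_of_complete hc
  have hre : ∀ j, Tendsto (fun n => RCLike.re (v n (x j))) atTop (𝓝 (RCLike.re (w' (x j)))) := by
    intro j
    have h2 : Tendsto (fun n => v n (x j)) atTop (𝓝 (w' (x j))) :=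
      ((ContinuousLinearMap.apply 𝕜 𝕜 (x j)).continuous.tendsto w').comp hw'
    exact (RCLike.continuous_re.tendsto _).comp h2
  have hlim : ∀ n j, j < N + n → RCLike.re (w' (x j)) = RCLike.re (v n (x j)) := by
    intro n j hj
    refine tendsto_nhds_unique (hre j) ?_
    refine tendsto_const_nhds.congr' ?_
    filter_upwards [eventually_ge_atTop n] with k hk
    obtain ⟨d, rfl⟩ := Nat.exists_eq_add_of_le hk
    exact (hstay n j hj d).symm
  refine ⟨w', fun j => ?_, fun j hj => ?_, ?_⟩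
  · rcases lt_or_ge j N with hj | hj
    · obtain ⟨m, hm⟩ := hw j hj
      exact ⟨m, by rw [hlim 0 j (by omega), hv0, hm]⟩
    · obtain ⟨d, rfl⟩ := Nat.exists_eq_add_of_le hj
      obtain ⟨m, hm⟩ := hfix d
      exact ⟨m, by rw [hlim (d + 1) (N + d) (by omega), hm]⟩
  · rw [hlim 0 j (by omega), hv0]
  · have h2 := dist_le_of_le_geometric_two_of_tendsto₀ hdist hw'
    rwa [hv0, dist_comm, dist_eq_norm] at h2

end LatBpf

open LatBpf

theorem latB {𝕜 : Type*} [RCLike 𝕜] {X : Type*} [NormedAddCommGroup X] [NormedSpace 𝕜 X] : StLatB 𝕜 X := by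
  intro x hx q hq
  have hκ : ∀ i, ∃ k : X →L[𝕜] 𝕜, (∀ j < i, RCLike.re (k (x j)) = 0) ∧ RCLike.re (k (x i)) = 1 := by
    intro i
    obtain ⟨g, hg⟩ := hx.dual (i + 1)
    refine ⟨g i, fun j hj => ?_, ?_⟩
    · rw [hg i (by omega) j (by omega), if_neg (by omega)]
    · rw [hg i (by omega) i (by omega), if_pos rfl]
  choose κ h0 h1 using hκ
  set ε : ℕ → ℝ := fun i => min 1 (q / ((‖κ i‖ + 1) * 2 ^ (i + 1))) with hεdef
  have hε : ∀ i, 0 < ε i := fun i => lt_min one_pos (by positivity)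
  have hqε : ∀ i, ε i * ‖κ i‖ ≤ q / 2 ^ (i + 1) := by
    intro i
    calc ε i * ‖κ i‖ ≤ q / ((‖κ i‖ + 1) * 2 ^ (i + 1)) * (‖κ i‖ + 1) :=
          mul_le_mul (min_le_right _ _) (by linarith) (norm_nonneg _) (by positivity)
      _ = q / 2 ^ (i + 1) := by
          have : ‖κ i‖ + 1 ≠ 0 := by positivity
          field_simp
  refine ⟨ε, hx.norm_le, hε, fun i => min_le_left _ _, hx.dense, fun w => ?_, fun c hc N η hη => ?_⟩
  · obtain ⟨w', a, -, b⟩ := step4 hε h0 h1 hqε 0 w (by intro i hi; omega)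
    exact ⟨w', a, by simpa using b⟩
  · obtain ⟨g, hg⟩ := hx.dual N
    set S : ℝ := ∑ i ∈ Finset.range N, ‖g i‖ with hS
    have hS0 : 0 ≤ S := Finset.sum_nonneg fun i _ => norm_nonneg _
    refine ⟨η / (1 + S), by positivity, fun w hw => ?_⟩
    set w₁ : X →L[𝕜] 𝕜 := w + ∑ i ∈ Finset.range N,
      ((RCLike.re (c (x i)) - RCLike.re (w (x i)) : ℝ) : 𝕜) • g i with hw₁
    have hval : ∀ j < N, RCLike.re (w₁ (x j)) = RCLike.re (c (x j)) := by
      intro j hj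
      rw [hw₁, add_apply, map_add, ContinuousLinearMap.sum_apply, map_sum]
      have : ∀ i ∈ Finset.range N, RCLike.re ((((RCLike.re (c (x i)) - RCLike.re (w (x i)) : ℝ) : 𝕜) • g i) (x j)) =
          if i = j then RCLike.re (c (x j)) - RCLike.re (w (x j)) else 0 := by
        intro i hi
        rw [smul_apply, smul_eq_mul, RCLike.re_ofReal_mul, hg i (Finset.mem_range.mp hi) j hj]
        split_ifs with h
        · rw [h, mul_one]
        · rw [mul_zero]
      rw [Finset.sum_congr rfl this, Finset.sum_ite_eq' (Finset.range N) j, if_pos (Finset.mem_range.mpr hj)]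
      ring
    have hnorm : ‖w₁ - w‖ ≤ η := by
      rw [hw₁, add_sub_cancel_left]
      calc ‖∑ i ∈ Finset.range N, ((RCLike.re (c (x i)) - RCLike.re (w (x i)) : ℝ) : 𝕜) • g i‖
          ≤ ∑ i ∈ Finset.range N, ‖((RCLike.re (c (x i)) - RCLike.re (w (x i)) : ℝ) : 𝕜) • g i‖ := norm_sum_le _ _
        _ ≤ ∑ i ∈ Finset.range N, η / (1 + S) * ‖g i‖ := by
            refine Finset.sum_le_sum fun i hi => ?_
            rw [norm_smul, RCLike.norm_ofReal]
            refine mul_le_mul_of_nonneg_right ?_ (norm_nonneg _)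
            rw [abs_sub_comm]
            exact (hw i (Finset.mem_range.mp hi)).le
        _ = η / (1 + S) * S := by rw [← Finset.mul_sum]
        _ ≤ η := by
            rw [div_mul_eq_mul_div, div_le_iff₀ (by positivity)]
            nlinarith
    obtain ⟨w', a, b, d⟩ := step4 hε h0 h1 hqε N w₁ (fun i hi => by rw [hval i hi]; exact hc i)
    refine ⟨w', a, fun i hi => by rw [b i hi, hval i hi], ?_⟩
    calc ‖w' - w‖ = ‖(w' - w₁) + (w₁ - w)‖ := by congr 1; abel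
      _ ≤ ‖w' - w₁‖ + ‖w₁ - w‖ := norm_add_le _ _
      _ ≤ η + q / 2 ^ N := by linarith

end Pool.Agent.R286.IA
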