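import Pool.Agent.R286.IA.Stm

/-!
# MP_4265c1_an, piece LIM: passing to the limit
-/

set_option autoImplicit false

open Filter Topology MeasureTheory

namespace Pool.Agent.R286.IA

theorem lim {𝕜 : Type*} [RCLike 𝕜] {X : Type*} [NormedAddCommGroup X] [NormedSpace 𝕜 X]
    (h1 : StSeq1 𝕜 X) (h2 : StSeq2 𝕜 X) (h3 : StSeq3 𝕜 X) (h4 : StSeq4 𝕜 X) : StLim 𝕜 X := by
  intro hsep δ hδ hδ' x ε hlat f hf G hG T ι k₁ k₂ s hC V u hh N H hcyl hgood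
  choose t θ β k hθ hβ0 hβ2 hV hk hkn using hh
  have hfreq : ∃ᶠ n in atTop, G n = H := by
    rw [frequently_atTop]
    intro m
    obtain ⟨n, hn, hn'⟩ := hG.2 N H hcyl hgood m
    exact ⟨n, hn, hn'⟩
  obtain ⟨φ, hφ, hφG⟩ := extraction_of_frequently_atTop hfreq
  have hw0 : ∀ j, ∃ w ∈ H, k (φ j) = f (φ j) + w := by
    intro j
    obtain ⟨w, hw, hw', -⟩ := hkn (φ j)
    rw [hφG] at hw
    exact ⟨w, hw, hw'⟩
  choose w hwH hwk using hw0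
  have hwOm : ∀ j, w j ∈ Om 𝕜 x ε := fun j => hcyl.1 (hwH j)
  obtain ⟨ω, ψ1, hψ1, hω⟩ := h1 hsep (1 / 4) w (fun j => (hwOm j).2)
  obtain ⟨t', ψ2, hψ2, ht'⟩ := CompactSpace.tendsto_subseq (fun j => t (φ (ψ1 j)))
  obtain ⟨θ', hθ'm, ψ3, hψ3, hθ'⟩ := (isCompact_sphere (0 : 𝕜) 1).tendsto_subseq
    (x := fun j => θ (φ (ψ1 (ψ2 j)))) (fun j => by simp [hθ])
  have hθ'1 : ‖θ'‖ = 1 := by simpa using hθ'm
  -- the extraction
  set Ψ : ℕ → ℕ := fun j => ψ1 (ψ2 (ψ3 j)) with hΨ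
  have hΨm : StrictMono Ψ := hψ1.comp (hψ2.comp hψ3)
  have hΦm : StrictMono (fun j => φ (Ψ j)) := hφ.comp hΨm
  have htt : Tendsto (fun j => t (φ (Ψ j))) atTop (𝓝 t') := ht'.comp hψ3.tendsto_atTop
  have hθt : Tendsto (fun j => θ (φ (Ψ j))) atTop (𝓝 θ') := hθ'
  have hwt : WTends (fun j => w (Ψ j)) ω := by
    intro v
    exact (hω v).comp (hψ2.comp hψ3).tendsto_atTop
  obtain ⟨hωL, hωA⟩ := h3 (δ / 16) x ε hlat (fun j => w (Ψ j)) ω (fun j => (hwOm _).1) hwt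
  have hωn : ‖ω‖ ≤ 1 / 4 := h2 (1 / 4) (fun j => w (Ψ j)) ω (fun j => (hwOm _).2) hwt
  have hωOm : ω ∈ Om 𝕜 x ε := ⟨hωL, hωn⟩
  have hωH : ω ∈ H := by
    obtain ⟨j, hj⟩ := (hωA N).exists
    exact hcyl.2 _ (hwOm (Ψ j)) ω hωOm hj (hwH _)
  -- `f` tends to `0`
  have hf0 : WTends (fun j => f (φ (Ψ j))) 0 := by
    refine h4 (δ / 16) x ε hlat 2 _ 0 (fun j => (hf.hi _).trans (by linarith)) ?_
    intro M
    filter_upwards [eventually_ge_atTop M] with j hj i hi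
    have hij : i < φ (Ψ j) := lt_of_lt_of_le hi (hj.trans (hΦm.id_le j))
    rw [hf.van _ i hij]
    simp
  have hVt : ∀ v, V v t' = θ' * u v := by
    intro v
    have e1 : Tendsto (fun j => V v (t (φ (Ψ j)))) atTop (𝓝 (V v t')) :=
      ((V v).continuous.tendsto t').comp htt
    have e2 : Tendsto (fun j => ((β (φ (Ψ j)) : ℝ) : 𝕜) * f (φ (Ψ j)) v) atTop (𝓝 0) := by
      have e3 : Tendsto (fun j => 2 * ‖f (φ (Ψ j)) v‖) atTop (𝓝 0) := by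
        have e4 := (hf0 v).norm
        have e5 := e4.const_mul 2
        simpa using e5
      refine squeeze_zero_norm (fun j => ?_) e3
      rw [norm_mul, RCLike.norm_ofReal, abs_of_nonneg (hβ0 _)]
      exact mul_le_mul_of_nonneg_right (hβ2 _) (norm_nonneg _)
    have e6 : Tendsto (fun j => θ (φ (Ψ j)) * (u v + ((β (φ (Ψ j)) : ℝ) : 𝕜) * f (φ (Ψ j)) v))
        atTop (𝓝 (θ' * (u v + 0))) := hθt.mul (tendsto_const_nhds.add e2)
    rw [add_zero] at e6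
    refine tendsto_nhds_unique e1 (e6.congr fun j => ?_)
    rw [hV]
  by_cases hι : t' = ι ω
  · refine ⟨ω, hωH, θ', hθ'1, fun v => ?_⟩
    rw [← hι]
    exact hVt v
  · exfalso
    have hωK : ω ∈ KK δ x ε f G := Or.inl (Or.inr hωOm)
    have hkt : WTends (fun j => k (φ (Ψ j))) ω := by
      intro v
      have e1 := (hf0 v).add (hwt v)
      have e2 : (0 : X →L[𝕜] 𝕜) v + ω v = ω v := by simp
      rw [e2] at e1
      refine e1.congr fun j => ?_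
      show f (φ (Ψ j)) v + w (Ψ j) v = k (φ (Ψ j)) v
      rw [hwk]
      rfl
    obtain ⟨N₀, hN₀⟩ := hC.shrink (fun j => t (φ (Ψ j))) t' (fun j => k (φ (Ψ j))) ω
      (fun j => hk _) htt hωK hkt hι
    have e1 : k (φ (Ψ (N₀ + 1))) = k (φ (Ψ N₀)) := hN₀ (N₀ + 1) (Nat.le_succ _)
    rw [hwk, hwk] at e1
    have hne : φ (Ψ (N₀ + 1)) ≠ φ (Ψ N₀) := (hΦm (Nat.lt_succ_self N₀)).ne'
    have e2 := hf.sep _ _ hne 1 (by simp)
    rw [one_smul] at e2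
    have e3 : f (φ (Ψ (N₀ + 1))) - f (φ (Ψ N₀)) = w (Ψ N₀) - w (Ψ (N₀ + 1)) := by
      rw [sub_eq_sub_iff_add_eq_add, e1]
      abel
    rw [e3] at e2
    have e4 := norm_sub_le (w (Ψ N₀)) (w (Ψ (N₀ + 1)))
    have e5 := (hwOm (Ψ N₀)).2
    have e6 := (hwOm (Ψ (N₀ + 1))).2
    linarith

end Pool.Agent.R286.IA
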