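import Pool.Agent.R286.IA.Stm

/-! Project IA (helper286), piece LP1 by helper506: pointwise smoothness inequality. -/

set_option autoImplicit false

open Filter Topology MeasureTheory

namespace Pool.Agent.R286.IA

namespace Lp1pf

lemma aux (E : Type*) [NormedAddCommGroup E] [InnerProductSpace ℝ E] [ProperSpace E] {p : ℝ} (hp : 1 < p)
    {η : ℝ} (hη : 0 < η) : ∃ t₀ : ℝ, 0 < t₀ ∧ ∀ t : ℝ, 0 < t → t ≤ t₀ → ∀ a b : E,
      ‖a + t • b‖ ^ p + ‖a - t • b‖ ^ p - 2 * ‖a‖ ^ p ≤ η * t * (‖a‖ ^ p + ‖b‖ ^ p) := by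
  have hN : ContDiff ℝ 1 (fun z : E => ‖z‖ ^ p) := contDiff_norm_rpow hp
  have hd : Differentiable ℝ (fun z : E => ‖z‖ ^ p) := hN.differentiable one_ne_zero
  have hc : Continuous (fderiv ℝ (fun z : E => ‖z‖ ^ p)) := hN.continuous_fderiv one_ne_zero
  have huc := (isCompact_closedBall (0 : E) 2).uniformContinuousOn_of_continuous hc.continuousOn
  rw [Metric.uniformContinuousOn_iff] at huc
  obtain ⟨δ, hδ, hD⟩ := huc η hη
  refine ⟨min 1 (δ / 3), by positivity, fun t ht0 ht => ?_⟩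
  have ht1 : t ≤ 1 := ht.trans (min_le_left _ _)
  have htδ : t ≤ δ / 3 := ht.trans (min_le_right _ _)
  -- the case of the unit ball
  have key : ∀ a b : E, ‖a‖ ≤ 1 → ‖b‖ ≤ 1 → ‖a + t • b‖ ^ p + ‖a - t • b‖ ^ p - 2 * ‖a‖ ^ p ≤ η * t := by
    intro a b ha hb
    have h1 : ∀ s : ℝ, HasDerivAt (fun s : ℝ => ‖a + s • b‖ ^ p + ‖a - s • b‖ ^ p)
        (fderiv ℝ (fun z : E => ‖z‖ ^ p) (a + s • b) b - fderiv ℝ (fun z : E => ‖z‖ ^ p) (a - s • b) b) s := by
      intro s
      have e1 : HasDerivAt (fun s : ℝ => a + s • b) b s := by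
        have := ((hasDerivAt_id s).smul_const b).const_add a
        simpa using this
      have e2 : HasDerivAt (fun s : ℝ => a - s • b) (-b) s := by
        have := ((hasDerivAt_id s).smul_const b).const_sub a
        simpa using this
      have f1 := (hd (a + s • b)).hasFDerivAt.comp_hasDerivAt s e1
      have f2 := (hd (a - s • b)).hasFDerivAt.comp_hasDerivAt s e2
      have f3 := f1.add f2
      refine f3.congr_deriv ?_
      rw [map_neg]
      ring
    have h2 : ∀ s ∈ Set.Icc (0 : ℝ) t, ‖fderiv ℝ (fun z : E => ‖z‖ ^ p) (a + s • b) b -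
        fderiv ℝ (fun z : E => ‖z‖ ^ p) (a - s • b) b‖ ≤ η := by
      intro s hs
      have hs0 : 0 ≤ s := hs.1
      have hsb : ‖s • b‖ ≤ t := by
        rw [norm_smul, Real.norm_eq_abs, abs_of_nonneg hs0]
        calc s * ‖b‖ ≤ t * 1 := mul_le_mul hs.2 hb (norm_nonneg _) ht0.le
          _ = t := mul_one t
      have m1 : a + s • b ∈ Metric.closedBall (0 : E) 2 := by
        rw [mem_closedBall_zero_iff]
        exact (norm_add_le _ _).trans (by linarith)
      have m2 : a - s • b ∈ Metric.closedBall (0 : E) 2 := by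
        rw [mem_closedBall_zero_iff]
        exact (norm_sub_le _ _).trans (by linarith)
      have m3 : dist (a + s • b) (a - s • b) < δ := by
        rw [dist_eq_norm]
        have : a + s • b - (a - s • b) = s • b + s • b := by abel
        rw [this]
        exact (norm_add_le _ _).trans_lt (by linarith)
      have m4 := hD _ m1 _ m2 m3
      rw [dist_eq_norm] at m4
      rw [← sub_apply]
      refine (ContinuousLinearMap.le_opNorm _ _).trans ?_
      calc _ ≤ η * 1 := mul_le_mul m4.le hb (norm_nonneg _) hη.le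
        _ = η := mul_one η
    have h3 := norm_image_sub_le_of_norm_deriv_le_segment' (f := fun s : ℝ => ‖a + s • b‖ ^ p + ‖a - s • b‖ ^ p)
      (f' := fun s => fderiv ℝ (fun z : E => ‖z‖ ^ p) (a + s • b) b - fderiv ℝ (fun z : E => ‖z‖ ^ p) (a - s • b) b)
      (a := 0) (b := t) (C := η) (fun s _ => (h1 s).hasDerivWithinAt) (fun s hs => h2 s ⟨hs.1, hs.2.le⟩) t
      ⟨ht0.le, le_rfl⟩
    simp only [zero_smul, add_zero, sub_zero] at h3
    have h4 := (le_abs_self _).trans h3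
    linarith
  intro a b
  rcases eq_or_ne (max ‖a‖ ‖b‖) 0 with h | h
  · have ha : a = 0 := by
      have : ‖a‖ ≤ 0 := h ▸ le_max_left _ _
      exact norm_le_zero_iff.mp this
    have hb : b = 0 := by
      have : ‖b‖ ≤ 0 := h ▸ le_max_right _ _
      exact norm_le_zero_iff.mp this
    have hp0 : p ≠ 0 := by linarith
    subst ha hb
    simp [Real.zero_rpow hp0]
  · have hR : 0 < max ‖a‖ ‖b‖ := lt_of_le_of_ne (le_max_of_le_left (norm_nonneg _)) (Ne.symm h)
    set R : ℝ := max ‖a‖ ‖b‖ with hRdef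
    have hRp : 0 < R ^ p := Real.rpow_pos_of_pos hR p
    have hna : ∀ z : E, ‖R⁻¹ • z‖ = ‖z‖ / R := by
      intro z
      rw [norm_smul, norm_inv, Real.norm_eq_abs, abs_of_pos hR]
      ring
    have hk := key (R⁻¹ • a) (R⁻¹ • b) (by rw [hna, div_le_one hR]; exact le_max_left _ _)
      (by rw [hna, div_le_one hR]; exact le_max_right _ _)
    have e1 : R⁻¹ • a + t • R⁻¹ • b = R⁻¹ • (a + t • b) := by rw [smul_add, smul_comm t]
    have e2 : R⁻¹ • a - t • R⁻¹ • b = R⁻¹ • (a - t • b) := by rw [smul_sub, smul_comm t]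
    rw [e1, e2, hna, hna, hna, Real.div_rpow (norm_nonneg _) hR.le, Real.div_rpow (norm_nonneg _) hR.le,
      Real.div_rpow (norm_nonneg _) hR.le] at hk
    have h5 : ‖a + t • b‖ ^ p + ‖a - t • b‖ ^ p - 2 * ‖a‖ ^ p ≤ η * t * R ^ p := by
      have h6 := mul_le_mul_of_nonneg_right hk hRp.le
      have h7 : (‖a + t • b‖ ^ p / R ^ p + ‖a - t • b‖ ^ p / R ^ p - 2 * (‖a‖ ^ p / R ^ p)) * R ^ p =
          ‖a + t • b‖ ^ p + ‖a - t • b‖ ^ p - 2 * ‖a‖ ^ p := by field_simp
      rwa [h7] at h6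
    refine h5.trans (mul_le_mul_of_nonneg_left ?_ (by positivity))
    have ha0 : 0 ≤ ‖a‖ ^ p := Real.rpow_nonneg (norm_nonneg _) _
    have hb0 : 0 ≤ ‖b‖ ^ p := Real.rpow_nonneg (norm_nonneg _) _
    rcases le_total ‖a‖ ‖b‖ with h | h
    · rw [hRdef, max_eq_right h]
      linarith
    · rw [hRdef, max_eq_left h]
      linarith

end Lp1pf

theorem lp1 {𝕜 : Type*} [RCLike 𝕜] : StLp1 𝕜 := by
  intro p hp η hη
  have hprop : ProperSpace 𝕜 := FiniteDimensional.proper_rclike 𝕜 𝕜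
  letI : InnerProductSpace ℝ 𝕜 := InnerProductSpace.rclikeToReal 𝕜 𝕜
  obtain ⟨t₀, h0, h1⟩ := Lp1pf.aux 𝕜 hp hη
  exact ⟨t₀, h0, fun t ht0 ht a b => h1 t ht0 ht a b⟩

end Pool.Agent.R286.IA
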