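import Pool.Agent.R286.IA.Stm

/-!
# LP2: `L^p` is uniformly smooth
-/

set_option autoImplicit false

open Filter Topology MeasureTheory

namespace Pool.Agent.R286.IA

namespace LP2

variable {𝕜 : Type*} [RCLike 𝕜]

lemma norm_rpow {p : ENNReal} [Fact (1 ≤ p)] (hp0 : p ≠ 0) (hpt : p ≠ ⊤)
    (f : Lp 𝕜 p (volume : Measure unitInterval)) :
    ‖f‖ ^ p.toReal = ∫ a, ‖f a‖ ^ p.toReal := by
  have hP : 0 < p.toReal := ENNReal.toReal_pos hp0 hpt
  have hnn : 0 ≤ ∫ a, ‖f a‖ ^ p.toReal := integral_nonneg fun a => by positivity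
  rw [Lp.norm_def, (Lp.memLp f).eLpNorm_eq_integral_rpow_norm hp0 hpt,
    ENNReal.toReal_ofReal (by positivity), ← Real.rpow_mul hnn, inv_mul_cancel₀ hP.ne',
    Real.rpow_one]

lemma integrable_rpow {p : ENNReal} [Fact (1 ≤ p)] (hp0 : p ≠ 0) (hpt : p ≠ ⊤)
    (f : Lp 𝕜 p (volume : Measure unitInterval)) :
    Integrable (fun a => ‖f a‖ ^ p.toReal) (volume : Measure unitInterval) :=
  (Lp.memLp f).integrable_norm_rpow hp0 hpt

end LP2

open LP2

theorem lp2 {𝕜 : Type*} [RCLike 𝕜] (h : StLp1 𝕜) : StLp2 𝕜 := by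
  intro p _ hp1 hpt
  have hp0 : p ≠ 0 := (zero_lt_one.trans hp1).ne'
  have hpt' : p ≠ ⊤ := hpt.ne
  have hP1 : 1 < p.toReal := by
    have := (ENNReal.toReal_lt_toReal ENNReal.one_ne_top hpt').2 hp1
    simpa using this
  intro η hη
  obtain ⟨t₀, ht₀, hmain⟩ := h p.toReal hP1 η hη
  refine ⟨t₀, ht₀, ?_⟩
  intro t ht htt x y hx hy
  set P := p.toReal with hPdef
  set A := ‖x + (t : 𝕜) • y‖ with hA
  set B := ‖x - (t : 𝕜) • y‖ with hB
  have hA0 : 0 ≤ A := norm_nonneg _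
  have hB0 : 0 ≤ B := norm_nonneg _
  -- integrate the pointwise inequality
  have e1 : (fun a => ‖(x + (t : 𝕜) • y : Lp 𝕜 p (volume : Measure unitInterval)) a‖ ^ P)
      =ᵐ[volume] fun a => ‖x a + (t : 𝕜) * y a‖ ^ P := by
    filter_upwards [Lp.coeFn_add x ((t : 𝕜) • y), Lp.coeFn_smul (t : 𝕜) y] with a h1 h2
    rw [h1, Pi.add_apply, h2, Pi.smul_apply, smul_eq_mul]
  have e2 : (fun a => ‖(x - (t : 𝕜) • y : Lp 𝕜 p (volume : Measure unitInterval)) a‖ ^ P)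
      =ᵐ[volume] fun a => ‖x a - (t : 𝕜) * y a‖ ^ P := by
    filter_upwards [Lp.coeFn_sub x ((t : 𝕜) • y), Lp.coeFn_smul (t : 𝕜) y] with a h1 h2
    rw [h1, Pi.sub_apply, h2, Pi.smul_apply, smul_eq_mul]
  have i1 := (integrable_rpow hp0 hpt' (x + (t : 𝕜) • y)).congr e1
  have i2 := (integrable_rpow hp0 hpt' (x - (t : 𝕜) • y)).congr e2
  have ix : Integrable (fun a => ‖x a‖ ^ P) (volume : Measure unitInterval) :=
    integrable_rpow hp0 hpt' x
  have iy : Integrable (fun a => ‖y a‖ ^ P) (volume : Measure unitInterval) :=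
    integrable_rpow hp0 hpt' y
  have i12 : Integrable (fun a => ‖x a + (t : 𝕜) * y a‖ ^ P + ‖x a - (t : 𝕜) * y a‖ ^ P)
    (volume : Measure unitInterval) := i1.add i2
  have hAP : A ^ P = ∫ a, ‖x a + (t : 𝕜) * y a‖ ^ P := by
    rw [hA, norm_rpow hp0 hpt', integral_congr_ae e1]
  have hBP : B ^ P = ∫ a, ‖x a - (t : 𝕜) * y a‖ ^ P := by
    rw [hB, norm_rpow hp0 hpt', integral_congr_ae e2]
  have hxP : ∫ a, ‖x a‖ ^ P = 1 := by
    rw [← norm_rpow hp0 hpt', hx, Real.one_rpow]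
  have hyP : ∫ a, ‖y a‖ ^ P = 1 := by
    rw [← norm_rpow hp0 hpt', hy, Real.one_rpow]
  have hint : ∫ a, (‖x a + (t : 𝕜) * y a‖ ^ P + ‖x a - (t : 𝕜) * y a‖ ^ P - 2 * ‖x a‖ ^ P)
      ≤ ∫ a, η * t * (‖x a‖ ^ P + ‖y a‖ ^ P) := by
    refine integral_mono (i12.sub (ix.const_mul 2)) ((ix.add iy).const_mul (η * t)) ?_
    intro a
    exact hmain t ht htt (x a) (y a)
  rw [integral_sub i12 (ix.const_mul 2), integral_add i1 i2, integral_const_mul,
    integral_const_mul, integral_add ix iy, ← hAP, ← hBP, hxP, hyP] at hint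
  have hsum : (A ^ P + B ^ P) / 2 ≤ 1 + η * t := by linarith
  have hconv : ((A + B) / 2) ^ P ≤ (A ^ P + B ^ P) / 2 := by
    have hc := (convexOn_rpow hP1.le).2 (Set.mem_Ici.2 hA0) (Set.mem_Ici.2 hB0)
      (show (0 : ℝ) ≤ 1 / 2 by norm_num) (show (0 : ℝ) ≤ 1 / 2 by norm_num) (by norm_num)
    simp only [smul_eq_mul] at hc
    have h1 : (A + B) / 2 = 1 / 2 * A + 1 / 2 * B := by ring
    rw [h1]
    linarith
  have hηt : 0 ≤ η * t := by positivity
  have hself : 1 + η * t ≤ (1 + η * t) ^ P := Real.self_le_rpow_of_one_le (by linarith) hP1.le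
  have hfin : ((A + B) / 2) ^ P ≤ (1 + η * t) ^ P := by linarith
  have := (Real.rpow_le_rpow_iff (by positivity) (by positivity) (by linarith)).1 hfin
  linarith

end Pool.Agent.R286.IA
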