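import Pool.Agent.R286.IA.Stm

/-!
# LP3: `L^p[0,1]` is separable and infinite dimensional
-/

set_option autoImplicit false

open Filter Topology MeasureTheory

namespace Pool.Agent.R286.IA

namespace LP3

/-- the points `1/(n+1)` -/
noncomputable def pt (n : ℕ) : unitInterval :=
  ⟨1 / ((n : ℝ) + 1), by positivity, by
    rw [div_le_one (by positivity)]
    have : (0 : ℝ) ≤ n := Nat.cast_nonneg n
    linarith⟩

/-- the disjoint intervals -/
noncomputable def J (n : ℕ) : Set unitInterval := Set.Ioc (pt (n + 1)) (pt n)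

lemma pt_anti {m n : ℕ} (h : m ≤ n) : pt n ≤ pt m := by
  rw [Subtype.mk_le_mk]
  have h1 : (m : ℝ) ≤ n := by exact_mod_cast h
  exact one_div_le_one_div_of_le (by positivity) (by linarith)

lemma pt_lt (n : ℕ) : (pt (n + 1) : ℝ) < pt n := by
  have h1 : (pt (n + 1) : ℝ) = 1 / (((n + 1 : ℕ) : ℝ) + 1) := rfl
  have h2 : (pt n : ℝ) = 1 / ((n : ℝ) + 1) := rfl
  rw [h1, h2]
  push_cast
  exact one_div_lt_one_div_of_lt (by positivity) (by linarith)

lemma J_disj {m n : ℕ} (h : m ≠ n) : Disjoint (J m) (J n) := by
  rw [Set.disjoint_left]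
  intro x hm hn
  rcases lt_or_gt_of_ne h with h | h
  · exact absurd (hm.1.trans_le (hn.2.trans (pt_anti h))) (lt_irrefl _)
  · exact absurd (hn.1.trans_le (hm.2.trans (pt_anti h))) (lt_irrefl _)

lemma J_meas (n : ℕ) : MeasurableSet (J n) := measurableSet_Ioc

lemma J_vol (n : ℕ) : (volume : Measure unitInterval) (J n) ≠ 0 := by
  unfold J
  rw [unitInterval.volume_Ioc]
  have := pt_lt n
  simp only [ne_eq, ENNReal.ofReal_eq_zero, not_le]
  linarith

lemma J_fin (n : ℕ) : (volume : Measure unitInterval) (J n) ≠ ⊤ := measure_ne_top _ _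

variable {𝕜 : Type*} [RCLike 𝕜]

/-- the indicator functions in `L^p` -/
noncomputable def fn (p : ENNReal) (n : ℕ) : Lp 𝕜 p (volume : Measure unitInterval) :=
  indicatorConstLp p (J_meas n) (J_fin n) (1 : 𝕜)

/-- integration over `J n` as a linear map -/
noncomputable def ph (p : ENNReal) [Fact (1 ≤ p)] (n : ℕ) :
    Lp 𝕜 p (volume : Measure unitInterval) →ₗ[𝕜] 𝕜 where
  toFun f := ∫ a in J n, f a
  map_add' f g := by
    have hf : Integrable f (volume : Measure unitInterval) := (Lp.memLp f).integrable Fact.out
    have hg : Integrable g (volume : Measure unitInterval) := (Lp.memLp g).integrable Fact.out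
    rw [← integral_add hf.integrableOn hg.integrableOn]
    refine integral_congr_ae ?_
    exact ae_restrict_of_ae (Lp.coeFn_add f g)
  map_smul' c f := by
    rw [RingHom.id_apply, ← integral_smul]
    refine integral_congr_ae ?_
    exact ae_restrict_of_ae (Lp.coeFn_smul c f)

lemma ph_fn (p : ENNReal) [Fact (1 ≤ p)] (m n : ℕ) :
    ph p m (fn p n : Lp 𝕜 p (volume : Measure unitInterval))
      = if m = n then (((volume : Measure unitInterval).real (J n) : ℝ) : 𝕜) else 0 := by
  have h1 : ph p m (fn p n : Lp 𝕜 p (volume : Measure unitInterval))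
      = ∫ a in J m, (J n).indicator (fun _ => (1 : 𝕜)) a := by
    refine integral_congr_ae ?_
    exact ae_restrict_of_ae indicatorConstLp_coeFn
  rw [h1, setIntegral_indicator (J_meas n)]
  split_ifs with h
  · subst h
    rw [Set.inter_self, setIntegral_const]
    simp [Algebra.smul_def]
  · rw [(J_disj h).inter_eq]
    simp

end LP3

open LP3

theorem lp3 {𝕜 : Type*} [RCLike 𝕜] : StLp3 𝕜 := by
  intro p _ hp1 hpt
  constructor
  · intro hfin
    have hli : LinearIndependent 𝕜 (fun n => (fn p n : Lp 𝕜 p (volume : Measure unitInterval))) := by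
      rw [linearIndependent_iff']
      intro s c hc i hi
      have h1 := congrArg (ph p i) hc
      rw [map_sum, map_zero] at h1
      simp only [map_smul, ph_fn, smul_eq_mul, mul_ite, mul_zero] at h1
      rw [Finset.sum_ite_eq, if_pos hi] at h1
      rcases mul_eq_zero.1 h1 with h2 | h2
      · exact h2
      · exfalso
        have h3 : (volume : Measure unitInterval).real (J i) = 0 := by exact_mod_cast h2
        rw [measureReal_eq_zero_iff (J_fin i)] at h3
        exact J_vol i h3
    have := hli.finite
    exact not_finite ℕ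
  · haveI : Fact (p ≠ ⊤) := ⟨hpt.ne⟩
    have : SecondCountableTopology (Lp 𝕜 p (volume : Measure unitInterval)) :=
      inferInstance
    infer_instance

end Pool.Agent.R286.IA
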