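import Pool.Agent.R286.IA.Stm

/-!
# Piece NEAR: norm estimates
-/

set_option autoImplicit false

open Filter Topology MeasureTheory

namespace Pool.Agent.R286.IA

namespace NearAux

variable {𝕜 : Type*} [RCLike 𝕜] {X : Type*} [NormedAddCommGroup X] [NormedSpace 𝕜 X]

/-- almost norming functionals are near to `g` -/
theorem factF {κ δ : ℝ} (hκ : 0 < κ) (_hκ1 : κ ≤ 1) (hUC : UC 𝕜 X (1 / 32) κ) (hδ : 0 < δ)
    (hδ1 : δ ≤ 1 / 64) (hδκ : δ ≤ κ / 8) {g : X →L[𝕜] 𝕜} {v : X} (hg : ‖g‖ = 1) (hv : ‖v‖ = 1)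
    (hgv : 1 - κ ≤ RCLike.re (g v)) {z : X →L[𝕜] 𝕜} (hz : ‖z‖ ≤ 1 + δ)
    (hzv : 1 - 3 * κ / 4 ≤ RCLike.re (z v)) : ‖z - g‖ ≤ 3 / 64 := by
  have h1δ : 0 < 1 + δ := by linarith
  set c : ℝ := (1 + δ)⁻¹ with hc
  have hc0 : 0 < c := inv_pos.2 h1δ
  have hc1 : c ≤ 1 := inv_le_one_of_one_le₀ (by linarith)
  have hcδ : c * (1 + δ) = 1 := inv_mul_cancel₀ h1δ.ne'
  have hnc : ‖(c : 𝕜)‖ = c := by rw [RCLike.norm_ofReal, abs_of_pos hc0]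
  have h1 : ‖(c : 𝕜) • z‖ ≤ 1 := by
    rw [norm_smul, hnc]
    calc c * ‖z‖ ≤ c * (1 + δ) := mul_le_mul_of_nonneg_left hz hc0.le
      _ = 1 := hcδ
  have h2 : 1 - κ ≤ RCLike.re (((c : 𝕜) • z) v) := by
    have e : RCLike.re (((c : 𝕜) • z) v) = c * RCLike.re (z v) := by
      show RCLike.re ((c : 𝕜) * z v) = _
      rw [RCLike.re_ofReal_mul]
    rw [e]
    have h3 : c * (1 - 3 * κ / 4) ≤ c * RCLike.re (z v) := mul_le_mul_of_nonneg_left hzv hc0.le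
    have h4 : 1 - κ ≤ c * (1 - 3 * κ / 4) := by
      have h5 : (1 - κ) * (1 + δ) ≤ 1 - 3 * κ / 4 := by nlinarith
      calc 1 - κ = c * ((1 - κ) * (1 + δ)) := by
            rw [mul_comm (1 - κ), ← mul_assoc, hcδ, one_mul]
        _ ≤ _ := mul_le_mul_of_nonneg_left h5 hc0.le
    linarith
  have h3 := hUC ((c : 𝕜) • z) g v h1 hg.le hv h2 hgv
  have h4 : ‖z - (c : 𝕜) • z‖ ≤ 1 / 64 := by
    have e : z - (c : 𝕜) • z = ((1 - c : ℝ) : 𝕜) • z := by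
      ext w
      show z w - (c : 𝕜) * z w = ((1 - c : ℝ) : 𝕜) * z w
      rw [RCLike.ofReal_sub, RCLike.ofReal_one]
      ring
    rw [e, norm_smul, RCLike.norm_ofReal, abs_of_nonneg (by linarith)]
    calc (1 - c) * ‖z‖ ≤ (1 - c) * (1 + δ) := mul_le_mul_of_nonneg_left hz (by linarith)
      _ = δ := by rw [sub_mul, hcδ]; ring
      _ ≤ 1 / 64 := hδ1
  calc ‖z - g‖ = ‖(z - (c : 𝕜) • z) + ((c : 𝕜) • z - g)‖ := by rw [sub_add_sub_cancel]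
    _ ≤ ‖z - (c : 𝕜) • z‖ + ‖(c : 𝕜) • z - g‖ := norm_add_le _ _
    _ ≤ 3 / 64 := by linarith

/-- the target is near to `θ f` -/
theorem factG {δ : ℝ} (hδ1 : δ ≤ 1 / 64) {f u : X →L[𝕜] 𝕜} {β : ℝ} {θ : 𝕜} (hlo : 1 - δ ≤ ‖f‖)
    (hhi : ‖f‖ ≤ 1 + δ) (hu : ‖u‖ ≤ 1 / 16) (hβ : 0 ≤ β) (hy : ‖u + (β : 𝕜) • f‖ = 1)
    (hθ : ‖θ‖ = 1) : ‖θ • f - θ • (u + (β : 𝕜) • f)‖ ≤ 9 / 64 := by
  have hb : ‖(β : 𝕜) • f‖ = β * ‖f‖ := by
    rw [norm_smul, RCLike.norm_ofReal, abs_of_nonneg hβ]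
  have e : (β : 𝕜) • f = (u + (β : 𝕜) • f) - u := by rw [add_sub_cancel_left]
  have h1 : β * ‖f‖ ≤ 17 / 16 := by
    rw [← hb, e]
    exact (norm_sub_le _ _).trans (by rw [hy]; linarith)
  have h2 : 15 / 16 ≤ β * ‖f‖ := by
    rw [← hb]
    have := norm_add_le u ((β : 𝕜) • f)
    rw [hy] at this
    linarith
  have h3 : ‖((1 - β : ℝ) : 𝕜) • f‖ ≤ 5 / 64 := by
    rw [norm_smul, RCLike.norm_ofReal]
    have : |1 - β| * ‖f‖ = |‖f‖ - β * ‖f‖| := by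
      have e3 : ‖f‖ - β * ‖f‖ = (1 - β) * ‖f‖ := by ring
      rw [e3, abs_mul, abs_of_nonneg (norm_nonneg f)]
    rw [this, abs_le]
    constructor <;> linarith
  have e2 : θ • f - θ • (u + (β : 𝕜) • f) = θ • (((1 - β : ℝ) : 𝕜) • f - u) := by
    ext w
    show θ * f w - θ * (u w + (β : 𝕜) * f w) = θ * (((1 - β : ℝ) : 𝕜) * f w - u w)
    rw [RCLike.ofReal_sub, RCLike.ofReal_one]
    ring
  rw [e2, norm_smul, hθ, one_mul]
  exact (norm_sub_le _ _).trans (by linarith)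

end NearAux

open NearAux in
theorem near {𝕜 : Type*} [RCLike 𝕜] {X : Type*} [NormedAddCommGroup X] [NormedSpace 𝕜 X]
    (h4 : StSeq4 𝕜 X) : StNear 𝕜 X := by
  intro κ hκ hκ1 hUC δ hδ hδ1 hδκ x ε hLD f hf G hG k hk n u β θ v hu hβ hy hθ hv hgv hkv
  set g : X →L[𝕜] 𝕜 := θ • (u + (β : 𝕜) • f n) with hgdef
  have hg : ‖g‖ = 1 := by rw [hgdef, norm_smul, hθ, hy, one_mul]
  have hgv' : 1 - κ ≤ RCLike.re (g v) := by
    have e : g v = θ * (u v + (β : 𝕜) * f n v) := rfl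
    rw [e]
    linarith
  have hF : ∀ z : X →L[𝕜] 𝕜, ‖z‖ ≤ 1 + δ → 1 - 3 * κ / 4 ≤ RCLike.re (z v) → ‖z - g‖ ≤ 3 / 64 :=
    fun z hz hzv => factF hκ hκ1 hUC hδ hδ1 hδκ hg hv hgv' hz hzv
  have hGf : ‖θ • f n - g‖ ≤ 9 / 64 := factG hδ1 (hf.lo n) (hf.hi n) hu hβ hy hθ
  have hkv' : 1 - 3 * κ / 4 ≤ RCLike.re (k v) := by linarith
  rcases hk with (hk | hk) | hk
  · -- `K0`
    exfalso
    obtain ⟨-, hk1, hk2⟩ := hk
    choose z hz1 hz2 hz3 hz4 using hk2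
    have hw : WTends z k := by
      refine h4 (δ / 16) x ε hLD (1 + δ) z k hz2 (fun N => ?_)
      filter_upwards [eventually_ge_atTop N] with m hm i hi
      exact (hz3 m i (lt_of_lt_of_le hi hm)).symm
    have hre : Tendsto (fun m => RCLike.re (z m v)) atTop (𝓝 (RCLike.re (k v))) :=
      (RCLike.continuous_re.tendsto _).comp (hw v)
    obtain ⟨m, hm⟩ := (hre.eventually (lt_mem_nhds (show 1 - 3 * κ / 4 < RCLike.re (k v) by
      linarith))).exists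
    have h1 := hF (z m) (hz2 m) hm.le
    have h2 := hz4 m n θ hθ
    have h3 : ‖z m - θ • f n‖ ≤ ‖z m - g‖ + ‖g - θ • f n‖ := norm_sub_le_norm_sub_add_norm_sub _ _ _
    rw [norm_sub_rev g] at h3
    linarith
  · -- `Om`
    exfalso
    have h1 := hF k (hk.2.trans (by linarith)) hkv'
    have h2 : ‖g‖ ≤ ‖k‖ + ‖k - g‖ := by
      calc ‖g‖ = ‖k - (k - g)‖ := by rw [sub_sub_cancel]
        _ ≤ _ := norm_sub_le _ _
    have h3 := hk.2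
    linarith
  · -- `Kn`
    rw [Set.mem_iUnion] at hk
    obtain ⟨m, hk⟩ := hk
    by_cases hmn : m = n
    · rw [← hmn]; exact hk
    · exfalso
      obtain ⟨w, hw, rfl, hk1⟩ := hk
      have h1 := hF _ hk1 hkv'
      obtain ⟨⟨N, hN⟩, -⟩ := hG.1 m
      have h2 : ‖w‖ ≤ 1 / 4 := (hN.1 hw).2
      have h3 := hf.sep m n hmn θ hθ
      have h4 : ‖f m - θ • f n‖ ≤ ‖f m + w - g‖ + ‖w‖ + ‖θ • f n - g‖ := by
        calc ‖f m - θ • f n‖ = ‖(f m + w - g) - w - (θ • f n - g)‖ := by congr 1; abel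
          _ ≤ ‖(f m + w - g) - w‖ + ‖θ • f n - g‖ := norm_sub_le _ _
          _ ≤ _ := by
            have := norm_sub_le (f m + w - g) w
            linarith
      linarith

end Pool.Agent.R286.IA
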