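import Pool.Agent.R286.IA.Stm

/-!
# The negative result, assembled from the pieces
-/

set_option autoImplicit false

open Filter Topology MeasureTheory

namespace Pool.Agent.R286.IA

namespace NegAux

variable {𝕜 : Type*} [RCLike 𝕜] {X : Type*} [NormedAddCommGroup X] [NormedSpace 𝕜 X]

theorem agr_mono {x : ℕ → X} {N M : ℕ} (h : N ≤ M) {w w' : X →L[𝕜] 𝕜} (H : Agr x M w w') :
    Agr x N w w' := fun i hi => H i (lt_of_lt_of_le hi h)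

theorem epsIsom_of {δ : ℝ} (hδ : 0 < δ) {K : Set (X →L[𝕜] 𝕜)} {T : X →L[𝕜] C(unitInterval, 𝕜)}
    {ι : (X →L[𝕜] 𝕜) → unitInterval} {k₁ k₂ : unitInterval → X →L[𝕜] 𝕜} {s : unitInterval → ℝ}
    (hT : Coded K T ι k₁ k₂ s) (hK : ∀ k ∈ K, ‖k‖ ≤ 1 + δ)
    (hn : ∀ y : X →L[𝕜] 𝕜, ‖y‖ = 1 → ∃ k ∈ K, ∃ θ : 𝕜, ‖θ‖ = 1 ∧ ‖k - θ • y‖ ≤ δ) :
    EpsIsom δ T := by
  intro v
  constructor
  · by_cases hv : v = 0
    · simp [hv]
    · obtain ⟨y, hy, hyv⟩ := exists_dual_vector 𝕜 v (by simpa using hv)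
      obtain ⟨k, hk, θ, hθ, hkθ⟩ := hn y hy
      have h1 : ‖k v - θ * y v‖ ≤ δ * ‖v‖ := by
        have := (k - θ • y).le_opNorm v
        simp only [ContinuousLinearMap.sub_apply, ContinuousLinearMap.smul_apply, smul_eq_mul]
          at this
        exact this.trans (mul_le_mul_of_nonneg_right hkθ (norm_nonneg _))
      have h2 : ‖θ * y v‖ = ‖v‖ := by
        rw [norm_mul, hθ, hyv, one_mul]
        simp
      have h3 : ‖v‖ - δ * ‖v‖ ≤ ‖k v‖ := by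
        have := norm_sub_norm_le (θ * y v) (k v)
        rw [norm_sub_rev] at this
        linarith
      have h4 : ‖T v (ι k)‖ ≤ ‖T v‖ := (T v).norm_coe_le_norm (ι k)
      rw [hT.val k hk v] at h4
      linarith
  · rw [ContinuousMap.norm_le _ (by positivity)]
    intro t
    rw [hT.eq t v]
    have h1 : ‖k₁ t v‖ ≤ (1 + δ) * ‖v‖ :=
      ((k₁ t).le_opNorm v).trans (mul_le_mul_of_nonneg_right (hK _ (hT.mem1 t)) (norm_nonneg _))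
    have h2 : ‖k₂ t v‖ ≤ (1 + δ) * ‖v‖ :=
      ((k₂ t).le_opNorm v).trans (mul_le_mul_of_nonneg_right (hK _ (hT.mem2 t)) (norm_nonneg _))
    have hs0 := hT.s0 t
    have hs1 := hT.s1 t
    calc ‖((1 - s t : ℝ) : 𝕜) * k₁ t v + ((s t : ℝ) : 𝕜) * k₂ t v‖
        ≤ ‖((1 - s t : ℝ) : 𝕜) * k₁ t v‖ + ‖((s t : ℝ) : 𝕜) * k₂ t v‖ := norm_add_le _ _
      _ = (1 - s t) * ‖k₁ t v‖ + s t * ‖k₂ t v‖ := by
          rw [norm_mul, norm_mul, RCLike.norm_ofReal, RCLike.norm_ofReal, abs_of_nonneg hs0,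
            abs_of_nonneg (by linarith)]
      _ ≤ (1 - s t) * ((1 + δ) * ‖v‖) + s t * ((1 + δ) * ‖v‖) := by
          gcongr
      _ = (1 + δ) * ‖v‖ := by ring

end NegAux

open NegAux

theorem neg {𝕜 : Type*} [RCLike 𝕜] {X : Type*} [NormedAddCommGroup X] [NormedSpace 𝕜 X]
    (hU : StUC 𝕜 X) (hS : StSep 𝕜 X) (h4 : StSeq4 𝕜 X) (hLat : StLat 𝕜 X) (hFn : StFn 𝕜 X)
    (hEn : StEnum 𝕜 X) (hB : StBuild 𝕜 X) (hK : StKset 𝕜 X) (hHn : StHitn 𝕜 X)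
    (hL : StLim 𝕜 X) (hC : StContr 𝕜 X) : StNeg 𝕜 X := by
  rintro hUS hsep hinf ⟨δf, -, htend, happ⟩
  have hall := hU hUS
  obtain ⟨κ, hκ0, hκ1, hκ⟩ := hall (1 / 32) (by norm_num)
  have sepY := hS hall hsep
  obtain ⟨δ, hδ, hδ64, hδκ, hδf⟩ : ∃ δ : ℝ, 0 < δ ∧ δ ≤ 1 / 64 ∧ δ ≤ κ / 8 ∧ δf δ ≤ κ / 8 := by
    have e1 : ∀ᶠ ε in 𝓝[>] (0 : ℝ), δf ε < κ / 8 := htend (Iio_mem_nhds (by positivity))
    have e2 : ∀ᶠ ε in 𝓝[>] (0 : ℝ), ε < min (1 / 64) (κ / 8) :=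
      mem_nhdsWithin_of_mem_nhds (Iio_mem_nhds (by positivity))
    have e3 : ∀ᶠ ε in 𝓝[>] (0 : ℝ), 0 < ε := self_mem_nhdsWithin
    obtain ⟨ε, he1, he2, he3⟩ := (e1.and (e2.and e3)).exists
    have := lt_min_iff.1 he2
    exact ⟨ε, he3, this.1.le, this.2.le, he1.le⟩
  obtain ⟨x, ε, hD⟩ := hLat hsep hinf (δ / 16) (by positivity)
  obtain ⟨f, hf⟩ := hFn hinf δ hδ hδ64 x ε hD
  obtain ⟨G, hG⟩ := hEn δ hδ hδ64 x ε hD
  obtain ⟨h0, hmem, hcl, hnet⟩ := hK δ hδ hδ64 x ε hD f hf G hG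
  obtain ⟨T, ι, k₁, k₂, s, hT⟩ := hB hsep (δ / 16) x ε hD (KK δ x ε f G) ⟨0, h0⟩
    (fun k hk => ⟨(hmem k hk).1, by linarith [(hmem k hk).2]⟩) hcl
  have hiso : EpsIsom δ T := epsIsom_of hδ hT (fun k hk => (hmem k hk).2) hnet
  obtain ⟨V, hV, hTV⟩ := happ δ hδ (by linarith) T hiso
  have hTV' : ‖T - V‖ ≤ κ / 8 := hTV.trans hδf
  -- a unit functional
  obtain ⟨u₀, hu₀⟩ : ∃ u₀ : X →L[𝕜] 𝕜, ‖u₀‖ = 1 := by
    have hne : ∃ v : X, v ≠ 0 := by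
      by_contra hcon
      push Not at hcon
      have : Subsingleton X := ⟨fun a b => by rw [hcon a, hcon b]⟩
      exact hinf inferInstance
    obtain ⟨v, hv⟩ := hne
    obtain ⟨y, hy, -⟩ := exists_dual_vector 𝕜 v (by simpa using hv)
    exact ⟨y, hy⟩
  obtain ⟨v₀, hv₀⟩ : ∃ v, u₀ v ≠ 0 := by
    by_contra hcon
    push Not at hcon
    have : u₀ = 0 := by ext v; simpa using hcon v
    rw [this, norm_zero] at hu₀
    exact zero_ne_one hu₀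
  let E : ℝ → Set (X →L[𝕜] 𝕜) := fun r =>
    {ω | ω ∈ Om 𝕜 x ε ∧ ∃ θ : 𝕜, ‖θ‖ = 1 ∧ ∀ v, V v (ι ω) = θ * (((r : 𝕜) • u₀) v)}
  refine hC hsep sepY δ hδ hδ64 x ε hD E (fun r hr0 hr1 => ⟨fun ω hω => hω.1, ?_, ?_⟩) ?_
  · intro c hc hcE
    choose e he hec using hcE
    have hW : WTends e c := by
      refine h4 (δ / 16) x ε hD (1 / 4) e c (fun n => (he n).1.2) (fun N => ?_)
      filter_upwards [eventually_ge_atTop N] with n hn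
      exact agr_mono hn (hec n)
    have hOmK : ∀ ω ∈ Om 𝕜 x ε, ω ∈ KK δ x ε f G := fun ω hω => Or.inl (Or.inr hω)
    have hι : Tendsto (fun n => ι (e n)) atTop (𝓝 (ι c)) :=
      hT.cont e c (fun n => hOmK _ (he n).1) (hOmK c hc) hW
    have hθ : ∀ n, ∃ θ : 𝕜, ‖θ‖ = 1 ∧ ∀ v, V v (ι (e n)) = θ * (((r : 𝕜) • u₀) v) :=
      fun n => (he n).2
    choose θ hθ1 hθv using hθ
    obtain ⟨θ', hθ', φ, hφ, hlim⟩ := (isCompact_sphere (0 : 𝕜) 1).tendsto_subseq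
      (x := θ) (fun n => by simpa using hθ1 n)
    refine ⟨hc, θ', by simpa using hθ', fun v => ?_⟩
    have t1 : Tendsto (fun n => V v (ι (e (φ n)))) atTop (𝓝 (V v (ι c))) :=
      ((V v).continuous.tendsto _).comp (hι.comp hφ.tendsto_atTop)
    have t2 : Tendsto (fun n => V v (ι (e (φ n)))) atTop (𝓝 (θ' * (((r : 𝕜) • u₀) v))) := by
      have : (fun n => V v (ι (e (φ n)))) = fun n => θ (φ n) * (((r : 𝕜) • u₀) v) := by
        funext n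
        exact hθv (φ n) v
      rw [this]
      exact hlim.mul_const _
    exact tendsto_nhds_unique t1 t2
  · intro N H hH hg
    have hu : ‖((r : 𝕜) • u₀ : X →L[𝕜] 𝕜)‖ ≤ 1 / 16 := by
      rw [norm_smul, hu₀, mul_one, RCLike.norm_ofReal, abs_of_pos hr0]
      exact hr1
    obtain ⟨ω, hω, θ, hθ, hθv⟩ := hL hsep δ hδ hδ64 x ε hD f hf G hG T ι k₁ k₂ s hT V
      ((r : 𝕜) • u₀) (fun n => hHn κ hκ0 hκ1 hκ δ hδ hδ64 hδκ x ε hD f hf G hG T ι k₁ k₂ s hT V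
        hV hTV' ((r : 𝕜) • u₀) hu n) N H hH hg
    exact ⟨ω, hω, hH.1 hω, θ, hθ, hθv⟩
  · intro r r' hr0 hr1 hr0' hr1' hne
    rw [Set.disjoint_left]
    rintro ω ⟨-, θ, hθ, hθv⟩ ⟨-, θ', hθ', hθv'⟩
    have h := (hθv v₀).symm.trans (hθv' v₀)
    have h2 := congrArg norm h
    simp only [ContinuousLinearMap.smul_apply, smul_eq_mul, norm_mul, hθ, hθ',
      RCLike.norm_ofReal, one_mul, abs_of_pos hr0, abs_of_pos hr0'] at h2
    exact hne (mul_right_cancel₀ (norm_ne_zero_iff.2 hv₀) h2)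

end Pool.Agent.R286.IA
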