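import Pool.Agent.R286.IA.Stm

/-! PEANO: a continuous surjection of `[0,1]` onto the unit ball of the dual. -/

set_option autoImplicit false

open Filter Topology

namespace Pool.Agent.R286.IA

theorem peano {𝕜 : Type*} [RCLike 𝕜] {X : Type*} [NormedAddCommGroup X] [NormedSpace 𝕜 X] :
    StPeano 𝕜 X := by
  intro hX
  have : FiniteDimensional 𝕜 (X →L[𝕜] 𝕜) := inferInstance
  have : ProperSpace (X →L[𝕜] 𝕜) := FiniteDimensional.proper 𝕜 _
  have : CompactSpace (Metric.closedBall (0 : X →L[𝕜] 𝕜) 1) :=
    isCompact_iff_compactSpace.1 (isCompact_closedBall _ _)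
  have : Nonempty (Metric.closedBall (0 : X →L[𝕜] 𝕜) 1) := ⟨⟨0, by simp⟩⟩
  obtain ⟨f, hf, hfs⟩ := exists_nat_bool_continuous_surjective_of_compact
    (Metric.closedBall (0 : X →L[𝕜] 𝕜) 1)
  let c : C(cantorSet, Metric.closedBall (0 : X →L[𝕜] 𝕜) 1) :=
    ⟨fun x => f (cantorSetHomeomorphNatToBool x), hf.comp cantorSetHomeomorphNatToBool.continuous⟩
  let e : cantorSet → unitInterval := fun x => ⟨x.1, cantorSet_subset_unitInterval x.2⟩
  have hec : Continuous e := by
    apply Continuous.subtype_mk
    exact continuous_subtype_val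
  have : CompactSpace cantorSet := isCompact_iff_compactSpace.1 isCompact_cantorSet
  have he : IsClosedEmbedding e := by
    apply hec.isClosedEmbedding
    intro a b hab
    apply Subtype.ext
    exact congrArg (fun z : unitInterval => z.1) hab
  have : TietzeExtension (Metric.closedBall (0 : X →L[𝕜] 𝕜) 1) :=
    Set.instTietzeExtensionUnitClosedBall (𝕜 := 𝕜)
  obtain ⟨g, hg⟩ := c.exists_extension' he
  refine ⟨fun t => (g t).1, continuous_subtype_val.comp g.continuous, ?_, ?_⟩
  · intro t
    exact mem_closedBall_zero_iff.1 (g t).2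
  · intro y hy
    obtain ⟨s, hs⟩ := hfs ⟨y, mem_closedBall_zero_iff.2 hy⟩
    refine ⟨e (cantorSetHomeomorphNatToBool.symm s), ?_⟩
    have h1 : g (e (cantorSetHomeomorphNatToBool.symm s)) =
        c (cantorSetHomeomorphNatToBool.symm s) := congrFun hg _
    change (g (e (cantorSetHomeomorphNatToBool.symm s))).1 = y
    rw [h1]
    change (f (cantorSetHomeomorphNatToBool (cantorSetHomeomorphNatToBool.symm s))).1 = y
    rw [Homeomorph.apply_symm_apply, hs]

end Pool.Agent.R286.IA
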