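import Pool.Agent.R286.IA.Stm

/-!
# Piece POS1: approximation in finite dimensions (helper619 for helper286)
-/

set_option autoImplicit false

open Filter Topology

namespace Pool.Agent.R286.IA

namespace Pos1x

section retract

variable {𝕜 : Type*} [RCLike 𝕜] {Y : Type*} [NormedAddCommGroup Y] [NormedSpace 𝕜 Y]

/-- the retraction of `y` onto the ball of radius `r` around `c` -/
noncomputable def R (𝕜 : Type*) [RCLike 𝕜] {Y : Type*} [NormedAddCommGroup Y] [NormedSpace 𝕜 Y]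
    (r : ℝ) (c y : Y) : Y :=
  c + ((r / max r ‖y - c‖ : ℝ) : 𝕜) • (y - c)

theorem lam_bd {r s : ℝ} (hr : 0 < r) : 0 ≤ r / max r s ∧ r / max r s ≤ 1 ∧
    r / max r s * s ≤ r := by
  have hm : 0 < max r s := lt_of_lt_of_le hr (le_max_left _ _)
  refine ⟨by positivity, ?_, ?_⟩
  · rw [div_le_one hm]
    exact le_max_left _ _
  · rw [div_mul_eq_mul_div, div_le_iff₀ hm]
    exact mul_le_mul_of_nonneg_left (le_max_right _ _) hr.le

theorem R_sub {r : ℝ} (hr : 0 < r) (c y : Y) : ‖R 𝕜 r c y - c‖ ≤ r := by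
  unfold R
  obtain ⟨h0, h1, h2⟩ := lam_bd (r := r) (s := ‖y - c‖) hr
  rw [add_sub_cancel_left, norm_smul, RCLike.norm_ofReal, abs_of_nonneg h0]
  exact h2

theorem R_eq {r : ℝ} (hr : 0 < r) {c y : Y} (h : ‖y - c‖ ≤ r) : R 𝕜 r c y = y := by
  unfold R
  rw [max_eq_left h, div_self hr.ne', RCLike.ofReal_one, one_smul]
  abel

theorem R_norm {r : ℝ} (hr : 0 < r) {c y : Y} (hc : ‖c‖ ≤ 1) (hy : ‖y‖ ≤ 1) :
    ‖R 𝕜 r c y‖ ≤ 1 := by
  obtain ⟨h0, h1, h2⟩ := lam_bd (r := r) (s := ‖y - c‖) hr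
  have h : R 𝕜 r c y = ((1 - r / max r ‖y - c‖ : ℝ) : 𝕜) • c +
      ((r / max r ‖y - c‖ : ℝ) : 𝕜) • y := by
    unfold R
    rw [RCLike.ofReal_sub, RCLike.ofReal_one, sub_smul, one_smul, smul_sub]
    abel
  rw [h]
  refine (norm_add_le _ _).trans ?_
  rw [norm_smul, norm_smul, RCLike.norm_ofReal, RCLike.norm_ofReal, abs_of_nonneg h0,
    abs_of_nonneg (by linarith)]
  nlinarith

theorem R_cont {A : Type*} [TopologicalSpace A] {r : ℝ} (hr : 0 < r) {c y : A → Y}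
    (hc : Continuous c) (hy : Continuous y) : Continuous (fun t => R 𝕜 r (c t) (y t)) := by
  unfold R
  refine hc.add (Continuous.smul ?_ (hy.sub hc))
  refine RCLike.continuous_ofReal.comp ?_
  refine Continuous.div continuous_const (continuous_const.max (hy.sub hc).norm) ?_
  intro t
  have : 0 < max r ‖y t - c t‖ := lt_of_lt_of_le hr (le_max_left _ _)
  exact this.ne'

end retract

/-- the oscillating function -/
noncomputable def hh (N : ℕ) (t : unitInterval) : unitInterval :=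
  ⟨(1 - Real.cos (2 * Real.pi * N * (t : ℝ))) / 2, by
    constructor
    · have := Real.cos_le_one (2 * Real.pi * N * (t : ℝ))
      linarith
    · have := Real.neg_one_le_cos (2 * Real.pi * N * (t : ℝ))
      linarith⟩

theorem hh_cont (N : ℕ) : Continuous (hh N) := by
  unfold hh
  refine Continuous.subtype_mk ?_ _
  fun_prop

theorem exists_cell {N : ℕ} (hN : 1 ≤ N) (t : unitInterval) :
    ∃ i : ℕ, i < N ∧ (i : ℝ) / N ≤ t ∧ (t : ℝ) ≤ (i + 1) / N := by
  have hN' : (0 : ℝ) < N := by exact_mod_cast hN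
  have ht0 := t.2.1
  have ht1 := t.2.2
  by_cases h : (t : ℝ) < 1
  · refine ⟨⌊(N : ℝ) * t⌋₊, ?_, ?_, ?_⟩
    · rw [Nat.floor_lt (by positivity)]
      nlinarith
    · rw [div_le_iff₀ hN']
      have := Nat.floor_le (show (0 : ℝ) ≤ (N : ℝ) * t by positivity)
      linarith
    · rw [le_div_iff₀ hN']
      have := (Nat.lt_floor_add_one ((N : ℝ) * t)).le
      linarith
  · have h1 : (t : ℝ) = 1 := le_antisymm ht1 (not_lt.1 h)
    refine ⟨N - 1, by omega, ?_, ?_⟩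
    · rw [h1, div_le_one hN']
      exact_mod_cast Nat.sub_le N 1
    · rw [h1, le_div_iff₀ hN', Nat.cast_sub hN]
      push_cast
      linarith

theorem hit {N : ℕ} (hN : 1 ≤ N) (t a : unitInterval) :
    ∃ t' : unitInterval, |(t : ℝ) - t'| ≤ 1 / N ∧ hh N t' = a := by
  obtain ⟨i, hi, h1, h2⟩ := exists_cell hN t
  have hN' : (0 : ℝ) < N := by exact_mod_cast hN
  have ha0 := a.2.1
  have ha1 := a.2.2
  set α := Real.arccos (1 - 2 * (a : ℝ)) with hα
  have hα0 : 0 ≤ α := Real.arccos_nonneg _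
  have hα1 : α ≤ Real.pi := Real.arccos_le_pi _
  have hcos : Real.cos α = 1 - 2 * (a : ℝ) := Real.cos_arccos (by linarith) (by linarith)
  have hpi := Real.pi_pos
  set β := α / (2 * Real.pi) with hβ
  have hβ0 : 0 ≤ β := by positivity
  have hβ1 : β ≤ 1 := by
    rw [hβ, div_le_one (by positivity)]
    linarith
  have hiN : (i : ℝ) + 1 ≤ N := by exact_mod_cast hi
  have ht' : ((i : ℝ) + β) / N ∈ unitInterval := by
    constructor
    · positivity
    · rw [div_le_one hN']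
      linarith
  refine ⟨⟨((i : ℝ) + β) / N, ht'⟩, ?_, ?_⟩
  · show |(t : ℝ) - ((i : ℝ) + β) / N| ≤ 1 / N
    rw [div_le_iff₀ hN'] at h1
    rw [le_div_iff₀ hN'] at h2
    rw [abs_le]
    constructor
    · rw [neg_le_sub_iff_le_add, div_le_iff₀ hN']
      have : ((t : ℝ) + 1 / N) * N = t * N + 1 := by field_simp
      linarith
    · rw [sub_le_iff_le_add, ← add_div, le_div_iff₀ hN']
      linarith
  · apply Subtype.ext
    show (1 - Real.cos (2 * Real.pi * N * (((i : ℝ) + β) / N))) / 2 = a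
    have h3 : 2 * Real.pi * N * (((i : ℝ) + β) / N) = α + i * (2 * Real.pi) := by
      rw [hβ]
      field_simp
      ring
    rw [h3, Real.cos_add_nat_mul_two_pi, hcos]
    ring

section

variable {𝕜 : Type*} [RCLike 𝕜] {X : Type*} [NormedAddCommGroup X] [NormedSpace 𝕜 X]

/-- the functional `v ↦ T v t` -/
noncomputable def ph (T : X →L[𝕜] C(unitInterval, 𝕜)) (t : unitInterval) : X →L[𝕜] 𝕜 :=
  (ContinuousMap.evalCLM 𝕜 t).comp T

theorem ph_apply (T : X →L[𝕜] C(unitInterval, 𝕜)) (t : unitInterval) (v : X) :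
    ph T t v = T v t := rfl

/-- the operator given by a continuous bounded family of functionals -/
theorem exists_op (ψ : unitInterval → X →L[𝕜] 𝕜) (hc : ∀ v, Continuous fun t => ψ t v)
    (hb : ∀ t, ‖ψ t‖ ≤ 1) : ∃ V : X →L[𝕜] C(unitInterval, 𝕜), ∀ v t, V v t = ψ t v := by
  refine ⟨LinearMap.mkContinuous
    { toFun := fun v => (⟨fun t => ψ t v, hc v⟩ : C(unitInterval, 𝕜))
      map_add' := fun v w => by ext t; simp
      map_smul' := fun a v => by ext t; simp } 1 ?_, fun v t => rfl⟩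
  intro v
  rw [one_mul, ContinuousMap.norm_le _ (norm_nonneg _)]
  intro t
  show ‖ψ t v‖ ≤ ‖v‖
  calc ‖ψ t v‖ ≤ ‖ψ t‖ * ‖v‖ := (ψ t).le_opNorm v
    _ ≤ 1 * ‖v‖ := mul_le_mul_of_nonneg_right (hb t) (norm_nonneg _)
    _ = ‖v‖ := one_mul _

theorem exists_max (f : C(unitInterval, 𝕜)) : ∃ t, ‖f‖ = ‖f t‖ := by
  obtain ⟨t, -, ht⟩ := isCompact_univ.exists_isMaxOn (Set.univ_nonempty (α := unitInterval))
    (f := fun t => ‖f t‖) (by fun_prop)
  refine ⟨t, le_antisymm ?_ (f.norm_coe_le_norm t)⟩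
  rw [ContinuousMap.norm_le _ (norm_nonneg _)]
  intro s
  exact ht (Set.mem_univ s)

end

end Pos1x

open Pos1x in
theorem pos1 {𝕜 : Type*} [RCLike 𝕜] {X : Type*} [NormedAddCommGroup X] [NormedSpace 𝕜 X]
    (hU : StUC 𝕜 X) (hP : StPeano 𝕜 X) : StPos1 𝕜 X := by
  intro hfd hsm η hη
  set η' : ℝ := min η 1 / 8 with hη'
  have hη'0 : 0 < η' := by positivity
  have hη'1 : 8 * η' ≤ η := by
    have := min_le_left η 1
    rw [hη']; linarith
  have hη'2 : η' ≤ 1 / 8 := by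
    have := min_le_right η 1
    rw [hη']; linarith
  obtain ⟨κ, hκ0, hκ1, hUC⟩ := hU hsm η' hη'0
  obtain ⟨g, hgc, hgn, hgs⟩ := hP hfd
  refine ⟨min (κ / 2) η', lt_min (by positivity) hη'0, ?_⟩
  intro ε hε0 hε T hT
  have hεκ : ε ≤ κ / 2 := hε.trans (min_le_left _ _)
  have hεη : ε ≤ η' := hε.trans (min_le_right _ _)
  have hε1 : 0 < 1 + ε := by linarith
  -- the functionals
  have hph : ∀ t, ‖ph T t‖ ≤ 1 + ε := by
    intro t
    refine ContinuousLinearMap.opNorm_le_bound _ hε1.le fun v => ?_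
    rw [ph_apply]
    exact ((T v).norm_coe_le_norm t).trans (hT v).2
  set φ : unitInterval → X →L[𝕜] 𝕜 := fun t => (((1 + ε)⁻¹ : ℝ) : 𝕜) • ph T t with hφ
  have hinv : (0 : ℝ) < (1 + ε)⁻¹ := inv_pos.2 hε1
  have hφn : ∀ t, ‖φ t‖ ≤ 1 := by
    intro t
    show ‖(((1 + ε)⁻¹ : ℝ) : 𝕜) • ph T t‖ ≤ 1
    rw [norm_smul, RCLike.norm_ofReal, abs_of_pos hinv]
    calc (1 + ε)⁻¹ * ‖ph T t‖ ≤ (1 + ε)⁻¹ * (1 + ε) :=
          mul_le_mul_of_nonneg_left (hph t) hinv.le
      _ = 1 := inv_mul_cancel₀ hε1.ne'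
  have hφd : ∀ t, ‖ph T t - φ t‖ ≤ ε := by
    intro t
    have h1 : ph T t - φ t = ((1 - (1 + ε)⁻¹ : ℝ) : 𝕜) • ph T t := by
      ext w
      show ph T t w - (((1 + ε)⁻¹ : ℝ) : 𝕜) * ph T t w = ((1 - (1 + ε)⁻¹ : ℝ) : 𝕜) * ph T t w
      rw [RCLike.ofReal_sub, RCLike.ofReal_one, sub_mul, one_mul]
    have h2 : (1 + ε)⁻¹ ≤ 1 := by
      rw [inv_le_one₀ hε1]
      linarith
    rw [h1, norm_smul, RCLike.norm_ofReal, abs_of_nonneg (by linarith)]
    calc (1 - (1 + ε)⁻¹) * ‖ph T t‖ ≤ (1 - (1 + ε)⁻¹) * (1 + ε) :=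
          mul_le_mul_of_nonneg_left (hph t) (by linarith)
      _ = ε := by field_simp; ring
  have hφc : Continuous φ := by
    rw [continuous_clm_apply]
    intro v
    show Continuous fun t => (((1 + ε)⁻¹ : ℝ) : 𝕜) • (T v t)
    fun_prop
  -- uniform continuity
  obtain ⟨d, hd0, hd⟩ := Metric.uniformContinuous_iff.1
    (CompactSpace.uniformContinuous_of_continuous hφc) η' hη'0
  obtain ⟨N, hN⟩ := exists_nat_gt (1 / d)
  have hNpos : (0 : ℝ) < N := lt_trans (by positivity) hN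
  have hN1 : 1 ≤ N := by exact_mod_cast hNpos
  have hNd : 1 / (N : ℝ) < d := by
    rw [div_lt_iff₀ hNpos]
    rw [div_lt_iff₀ hd0] at hN
    linarith
  have hr : 0 < 3 * η' := by positivity
  set ψ : unitInterval → X →L[𝕜] 𝕜 := fun t => R 𝕜 (3 * η') (φ t) (g (hh N t)) with hψ
  have hψc : Continuous ψ := R_cont hr hφc (hgc.comp (hh_cont N))
  have hψn : ∀ t, ‖ψ t‖ ≤ 1 := fun t => R_norm hr (hφn t) (hgn _)
  obtain ⟨V, hV⟩ := exists_op ψ (fun v => (continuous_clm_apply.1 hψc) v) hψn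
  have hVle : ∀ v, ‖V v‖ ≤ ‖v‖ := by
    intro v
    rw [ContinuousMap.norm_le _ (norm_nonneg _)]
    intro t
    rw [hV]
    calc ‖ψ t v‖ ≤ ‖ψ t‖ * ‖v‖ := (ψ t).le_opNorm v
      _ ≤ 1 * ‖v‖ := mul_le_mul_of_nonneg_right (hψn t) (norm_nonneg _)
      _ = ‖v‖ := one_mul _
  have hVge : ∀ v, ‖v‖ ≤ ‖V v‖ := by
    intro v
    by_cases hv : v = 0
    · rw [hv, norm_zero]
      exact norm_nonneg _
    have hv0 : ‖v‖ ≠ 0 := norm_ne_zero_iff.2 hv
    have hvp : 0 < ‖v‖ := norm_pos_iff.2 hv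
    obtain ⟨y, hy1, hyv⟩ := exists_dual_vector 𝕜 v hv0
    set x : X := ((‖v‖⁻¹ : ℝ) : 𝕜) • v with hx
    have hx1 : ‖x‖ = 1 := by
      rw [hx, norm_smul, RCLike.norm_ofReal, abs_of_pos (inv_pos.2 hvp)]
      exact inv_mul_cancel₀ hv0
    have hyx : y x = 1 := by
      rw [hx, map_smul, hyv, smul_eq_mul, ← RCLike.ofReal_mul, inv_mul_cancel₀ hv0,
        RCLike.ofReal_one]
    have hTx : 1 - ε ≤ ‖T x‖ := by
      have := (hT x).1
      rwa [hx1, mul_one] at this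
    obtain ⟨t, ht⟩ := exists_max (T x)
    set z : 𝕜 := T x t with hz
    have hzn : 1 - ε ≤ ‖z‖ := by rw [← ht]; exact hTx
    have hzp : 0 < ‖z‖ := by linarith
    have hz0 : z ≠ 0 := norm_pos_iff.1 hzp
    set θ : 𝕜 := ((‖z‖ : ℝ) : 𝕜) / z with hθ
    have hθn : ‖θ‖ = 1 := by
      rw [hθ, norm_div, RCLike.norm_ofReal, abs_of_pos hzp]
      exact div_self hzp.ne'
    have hθ0 : θ ≠ 0 := by
      rw [← norm_pos_iff, hθn]
      exact one_pos
    have hθz : θ * z = ((‖z‖ : ℝ) : 𝕜) := by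
      rw [hθ]
      field_simp
    have h1 : ‖θ • φ t - y‖ ≤ η' := by
      apply hUC (θ • φ t) y x _ hy1.le hx1
      · have h2 : (θ • φ t) x = (((1 + ε)⁻¹ * ‖z‖ : ℝ) : 𝕜) := by
          show θ * ((((1 + ε)⁻¹ : ℝ) : 𝕜) * (T x t)) = _
          rw [RCLike.ofReal_mul, ← hθz]
          ring
        rw [h2, RCLike.ofReal_re]
        have h3 : (1 + ε)⁻¹ * (1 - ε) ≤ (1 + ε)⁻¹ * ‖z‖ :=
          mul_le_mul_of_nonneg_left hzn hinv.le
        have h4 : 1 - 2 * ε ≤ (1 + ε)⁻¹ * (1 - ε) := by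
          rw [inv_mul_eq_div, le_div_iff₀ hε1]
          nlinarith
        linarith
      · rw [hyx, RCLike.one_re]
        linarith
      · rw [norm_smul, hθn, one_mul]
        exact hφn t
    set y' : X →L[𝕜] 𝕜 := θ⁻¹ • y with hy'
    have hy'1 : ‖y'‖ = 1 := by
      rw [hy', norm_smul, norm_inv, hθn, inv_one, one_mul, hy1]
    have h5 : ‖φ t - y'‖ ≤ η' := by
      have h6 : φ t - y' = θ⁻¹ • (θ • φ t - y) := by
        rw [smul_sub, smul_smul, inv_mul_cancel₀ hθ0, one_smul]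
      rw [h6, norm_smul, norm_inv, hθn, inv_one, one_mul]
      exact h1
    obtain ⟨a, ha⟩ := hgs y' hy'1.le
    obtain ⟨t', ht', hta⟩ := hit hN1 t a
    have h7 : ‖φ t - φ t'‖ < η' := by
      rw [← dist_eq_norm]
      apply hd
      rw [Subtype.dist_eq, Real.dist_eq]
      exact lt_of_le_of_lt ht' hNd
    have h8 : ‖y' - φ t'‖ ≤ 3 * η' := by
      have h9 : y' - φ t' = (φ t - φ t') - (φ t - y') := by abel
      rw [h9]
      refine (norm_sub_le _ _).trans ?_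
      linarith
    have h10 : ψ t' = y' := by
      show R 𝕜 (3 * η') (φ t') (g (hh N t')) = y'
      rw [hta, ha]
      exact R_eq hr h8
    calc ‖v‖ = ‖y' v‖ := by
          show ‖v‖ = ‖θ⁻¹ * y v‖
          rw [norm_mul, norm_inv, hθn, inv_one, one_mul, hyv, RCLike.norm_ofReal,
            abs_of_pos hvp]
      _ = ‖V v t'‖ := by rw [hV, h10]
      _ ≤ ‖V v‖ := (V v).norm_coe_le_norm t'
  refine ⟨V, fun v => ⟨?_, ?_⟩, ?_⟩
  · rw [sub_zero, one_mul]
    exact hVge v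
  · rw [add_zero, one_mul]
    exact hVle v
  · refine ContinuousLinearMap.opNorm_le_bound _ hη.le fun v => ?_
    rw [ContinuousMap.norm_le _ (by positivity)]
    intro t
    show ‖T v t - V v t‖ ≤ η * ‖v‖
    have h1 : T v t - V v t = (ph T t - ψ t) v := by
      rw [hV]
      rfl
    have h2 : ‖ph T t - ψ t‖ ≤ η := by
      have h3 : ph T t - ψ t = (ph T t - φ t) - (ψ t - φ t) := by abel
      rw [h3]
      refine (norm_sub_le _ _).trans ?_
      have h4 := hφd t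
      have h5 : ‖ψ t - φ t‖ ≤ 3 * η' := R_sub hr _ _
      linarith
    rw [h1]
    exact ((ph T t - ψ t).le_opNorm v).trans (mul_le_mul_of_nonneg_right h2 (norm_nonneg _))

end Pool.Agent.R286.IA
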