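import Pool.Agent.R286.IA.Stm

/-!
# POS2 and NONSEP
-/

set_option autoImplicit false

open Filter Topology MeasureTheory

namespace Pool.Agent.R286.IA

namespace Pos2aux

variable {𝕜 : Type*} [RCLike 𝕜] {X : Type*} [NormedAddCommGroup X] [NormedSpace 𝕜 X]

/-- the operator of evaluation at the points of a curve in the dual ball -/
noncomputable def evalOp (g : unitInterval → X →L[𝕜] 𝕜) (hg : Continuous g)
    (hg1 : ∀ t, ‖g t‖ ≤ 1) : X →L[𝕜] C(unitInterval, 𝕜) :=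
  LinearMap.mkContinuous
    { toFun := fun v => ⟨fun t => g t v, hg.clm_apply continuous_const⟩
      map_add' := fun v w => by
        ext t
        exact map_add (g t) v w
      map_smul' := fun c v => by
        ext t
        exact map_smul (g t) c v } 1 (by
    intro v
    rw [ContinuousMap.norm_le _ (by positivity)]
    intro t
    exact (g t).le_of_opNorm_le (hg1 t) v)

theorem evalOp_apply (g : unitInterval → X →L[𝕜] 𝕜) (hg : Continuous g)
    (hg1 : ∀ t, ‖g t‖ ≤ 1) (v : X) (t : unitInterval) : evalOp g hg hg1 v t = g t v := rfl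

theorem evalOp_isom (g : unitInterval → X →L[𝕜] 𝕜) (hg : Continuous g)
    (hg1 : ∀ t, ‖g t‖ ≤ 1) (hs : ∀ y : X →L[𝕜] 𝕜, ‖y‖ ≤ 1 → ∃ t, g t = y) :
    EpsIsom 0 (evalOp g hg hg1) := by
  intro v
  constructor
  · obtain ⟨y, hy, hyv⟩ := exists_dual_vector'' 𝕜 v
    obtain ⟨t, ht⟩ := hs y hy
    have h1 := ContinuousMap.norm_coe_le_norm (evalOp g hg hg1 v) t
    rw [evalOp_apply, ht, hyv, RCLike.norm_ofReal, abs_norm] at h1
    linarith
  · rw [ContinuousMap.norm_le _ (by positivity)]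
    intro t
    rw [evalOp_apply]
    have := (g t).le_of_opNorm_le (hg1 t) v
    linarith

theorem norm_le_of_eps {ε : ℝ} (hε : 0 ≤ ε) {T : X →L[𝕜] C(unitInterval, 𝕜)} (hT : EpsIsom ε T) :
    ‖T‖ ≤ 1 + ε :=
  T.opNorm_le_bound (by linarith) fun x => (hT x).2

end Pos2aux

open Pos2aux

theorem pos2 {𝕜 : Type*} [RCLike 𝕜] {X : Type*} [NormedAddCommGroup X] [NormedSpace 𝕜 X]
    (hP : StPeano 𝕜 X) (h1 : StPos1 𝕜 X) : StPos2 𝕜 X := by
  intro hf hu
  obtain ⟨g, hg, hg1, hs⟩ := hP hf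
  have hV0 := evalOp_isom g hg hg1 hs
  obtain ⟨S, hS⟩ : ∃ S : ℝ → Set ℝ, ∀ ε c, c ∈ S ε ↔ (0 ≤ c ∧
      ∀ T : X →L[𝕜] C(unitInterval, 𝕜), EpsIsom ε T →
        ∃ V : X →L[𝕜] C(unitInterval, 𝕜), EpsIsom 0 V ∧ ‖T - V‖ ≤ c) :=
    ⟨fun ε => {c | 0 ≤ c ∧ ∀ T : X →L[𝕜] C(unitInterval, 𝕜), EpsIsom ε T →
        ∃ V : X →L[𝕜] C(unitInterval, 𝕜), EpsIsom 0 V ∧ ‖T - V‖ ≤ c}, fun _ _ => Iff.rfl⟩
  have h3 : ∀ ε : ℝ, 0 < ε → ε < 1 → (3 : ℝ) ∈ S ε := by
    intro ε h0 h1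
    rw [hS]
    refine ⟨by norm_num, fun T hT => ⟨_, hV0, ?_⟩⟩
    have e1 := norm_le_of_eps h0.le hT
    have e2 := norm_le_of_eps le_rfl hV0
    have e3 := norm_sub_le T (evalOp g hg hg1)
    linarith
  have hbdd : ∀ ε, BddBelow (S ε) := fun ε => ⟨0, fun c hc => ((hS ε c).1 hc).1⟩
  have hnn : ∀ ε, 0 ≤ sInf (S ε) := fun ε => Real.sInf_nonneg fun c hc => ((hS ε c).1 hc).1
  refine ⟨fun ε => sInf (S ε) + ε, fun ε h0 _ => ?_, ?_, ?_⟩
  · have := hnn ε
    change 0 ≤ sInf (S ε) + ε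
    linarith
  · rw [Metric.tendsto_nhdsWithin_nhds]
    intro η hη
    obtain ⟨ε₀, hε₀, hp⟩ := h1 hf hu (η / 2) (by linarith)
    refine ⟨min ε₀ (η / 2), lt_min hε₀ (by linarith), fun ε hε hd => ?_⟩
    have hε0 : (0 : ℝ) < ε := hε
    rw [Real.dist_eq, sub_zero, abs_of_pos hε0] at hd
    have hm : η / 2 ∈ S ε := by
      rw [hS]
      exact ⟨by linarith, fun T hT => hp ε hε0 (hd.le.trans (min_le_left _ _)) T hT⟩
    have h4 := csInf_le (hbdd ε) hm
    have h5 := hnn ε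
    have h6 := hd.trans_le (min_le_right _ _)
    rw [Real.dist_eq, sub_zero, abs_of_nonneg (by linarith)]
    linarith
  · intro ε h0 hlt T hT
    obtain ⟨c, hc, hlt2⟩ := exists_lt_of_csInf_lt ⟨3, h3 ε h0 hlt⟩
      (show sInf (S ε) < sInf (S ε) + ε by linarith)
    obtain ⟨V, hV, hTV⟩ := ((hS ε c).1 hc).2 T hT
    exact ⟨V, hV, hTV.trans hlt2.le⟩

theorem nonsep {𝕜 : Type*} [RCLike 𝕜] {X : Type*} [NormedAddCommGroup X] [NormedSpace 𝕜 X] :
    StNonsep 𝕜 X := by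
  intro hns
  refine ⟨fun _ => 0, fun _ _ _ => le_rfl, tendsto_const_nhds, ?_⟩
  intro ε h0 h1 T hT
  exfalso
  apply hns
  have ha : AntilipschitzWith (Real.toNNReal (1 - ε)⁻¹) T := by
    refine AddMonoidHomClass.antilipschitz_of_bound T fun x => ?_
    rw [Real.coe_toNNReal _ (by
      have : 0 < 1 - ε := by linarith
      positivity)]
    rw [inv_mul_eq_div, le_div_iff₀ (by linarith), mul_comm]
    exact (hT x).1
  have hemb : Topology.IsEmbedding T :=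
    (ha.isUniformEmbedding T.uniformContinuous).isEmbedding
  have : SecondCountableTopology X := hemb.secondCountableTopology
  infer_instance

end Pool.Agent.R286.IA
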