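import Pool.Agent.R286.IA.Stm

set_option autoImplicit false

open Filter Topology MeasureTheory

namespace Pool.Agent.R286.IA

namespace SepAux

variable {𝕜 : Type*} [RCLike 𝕜] {X : Type*} [NormedAddCommGroup X] [NormedSpace 𝕜 X]

/-- almost norming unit vectors -/
theorem exists_unit (f : X →L[𝕜] 𝕜) (hf : ‖f‖ = 1) (r : ℝ) (hr0 : 0 ≤ r) (hr : r < 1) :
    ∃ x : X, ‖x‖ = 1 ∧ r < RCLike.re (f x) := by
  obtain ⟨x, hx1, hx2⟩ := f.exists_lt_apply_of_lt_opNorm (r := r) (by rw [hf]; exact hr)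
  have hfx : 0 < ‖f x‖ := lt_of_le_of_lt hr0 hx2
  have hx0 : x ≠ 0 := by
    rintro rfl
    rw [map_zero, norm_zero] at hfx
    exact lt_irrefl _ hfx
  have hxn : 0 < ‖x‖ := norm_pos_iff.2 hx0
  set c : 𝕜 := ((‖x‖⁻¹ * ‖f x‖⁻¹ : ℝ) : 𝕜) * (starRingEnd 𝕜) (f x) with hc
  have hcn : ‖c‖ = ‖x‖⁻¹ := by
    rw [hc, norm_mul, RCLike.norm_conj, RCLike.norm_ofReal, abs_of_pos (by positivity)]
    field_simp
  refine ⟨c • x, ?_, ?_⟩
  · rw [norm_smul, hcn, inv_mul_cancel₀ hxn.ne']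
  · have h1 : f (c • x) = ((‖x‖⁻¹ * ‖f x‖ : ℝ) : 𝕜) := by
      rw [map_smul, smul_eq_mul, hc, mul_assoc, RCLike.conj_mul]
      push_cast
      have : ((‖f x‖ : ℝ) : 𝕜) ≠ 0 := by exact_mod_cast hfx.ne'
      field_simp
    rw [h1, RCLike.ofReal_re]
    have h2 : 1 ≤ ‖x‖⁻¹ := (one_le_inv₀ hxn).2 hx1.le
    nlinarith

end SepAux

theorem sep {𝕜 : Type*} [RCLike 𝕜] {X : Type*} [NormedAddCommGroup X] [NormedSpace 𝕜 X] :
    StSep 𝕜 X := by
  intro hUC hsep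
  rcases subsingleton_or_nontrivial X with hX | hX
  · have : Subsingleton (X →L[𝕜] 𝕜) := ⟨fun f g => by
      ext x
      rw [Subsingleton.elim x 0, map_zero, map_zero]⟩
    exact ⟨⟨Set.univ, Set.countable_univ, dense_univ⟩⟩
  obtain ⟨x0, hx0⟩ := exists_norm_ne_zero X
  have hne : Nonempty (Metric.sphere (0 : X) 1) := by
    refine ⟨⟨((‖x0‖⁻¹ : ℝ) : 𝕜) • x0, ?_⟩⟩
    rw [mem_sphere_zero_iff_norm, norm_smul, RCLike.norm_ofReal, abs_of_nonneg (by positivity),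
      inv_mul_cancel₀ hx0]
  have hsc : SecondCountableTopology X := UniformSpace.secondCountable_of_separable X
  have hsS : TopologicalSpace.SeparableSpace (Metric.sphere (0 : X) 1) := inferInstance
  obtain ⟨u, hu⟩ := TopologicalSpace.exists_dense_seq (Metric.sphere (0 : X) 1)
  have hg : ∀ n : ℕ, ∃ g : X →L[𝕜] 𝕜, ‖g‖ = 1 ∧ g (u n : X) = 1 := by
    intro n
    have hn : ‖(u n : X)‖ = 1 := mem_sphere_zero_iff_norm.1 (u n).2
    obtain ⟨g, h1, h2⟩ := exists_dual_vector 𝕜 (u n : X) (by rw [hn]; norm_num)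
    refine ⟨g, h1, ?_⟩
    rw [h2, hn]
    simp
  choose g hg1 hg2 using hg
  -- density in the unit sphere
  have key : ∀ f : X →L[𝕜] 𝕜, ‖f‖ = 1 → f ∈ closure (Set.range g) := by
    intro f hf
    rw [Metric.mem_closure_iff]
    intro η hη
    obtain ⟨κ, hκ0, hκ1, hκ⟩ := hUC (η / 2) (by positivity)
    obtain ⟨x, hx1, hx2⟩ := SepAux.exists_unit f hf (1 - κ / 2) (by linarith) (by linarith)
    obtain ⟨n, hn⟩ := Metric.denseRange_iff.1 hu ⟨x, mem_sphere_zero_iff_norm.2 hx1⟩ (κ / 2)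
      (by positivity)
    have hn' : ‖x - u n‖ < κ / 2 := by
      rw [← dist_eq_norm]
      exact hn
    refine ⟨g n, ⟨n, rfl⟩, ?_⟩
    rw [dist_eq_norm]
    refine lt_of_le_of_lt (hκ f (g n) (u n) hf.le (hg1 n).le
      (mem_sphere_zero_iff_norm.1 (u n).2) ?_ ?_) (by linarith)
    · have h1 : ‖f (x - u n)‖ ≤ κ / 2 := by
        refine (f.le_opNorm _).trans ?_
        rw [hf, one_mul]
        exact hn'.le
      have h2 : RCLike.re (f x) - RCLike.re (f (u n)) ≤ κ / 2 := by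
        rw [← map_sub, ← map_sub]
        exact (RCLike.re_le_norm _).trans h1
      linarith
    · rw [hg2 n, RCLike.one_re]
      linarith
  obtain ⟨c, hc⟩ := TopologicalSpace.exists_dense_seq 𝕜
  refine ⟨⟨Set.range (fun p : ℕ × ℕ => c p.1 • g p.2), Set.countable_range _, ?_⟩⟩
  intro y
  by_cases hy : y = 0
  · have h1 : (0 : 𝕜) • g 0 ∈ closure (Set.range (fun p : ℕ × ℕ => c p.1 • g p.2)) := by
      refine map_mem_closure₂ (s := Set.range c) (t := Set.range g) continuous_smul (hc 0)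
        (subset_closure ⟨0, rfl⟩) ?_
      rintro _ ⟨i, rfl⟩ _ ⟨j, rfl⟩
      exact ⟨(i, j), rfl⟩
    have e : (0 : 𝕜) • g 0 = (0 : X →L[𝕜] 𝕜) := by
      ext v
      simp
    rw [hy, ← e]
    exact h1
  · have hyn : 0 < ‖y‖ := norm_pos_iff.2 hy
    have h2 : ‖((‖y‖⁻¹ : ℝ) : 𝕜) • y‖ = 1 := by
      rw [norm_smul, RCLike.norm_ofReal, abs_of_pos (by positivity), inv_mul_cancel₀ hyn.ne']
    have h1 : ((‖y‖ : ℝ) : 𝕜) • (((‖y‖⁻¹ : ℝ) : 𝕜) • y) ∈
        closure (Set.range (fun p : ℕ × ℕ => c p.1 • g p.2)) := by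
      refine map_mem_closure₂ (s := Set.range c) (t := Set.range g) continuous_smul (hc _)
        (key _ h2) ?_
      rintro _ ⟨i, rfl⟩ _ ⟨j, rfl⟩
      exact ⟨(i, j), rfl⟩
    rw [smul_smul, ← RCLike.ofReal_mul, mul_inv_cancel₀ hyn.ne', RCLike.ofReal_one,
      one_smul] at h1
    exact h1

end Pool.Agent.R286.IA
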