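import Pool.Agent.R286.IA.Stm

set_option autoImplicit false

open Filter Topology MeasureTheory

namespace Pool.Agent.R286.IA

section SeqProofs

variable {𝕜 : Type*} [RCLike 𝕜] {X : Type*} [NormedAddCommGroup X] [NormedSpace 𝕜 X]

theorem seq1 : StSeq1 𝕜 X := by
  intro hsep R w hw
  haveI := hsep
  have hc := WeakDual.isSeqCompact_closedBall 𝕜 X (0 : StrongDual 𝕜 X) R
  have hmem : ∀ n, StrongDual.toWeakDual (w n) ∈
      (WeakDual.toStrongDual (𝕜 := 𝕜) (E := X) ⁻¹' Metric.closedBall (0 : StrongDual 𝕜 X) R) := by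
    intro n
    rw [Set.mem_preimage, mem_closedBall_zero_iff]
    exact hw n
  obtain ⟨a, -, φ, hφ, hlim⟩ := hc hmem
  refine ⟨WeakDual.toStrongDual a, φ, hφ, ?_⟩
  intro v
  have h := ((WeakDual.eval_continuous (𝕜 := 𝕜) v).tendsto a).comp hlim
  exact h

theorem seq2 : StSeq2 𝕜 X := by
  intro R w w' hw hlim
  have hR : 0 ≤ R := le_trans (norm_nonneg _) (hw 0)
  refine ContinuousLinearMap.opNorm_le_bound w' hR (fun v => ?_)
  exact le_of_tendsto' (hlim v).norm (fun n => (w n).le_of_opNorm_le (hw n) v)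

namespace SeqAux

theorem const_of_lattice (e : ℝ) (he : 0 < e) (a : ℕ → ℝ) (L : ℝ)
    (hlat : ∀ n, ∃ m : ℤ, a n = m * e) (hlim : Tendsto a atTop (𝓝 L)) :
    (∃ m : ℤ, L = m * e) ∧ ∀ᶠ n in atTop, a n = L := by
  have hev : ∀ᶠ n in atTop, |a n - L| < e / 2 := by
    have := Metric.tendsto_nhds.mp hlim (e / 2) (by positivity)
    filter_upwards [this] with n hn
    rwa [Real.dist_eq] at hn
  obtain ⟨N, hN⟩ := eventually_atTop.mp hev
  obtain ⟨m, hm⟩ := hlat N
  have hconst : ∀ n, N ≤ n → a n = m * e := by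
    intro n hn
    obtain ⟨m', hm'⟩ := hlat n
    have h1 := hN n hn
    have h2 := hN N le_rfl
    have h3 : |(m' - m : ℝ) * e| < 1 * e := by
      have : (m' - m : ℝ) * e = (a n - L) - (a N - L) := by rw [hm', hm]; ring
      rw [this]
      calc |(a n - L) - (a N - L)| ≤ |a n - L| + |a N - L| := abs_sub _ _
        _ < e / 2 + e / 2 := by linarith
        _ = 1 * e := by ring
    rw [abs_mul, abs_of_pos he] at h3
    have h4 : |(m' - m : ℝ)| < 1 := lt_of_mul_lt_mul_right h3 he.le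
    have h5 : |m' - m| < 1 := by exact_mod_cast h4
    have h6 : m' = m := by
      rw [Int.abs_lt_one_iff] at h5
      omega
    rw [hm', h6]
  have hL : L = m * e := by
    refine tendsto_nhds_unique hlim ?_
    refine tendsto_const_nhds.congr' ?_
    filter_upwards [eventually_ge_atTop N] with n hn
    exact (hconst n hn).symm
  refine ⟨⟨m, hL⟩, ?_⟩
  filter_upwards [eventually_ge_atTop N] with n hn
  rw [hconst n hn, hL]

end SeqAux

theorem seq3 : StSeq3 𝕜 X := by
  intro q x ε hd w w' hw hlim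
  have key : ∀ i, (∃ m : ℤ, RCLike.re (w' (x i)) = m * ε i) ∧
      ∀ᶠ n in atTop, RCLike.re (w n (x i)) = RCLike.re (w' (x i)) := by
    intro i
    refine SeqAux.const_of_lattice (ε i) (hd.pos i) (fun n => RCLike.re (w n (x i)))
      (RCLike.re (w' (x i))) (fun n => hw n i) ?_
    exact (RCLike.continuous_re.tendsto _).comp (hlim (x i))
  refine ⟨fun i => (key i).1, ?_⟩
  intro N
  have : ∀ᶠ n in atTop, ∀ i ∈ Finset.range N,
      RCLike.re (w n (x i)) = RCLike.re (w' (x i)) := by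
    rw [Filter.eventually_all_finset]
    intro i _
    exact (key i).2
  filter_upwards [this] with n hn i hi
  exact hn i (Finset.mem_range.mpr hi)

namespace SeqAux

theorem re_tendsto {q : ℝ} {x : ℕ → X} {ε : ℕ → ℝ} (hd : LatData 𝕜 q x ε) {R : ℝ}
    {w : ℕ → X →L[𝕜] 𝕜} {w' : X →L[𝕜] 𝕜} (hw : ∀ n, ‖w n‖ ≤ R)
    (hag : ∀ N, ∀ᶠ n in atTop, Agr x N (w n) w') (v : X) :
    Tendsto (fun n => RCLike.re (w n v)) atTop (𝓝 (RCLike.re (w' v))) := by
  have hR : 0 ≤ R := le_trans (norm_nonneg _) (hw 0)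
  rw [Metric.tendsto_nhds]
  intro η hη
  set C : ℝ := R + ‖w'‖ + 1 with hC
  have hCpos : 0 < C := by positivity
  obtain ⟨N, c, hc⟩ := hd.dense v (η / C) (by positivity)
  set v₀ : X := ∑ i ∈ Finset.range N, (c i : 𝕜) • x i with hv₀
  filter_upwards [hag N] with n hn
  have h0 : RCLike.re ((w n - w') v₀) = 0 := by
    rw [hv₀, map_sum, map_sum]
    refine Finset.sum_eq_zero (fun i hi => ?_)
    rw [map_smul, smul_eq_mul, RCLike.re_ofReal_mul, ContinuousLinearMap.sub_apply, map_sub,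
      hn i (Finset.mem_range.mp hi), sub_self, mul_zero]
  have h1 : RCLike.re (w n v) - RCLike.re (w' v) = RCLike.re ((w n - w') (v - v₀)) := by
    rw [map_sub (w n - w'), map_sub, h0, sub_zero, ContinuousLinearMap.sub_apply, map_sub]
  rw [Real.dist_eq, h1]
  calc |RCLike.re ((w n - w') (v - v₀))| ≤ ‖(w n - w') (v - v₀)‖ := RCLike.abs_re_le_norm _
    _ ≤ ‖w n - w'‖ * ‖v - v₀‖ := (w n - w').le_opNorm _
    _ ≤ C * ‖v - v₀‖ := by
        refine mul_le_mul_of_nonneg_right ?_ (norm_nonneg _)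
        calc ‖w n - w'‖ ≤ ‖w n‖ + ‖w'‖ := norm_sub_le _ _
          _ ≤ C := by rw [hC]; linarith [hw n]
    _ < C * (η / C) := by
        exact mul_lt_mul_of_pos_left hc hCpos
    _ = η := by field_simp

theorem im_eq (f : X →L[𝕜] 𝕜) (v : X) :
    RCLike.im (f v) = - RCLike.re (f ((RCLike.I : 𝕜) • v)) := by
  rw [map_smul, smul_eq_mul, RCLike.I_mul_re, neg_neg]

end SeqAux

theorem seq4 : StSeq4 𝕜 X := by
  intro q x ε hd R w w' hw hag v
  have hre := SeqAux.re_tendsto hd hw hag v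
  have him : Tendsto (fun n => RCLike.im (w n v)) atTop (𝓝 (RCLike.im (w' v))) := by
    have h := (SeqAux.re_tendsto hd hw hag ((RCLike.I : 𝕜) • v)).neg
    simp only [← SeqAux.im_eq] at h
    exact h
  have h1 : Tendsto (fun n => ((RCLike.re (w n v) : ℝ) : 𝕜) + ((RCLike.im (w n v) : ℝ) : 𝕜) *
      RCLike.I) atTop (𝓝 (((RCLike.re (w' v) : ℝ) : 𝕜) + ((RCLike.im (w' v) : ℝ) : 𝕜) *
      RCLike.I)) :=
    ((RCLike.continuous_ofReal.tendsto _).comp hre).add
      (((RCLike.continuous_ofReal.tendsto _).comp him).mul tendsto_const_nhds)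
  simpa only [RCLike.re_add_im] using h1

end SeqProofs

end Pool.Agent.R286.IA
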