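import Pool.Agent.R286.IA.Stm

/-!
# Two halves of the piece LAT
-/

set_option autoImplicit false

open Filter Topology MeasureTheory

namespace Pool.Agent.R286.IA

section

variable (𝕜 : Type*) [RCLike 𝕜] {X : Type*} [NormedAddCommGroup X] [NormedSpace 𝕜 X]

/-- a sequence in the unit ball with dense real span and dual functionals at each level -/
structure PreLat (x : ℕ → X) : Prop where
  norm_le : ∀ i, ‖x i‖ ≤ 1
  dense : ∀ v : X, ∀ η : ℝ, 0 < η → ∃ n : ℕ, ∃ c : ℕ → ℝ,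
    ‖v - ∑ i ∈ Finset.range n, (c i : 𝕜) • x i‖ < η
  dual : ∀ N : ℕ, ∃ g : ℕ → X →L[𝕜] 𝕜, ∀ i < N, ∀ j < N,
    RCLike.re (g i (x j)) = if i = j then 1 else 0

end

variable (𝕜 : Type*) [RCLike 𝕜] (X : Type*) [NormedAddCommGroup X] [NormedSpace 𝕜 X]

/-- LATA (steps 1, 2) -/
def StLatA : Prop := TopologicalSpace.SeparableSpace X → ¬ FiniteDimensional 𝕜 X →
  ∃ x : ℕ → X, PreLat 𝕜 x

/-- LATB (steps 3, 4, 5) -/
def StLatB : Prop := ∀ x : ℕ → X, PreLat 𝕜 x → ∀ q : ℝ, 0 < q → ∃ ε : ℕ → ℝ, LatData 𝕜 q x ε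

theorem lat_of {𝕜 : Type*} [RCLike 𝕜] {X : Type*} [NormedAddCommGroup X] [NormedSpace 𝕜 X]
    (hA : StLatA 𝕜 X) (hB : StLatB 𝕜 X) : StLat 𝕜 X := by
  intro hs hf q hq
  obtain ⟨x, hx⟩ := hA hs hf
  obtain ⟨ε, hε⟩ := hB x hx q hq
  exact ⟨x, ε, hε⟩

end Pool.Agent.R286.IA
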