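import Pool.Agent.R286.IA.Stm

/-! MP_4265c1_an, piece UC (helper92): uniform smoothness gives uniform convexity of the dual. -/

set_option autoImplicit false

open Filter Topology MeasureTheory

namespace Pool.Agent.R286.IA

namespace UcAux

variable {𝕜 : Type*} [RCLike 𝕜] {X : Type*} [NormedAddCommGroup X] [NormedSpace 𝕜 X]

lemma re_le (f : X →L[𝕜] 𝕜) (hf : ‖f‖ ≤ 1) (v : X) : RCLike.re (f v) ≤ ‖v‖ := by
  calc RCLike.re (f v) ≤ ‖f v‖ := RCLike.re_le_norm _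
    _ ≤ ‖f‖ * ‖v‖ := f.le_opNorm v
    _ ≤ 1 * ‖v‖ := mul_le_mul_of_nonneg_right hf (norm_nonneg _)
    _ = ‖v‖ := one_mul _

lemma re_real_mul (t : ℝ) (z : 𝕜) : RCLike.re ((t : 𝕜) * z) = t * RCLike.re z := by
  rw [RCLike.re_ofReal_mul]

end UcAux

open UcAux

theorem uc {𝕜 : Type*} [RCLike 𝕜] {X : Type*} [NormedAddCommGroup X] [NormedSpace 𝕜 X] :
    StUC 𝕜 X := by
  intro hS η hη
  obtain ⟨t₀, ht₀, h⟩ := hS (η / 4) (by positivity)
  have ht : 0 < t₀ := ht₀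
  refine ⟨min 1 (η * t₀ / 4), lt_min one_pos (by positivity), min_le_left _ _, ?_⟩
  intro f g x hf hg hx h1 h2
  have hκ : min 1 (η * t₀ / 4) ≤ η * t₀ / 4 := min_le_right _ _
  have key : ∀ y : X, ‖y‖ = 1 → RCLike.re ((f - g) y) ≤ η := by
    intro y hy
    have h3 := h t₀ ht le_rfl x y hx hy
    have h4 := re_le f hf (x + (t₀ : 𝕜) • y)
    have h5 := re_le g hg (x - (t₀ : 𝕜) • y)
    rw [map_add, map_smul, smul_eq_mul, map_add, re_real_mul] at h4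
    rw [map_sub, map_smul, smul_eq_mul, map_sub, re_real_mul] at h5
    rw [sub_apply, map_sub]
    have h6 : t₀ * (RCLike.re (f y) - RCLike.re (g y)) ≤ t₀ * η := by nlinarith
    exact le_of_mul_le_mul_left h6 ht
  apply ContinuousLinearMap.opNorm_le_bound _ hη.le
  intro v
  by_cases hv : v = 0
  · simp [hv]
  have hv0 : 0 < ‖v‖ := norm_pos_iff.mpr hv
  obtain ⟨c, hc, hcz⟩ := RCLike.exists_norm_eq_mul_self ((f - g) v)
  have hy : ‖(c * ((‖v‖⁻¹ : ℝ) : 𝕜)) • v‖ = 1 := by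
    rw [norm_smul, norm_mul, hc, RCLike.norm_ofReal, abs_of_pos (inv_pos.mpr hv0), one_mul,
      inv_mul_cancel₀ hv0.ne']
  have h3 := key _ hy
  rw [map_smul, smul_eq_mul] at h3
  have e : c * ((‖v‖⁻¹ : ℝ) : 𝕜) * (f - g) v = (((‖v‖⁻¹ * ‖(f - g) v‖ : ℝ)) : 𝕜) := by
    rw [mul_comm c, mul_assoc, ← hcz, RCLike.ofReal_mul]
  rw [e, RCLike.ofReal_re] at h3
  have h4 : ‖(f - g) v‖ = ‖v‖ * (‖v‖⁻¹ * ‖(f - g) v‖) := by
    rw [← mul_assoc, mul_inv_cancel₀ hv0.ne', one_mul]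
  rw [h4, mul_comm η]
  exact mul_le_mul_of_nonneg_left h3 hv0.le

end Pool.Agent.R286.IA
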